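import Mathlib

/-! Characters of (not necessarily unital) representations of an algebra. -/

namespace Pool.Agent.GCC

/-- The characters of the (not necessarily unital) finite-dimensional representations of `D`. -/
def Ch (K : Type*) [Field K] (D : Type*) [Ring D] [Algebra K D] : Set (D →ₗ[K] K) :=
  {τ | ∃ (n : ℕ) (ρ : D →ₗ[K] Matrix (Fin n) (Fin n) K), (∀ x y, ρ (x * y) = ρ x * ρ y) ∧
    ∀ x, τ x = (ρ x).trace}

end Pool.Agent.GCC
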