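import Mathlib

/-! Chains of elementary strong shift equivalences. -/

open Matrix

namespace Pool.Agent.GCC

/-- `Chain A k B P`: there is a chain of elementary strong shift equivalences over the nonnegative
integers from `A` to `B`, with product of the `R`'s equal to `P`. -/
inductive Chain {n : ℕ} (A : Matrix (Fin n) (Fin n) ℤ) :
    (k : ℕ) → Matrix (Fin k) (Fin k) ℤ → Matrix (Fin n) (Fin k) ℤ → Prop
  | refl : Chain A n A 1
  | step {k l : ℕ} {B : Matrix (Fin k) (Fin k) ℤ} {P : Matrix (Fin n) (Fin k) ℤ}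
      (R : Matrix (Fin k) (Fin l) ℤ) (S : Matrix (Fin l) (Fin k) ℤ)
      (hR : ∀ i j, 0 ≤ R i j) (hS : ∀ i j, 0 ≤ S i j) (hB : B = R * S) (h : Chain A k B P) :
      Chain A l (S * R) (P * R)

end Pool.Agent.GCC
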