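import Pool.Agent.GCC.ChDef

/-! MODULE M2 (file Pool/Agent/GCC/Char.lean): characters of finite-dimensional algebras.
`K` algebraically closed of characteristic zero. -/

namespace Pool.Agent.GCC

variable (K : Type*) [Field K] (D : Type*) [Ring D] [Algebra K D]

/-- the semisimple quotient -/
lemma exists_semisimple_quotient [IsAlgClosed K] [FiniteDimensional K D] :
    ∃ (n : ℕ) (d : Fin n → ℕ) (π : D →ₐ[K] (Π i, Matrix (Fin (d i)) (Fin (d i)) K)),
      (∀ i, NeZero (d i)) ∧ Function.Surjective π ∧ ∀ x, π x = 0 → IsNilpotent x := by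
  have hart : IsArtinianRing D := IsArtinianRing.of_finite K D
  have hss : IsSemisimpleRing (D ⧸ Ring.jacobson D) := inferInstance
  have hnil : IsNilpotent (Ring.jacobson D) := IsSemiprimaryRing.isNilpotent
  have hfd : FiniteDimensional K (D ⧸ Ring.jacobson D) :=
    Module.Finite.of_surjective (Ideal.Quotient.mkₐ K (Ring.jacobson D)).toLinearMap
      (Ideal.Quotient.mkₐ_surjective K _)
  obtain ⟨n, d, hd, ⟨e⟩⟩ :=
    IsSemisimpleRing.exists_algEquiv_pi_matrix_of_isAlgClosed K (D ⧸ Ring.jacobson D)
  refine ⟨n, d, (e : (D ⧸ Ring.jacobson D) →ₐ[K] _).comp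
    (Ideal.Quotient.mkₐ K (Ring.jacobson D)), hd, ?_, ?_⟩
  · exact e.surjective.comp (Ideal.Quotient.mkₐ_surjective K _)
  · intro x hx
    have h1 : Ideal.Quotient.mkₐ K (Ring.jacobson D) x = 0 := by
      apply e.injective
      rw [map_zero]
      exact hx
    have h2 : x ∈ Ring.jacobson D := by
      rw [Ideal.Quotient.mkₐ_eq_mk] at h1
      exact Ideal.Quotient.eq_zero_iff_mem.1 h1
    obtain ⟨k, hk⟩ := hnil
    refine ⟨k, ?_⟩
    have h3 : x ^ k ∈ (Ring.jacobson D) ^ k := Ideal.pow_mem_pow h2 k
    rw [hk] at h3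
    exact h3

section

variable {K D}

/-- a character kills nilpotent elements -/
lemma char_nilpotent {n : ℕ} (ρ : D →ₗ[K] Matrix (Fin n) (Fin n) K)
    (hρ : ∀ x y, ρ (x * y) = ρ x * ρ y) {x : D} (hx : IsNilpotent x) : (ρ x).trace = 0 := by
  have hpow : ∀ k, ρ (x ^ (k + 1)) = ρ x ^ (k + 1) := by
    intro k
    induction k with
    | zero => simp
    | succ k ih => rw [pow_succ x, hρ, ih, ← pow_succ]
  obtain ⟨k, hk⟩ := hx
  have h1 : IsNilpotent (ρ x) := by
    refine ⟨k + 1, ?_⟩
    rw [← hpow, pow_succ, hk, zero_mul, map_zero]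
  exact (Matrix.isNilpotent_trace_of_isNilpotent h1).eq_zero

/-- the trace of an idempotent matrix is a natural number -/
lemma trace_idempotent {n : ℕ} {A : Matrix (Fin n) (Fin n) K} (hA : IsIdempotentElem A) :
    ∃ c : ℕ, A.trace = (c : K) := by
  have h1 : IsIdempotentElem (Matrix.toLin' A) := by
    have h0 := Matrix.toLin'_mul A A
    rw [hA.eq] at h0
    exact h0.symm
  have h2 := (LinearMap.isProj_range_iff_isIdempotentElem _).2 h1
  refine ⟨Module.finrank K (LinearMap.range (Matrix.toLin' A)), ?_⟩
  rw [← Matrix.trace_toLin'_eq, h2.trace]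

end

/-- MAIN THEOREM: the characters are the natural combinations of a linearly independent family. -/
theorem Ch_basis [IsAlgClosed K] [CharZero K] [FiniteDimensional K D] :
    ∃ (n : ℕ) (b : Fin n → (D →ₗ[K] K)), (∀ i, b i ∈ Ch K D) ∧ LinearIndependent K b ∧
      ∀ τ ∈ Ch K D, ∃ c : Fin n → ℕ, τ = ∑ i, (c i : K) • b i := by
  classical
  obtain ⟨n, d, π, hd, hsurj, hker⟩ := exists_semisimple_quotient K D
  -- matrix units
  let E : (i : Fin n) → Fin (d i) → Fin (d i) → (Π i, Matrix (Fin (d i)) (Fin (d i)) K) :=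
    fun i a b => Pi.single i (Matrix.single a b 1)
  have hE : ∀ i a b, ∃ e : D, π e = E i a b := fun i a b => hsurj _
  choose e he using hE
  have hEmul : ∀ i a b c, E i a b * E i b c = E i a c := by
    intro i a b c
    simp only [E]
    rw [← Pi.single_mul, Matrix.single_mul_single_same, mul_one]
  have hEmul0 : ∀ i a b, a ≠ b → E i a b * E i a a = 0 := by
    intro i a b hab
    simp only [E]
    rw [← Pi.single_mul, Matrix.single_mul_single_of_ne (h := hab.symm)]
    simp
  let b : Fin n → (D →ₗ[K] K) := fun i =>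
    (Matrix.traceLinearMap (Fin (d i)) K K).comp ((LinearMap.proj i).comp π.toLinearMap)
  have hbE : ∀ i j a, b i (e j a a) = if i = j then 1 else 0 := by
    intro i j a
    have : b i (e j a a) = ((π (e j a a)) i).trace := rfl
    rw [this, he]
    by_cases hij : i = j
    · subst hij
      simp [E]
    · simp [E, hij]
  refine ⟨n, b, ?_, ?_, ?_⟩
  · intro i
    refine ⟨d i, (LinearMap.proj i).comp π.toLinearMap, fun x y => ?_, fun x => rfl⟩
    change (π (x * y)) i = (π x) i * (π y) i
    rw [map_mul]
    rfl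
  · rw [Fintype.linearIndependent_iff]
    intro g hg i
    have hi := hd i
    have h1 := LinearMap.congr_fun hg (e i ⟨0, Nat.pos_of_ne_zero (NeZero.ne _)⟩
      ⟨0, Nat.pos_of_ne_zero (NeZero.ne _)⟩)
    rw [LinearMap.sum_apply] at h1
    simp only [LinearMap.smul_apply, hbE, smul_eq_mul, mul_ite, mul_one, mul_zero,
      LinearMap.zero_apply] at h1
    simpa using h1
  · rintro τ ⟨m, ρ, hρ, hτ⟩
    have hcomm : ∀ x y, τ (x * y) = τ (y * x) := by
      intro x y
      rw [hτ, hτ, hρ, hρ, Matrix.trace_mul_comm]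
    have hkill : ∀ x y, π x = π y → τ x = τ y := by
      intro x y hxy
      have h1 : IsNilpotent (x - y) := hker _ (by rw [map_sub, hxy, sub_self])
      have h2 : τ (x - y) = 0 := by rw [hτ]; exact char_nilpotent ρ hρ h1
      rwa [map_sub, sub_eq_zero] at h2
    -- natural numbers
    have hnat : ∀ i, ∃ c : ℕ, ∀ a, τ (e i a a) = (c : K) := by
      intro i
      have hi := hd i
      let z : Fin (d i) := ⟨0, Nat.pos_of_ne_zero (NeZero.ne _)⟩
      have hidem : IsIdempotentElem (E i z z) := hEmul i z z z
      obtain ⟨f, hf, hfE⟩ := exists_isIdempotentElem_eq_of_ker_isNilpotent (π.toRingHom)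
        (fun x hx => hker x (by simpa [RingHom.mem_ker] using hx)) (E i z z)
        ⟨e i z z, he i z z⟩ hidem
      have hρf : IsIdempotentElem (ρ f) := by
        change ρ f * ρ f = ρ f
        rw [← hρ, hf.eq]
      obtain ⟨c, hc⟩ := trace_idempotent hρf
      refine ⟨c, fun a => ?_⟩
      have h1 : τ (e i a a) = τ (e i a z * e i z a) := hkill _ _ (by
        rw [map_mul, he, he, he, hEmul])
      have h2 : τ (e i z a * e i a z) = τ f := hkill _ _ (by
        rw [map_mul, he, he, hEmul]
        exact hfE.symm)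
      rw [h1, hcomm, h2, hτ, hc]
    choose c hc using hnat
    have hoff : ∀ i a b', a ≠ b' → τ (e i a b') = 0 := by
      intro i a b' hab
      have h1 : τ (e i a b') = τ (e i a a * e i a b') := hkill _ _ (by
        rw [map_mul, he, he, hEmul])
      have h2 : τ (e i a b' * e i a a) = τ 0 := hkill _ _ (by
        rw [map_mul, he, he, hEmul0 i a b' hab, map_zero])
      rw [h1, hcomm, h2, map_zero]
    refine ⟨c, ?_⟩
    ext x
    have hx : τ x = τ (∑ i, ∑ a, ∑ b', (π x) i a b' • e i a b') := by
      refine hkill _ _ ?_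
      rw [map_sum]
      funext j
      rw [Finset.sum_apply, Finset.sum_eq_single j]
      · rw [map_sum, Finset.sum_apply]
        conv_lhs => rw [Matrix.matrix_eq_sum_single ((π x) j)]
        refine Finset.sum_congr rfl fun a _ => ?_
        rw [map_sum, Finset.sum_apply]
        refine Finset.sum_congr rfl fun b' _ => ?_
        rw [map_smul, he]
        simp only [E, Pi.smul_apply, Pi.single_eq_same, Matrix.smul_single, smul_eq_mul, mul_one]
      · intro i _ hij
        rw [map_sum, Finset.sum_apply]
        refine Finset.sum_eq_zero fun a _ => ?_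
        rw [map_sum, Finset.sum_apply]
        refine Finset.sum_eq_zero fun b' _ => ?_
        rw [map_smul, he]
        simp only [E, Pi.smul_apply]
        rw [Pi.single_eq_of_ne hij.symm, smul_zero]
      · intro h
        exact absurd (Finset.mem_univ j) h
    rw [hx, LinearMap.sum_apply, map_sum]
    refine Finset.sum_congr rfl fun i _ => ?_
    rw [map_sum]
    have h1 : ∀ a, τ (∑ b', (π x) i a b' • e i a b') = (π x) i a a * (c i : K) := by
      intro a
      rw [map_sum, Finset.sum_eq_single a]
      · rw [map_smul, hc, smul_eq_mul]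
      · intro b' _ hb
        rw [map_smul, hoff i a b' hb.symm, smul_zero]
      · intro h
        exact absurd (Finset.mem_univ a) h
    rw [Finset.sum_congr rfl fun a _ => h1 a, ← Finset.sum_mul, LinearMap.smul_apply,
      smul_eq_mul, mul_comm]
    rfl

end Pool.Agent.GCC
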