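import Mathlib

/-!
# Leavitt path algebras, graded rings, graded right modules and the graded Grothendieck group

Definitions used by the statements on the graded classification conjecture.
-/

open MulOpposite DirectSum

namespace Pool.Agent.GCC

universe u

/-- A finite directed graph: `nV` vertices, `nE` edges, and the source and range maps. -/
structure FinGraph where
  /-- number of vertices -/
  nV : ℕ
  /-- number of edges -/
  nE : ℕ
  /-- source of an edge -/
  s : Fin nE → Fin nV
  /-- range of an edge -/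
  r : Fin nE → Fin nV

/-- The generators of the Leavitt path algebra: vertices, edges and ghost edges. -/
inductive Gen (G : FinGraph) : Type
  | v (x : Fin G.nV) : Gen G
  | e (x : Fin G.nE) : Gen G
  | g (x : Fin G.nE) : Gen G

/-- Degrees of the generators: `0` for vertices, `1` for edges, `-1` for ghost edges. -/
def Gen.deg {G : FinGraph} : Gen G → ℤ
  | .v _ => 0
  | .e _ => 1
  | .g _ => -1

/-- The defining relations of the (unital) Leavitt path algebra of a finite graph. -/
inductive Rel (K : Type u) [Field K] (G : FinGraph) :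
    FreeAlgebra K (Gen G) → FreeAlgebra K (Gen G) → Prop
  | vv_self (x : Fin G.nV) :
      Rel K G (FreeAlgebra.ι K (Gen.v x) * FreeAlgebra.ι K (Gen.v x)) (FreeAlgebra.ι K (Gen.v x))
  | vv_ne (x y : Fin G.nV) (h : x ≠ y) :
      Rel K G (FreeAlgebra.ι K (Gen.v x) * FreeAlgebra.ι K (Gen.v y)) 0
  | sum_v : Rel K G (∑ x : Fin G.nV, FreeAlgebra.ι K (Gen.v x)) 1
  | se (x : Fin G.nE) :
      Rel K G (FreeAlgebra.ι K (Gen.v (G.s x)) * FreeAlgebra.ι K (Gen.e x))
        (FreeAlgebra.ι K (Gen.e x))
  | er (x : Fin G.nE) :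
      Rel K G (FreeAlgebra.ι K (Gen.e x) * FreeAlgebra.ι K (Gen.v (G.r x)))
        (FreeAlgebra.ι K (Gen.e x))
  | rg (x : Fin G.nE) :
      Rel K G (FreeAlgebra.ι K (Gen.v (G.r x)) * FreeAlgebra.ι K (Gen.g x))
        (FreeAlgebra.ι K (Gen.g x))
  | gs (x : Fin G.nE) :
      Rel K G (FreeAlgebra.ι K (Gen.g x) * FreeAlgebra.ι K (Gen.v (G.s x)))
        (FreeAlgebra.ι K (Gen.g x))
  | ge_self (x : Fin G.nE) :
      Rel K G (FreeAlgebra.ι K (Gen.g x) * FreeAlgebra.ι K (Gen.e x))
        (FreeAlgebra.ι K (Gen.v (G.r x)))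
  | ge_ne (x y : Fin G.nE) (h : x ≠ y) :
      Rel K G (FreeAlgebra.ι K (Gen.g x) * FreeAlgebra.ι K (Gen.e y)) 0
  | ck2 (x : Fin G.nV) (h : ∃ y, G.s y = x) :
      Rel K G (FreeAlgebra.ι K (Gen.v x))
        (∑ y ∈ Finset.univ.filter (fun y => G.s y = x),
          FreeAlgebra.ι K (Gen.e y) * FreeAlgebra.ι K (Gen.g y))

/-- The Leavitt path algebra of the finite graph `G` over the field `K`. -/
abbrev LPA (K : Type u) [Field K] (G : FinGraph) : Type u := RingQuot (Rel K G)

/-- The image of a generator in the Leavitt path algebra. -/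
noncomputable def LPA.gen (K : Type u) [Field K] (G : FinGraph) (x : Gen G) : LPA K G :=
  RingQuot.mkAlgHom K (Rel K G) (FreeAlgebra.ι K x)

/-- The homogeneous component of degree `n`: the span of the words of total degree `n`. -/
noncomputable def LPA.gr (K : Type u) [Field K] (G : FinGraph) (n : ℤ) :
    Submodule K (LPA K G) :=
  Submodule.span K {y | ∃ w : List (Gen G),
    (w.map Gen.deg).sum = n ∧ y = (w.map (LPA.gen K G)).prod}

/-- A `ℤ`-graded unital ring. -/
structure GrRing where
  /-- the underlying ring -/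
  A : Type u
  [ring : Ring A]
  /-- the homogeneous components -/
  gr : ℤ → AddSubgroup A
  one_mem : (1 : A) ∈ gr 0
  mul_mem : ∀ (i j : ℤ) (a b : A), a ∈ gr i → b ∈ gr j → a * b ∈ gr (i + j)
  internal : DirectSum.IsInternal gr

attribute [instance] GrRing.ring

/-- A `ℤ`-graded right module over the graded ring `R`. -/
structure GrMod (R : GrRing.{u}) where
  /-- the underlying module -/
  M : Type u
  [ac : AddCommGroup M]
  [mod : Module (R.A)ᵐᵒᵖ M]
  /-- the homogeneous components -/
  gr : ℤ → AddSubgroup M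
  smul_mem : ∀ (i j : ℤ) (m : M) (a : R.A), m ∈ gr i → a ∈ R.gr j → op a • m ∈ gr (i + j)
  internal : DirectSum.IsInternal gr

attribute [instance] GrMod.ac GrMod.mod

/-- Graded isomorphism of graded right modules. -/
def GrMod.Iso {R : GrRing.{u}} (P Q : GrMod R) : Prop :=
  ∃ f : P.M ≃ₗ[(R.A)ᵐᵒᵖ] Q.M, ∀ (n : ℤ) (m : P.M), m ∈ P.gr n ↔ f m ∈ Q.gr n

/-- Finitely generated graded projective right modules. -/
def FGProj (R : GrRing.{u}) : Type (u + 1) :=
  {P : GrMod R // Module.Finite (R.A)ᵐᵒᵖ P.M ∧ Module.Projective (R.A)ᵐᵒᵖ P.M}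

variable {M : Type*} [AddCommGroup M]

/-- Elementwise form of `DirectSum.IsInternal`. -/
theorem isInternal_iff (gr : ℤ → AddSubgroup M) : DirectSum.IsInternal gr ↔
    (∀ m : M, ∃ f : ℤ →₀ M, (∀ i, f i ∈ gr i) ∧ f.sum (fun _ x => x) = m) ∧
    (∀ f : ℤ →₀ M, (∀ i, f i ∈ gr i) → f.sum (fun _ x => x) = 0 → f = 0) := by
  classical
  have key : ∀ x : ⨁ i, gr i, ∃ f : ℤ →₀ M, (∀ i, f i = (x i : M)) ∧
      f.sum (fun _ x => x) = DirectSum.coeAddMonoidHom gr x := by
    intro x
    refine ⟨Finsupp.onFinset (DFinsupp.support x) (fun i => (x i : M)) ?_, ?_, ?_⟩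
    · intro i hi
      rw [DFinsupp.mem_support_iff]
      intro h
      exact hi (by simp [h])
    · intro i; rfl
    · rw [DirectSum.coeAddMonoidHom_eq_dfinsuppSum]
      rw [Finsupp.onFinset_sum _ (by intro; rfl)]
      rfl
  have key2 : ∀ f : ℤ →₀ M, (∀ i, f i ∈ gr i) → ∃ x : ⨁ i, gr i, (∀ i, f i = (x i : M)) := by
    intro f hf
    refine ⟨DFinsupp.mk f.support (fun i => ⟨f i, hf i⟩), ?_⟩
    intro i
    by_cases hi : i ∈ f.support
    · rw [DFinsupp.mk_of_mem hi]
    · rw [DFinsupp.mk_of_notMem hi]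
      simpa using hi
  constructor
  · intro h
    constructor
    · intro m
      obtain ⟨x, hx⟩ := h.2 m
      obtain ⟨f, hf, hs⟩ := key x
      exact ⟨f, fun i => by rw [hf]; exact (x i).2, by rw [hs, hx]⟩
    · intro f hf hs
      obtain ⟨x, hx⟩ := key2 f hf
      obtain ⟨f', hf', hs'⟩ := key x
      have e : f = f' := by
        ext i; rw [hx, hf']
      subst e
      have : x = 0 := by
        apply h.1
        rw [← hs', hs, map_zero]
      ext i
      rw [hx, this]; rfl
  · rintro ⟨h1, h2⟩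
    constructor
    · rw [injective_iff_map_eq_zero]
      intro x hx
      obtain ⟨f, hf, hs⟩ := key x
      have hf0 : f = 0 := h2 f (fun i => by rw [hf]; exact (x i).2) (by rw [hs, hx])
      ext i
      rw [← hf, hf0]; rfl
    · intro m
      obtain ⟨f, hf, hs⟩ := h1 m
      obtain ⟨x, hx⟩ := key2 f hf
      obtain ⟨f', hf', hs'⟩ := key x
      have e : f = f' := by
        ext i; rw [hx, hf']
      subst e
      exact ⟨x, by rw [← hs', hs]⟩

theorem isInternal_prod {N : Type*} [AddCommGroup N] {p : ℤ → AddSubgroup M}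
    {q : ℤ → AddSubgroup N} (hp : DirectSum.IsInternal p) (hq : DirectSum.IsInternal q) :
    DirectSum.IsInternal (fun n => (p n).prod (q n)) := by
  classical
  rw [isInternal_iff] at *
  constructor
  · rintro ⟨m, n⟩
    obtain ⟨f, hf, hfs⟩ := hp.1 m
    obtain ⟨g, hg, hgs⟩ := hq.1 n
    refine ⟨f.mapRange (AddMonoidHom.inl M N) (map_zero _) +
      g.mapRange (AddMonoidHom.inr M N) (map_zero _), ?_, ?_⟩
    · intro i
      simp only [Finsupp.coe_add, Pi.add_apply, Finsupp.mapRange_apply, AddMonoidHom.inl_apply,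
        AddMonoidHom.inr_apply, Prod.mk_add_mk, add_zero, zero_add]
      exact ⟨hf i, hg i⟩
    · rw [Finsupp.sum_add_index' (by simp) (by simp), Finsupp.sum_mapRange_index (by simp),
        Finsupp.sum_mapRange_index (by simp)]
      have h1 : (f.sum fun _ x => (AddMonoidHom.inl M N) x) =
          AddMonoidHom.inl M N (f.sum fun _ x => x) := by
        rw [map_finsuppSum]
      have h2 : (g.sum fun _ x => (AddMonoidHom.inr M N) x) =
          AddMonoidHom.inr M N (g.sum fun _ x => x) := by
        rw [map_finsuppSum]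
      rw [h1, h2, hfs, hgs]
      simp
  · intro f hf hs
    have h1 : f.mapRange (AddMonoidHom.fst M N) (map_zero _) = 0 := by
      apply hp.2
      · intro i
        exact (hf i).1
      · rw [Finsupp.sum_mapRange_index (by simp)]
        have : (f.sum fun _ x => (AddMonoidHom.fst M N) x) =
          AddMonoidHom.fst M N (f.sum fun _ x => x) := by
          rw [map_finsuppSum]
        rw [this, hs]; simp
    have h2 : f.mapRange (AddMonoidHom.snd M N) (map_zero _) = 0 := by
      apply hq.2
      · intro i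
        exact (hf i).2
      · rw [Finsupp.sum_mapRange_index (by simp)]
        have : (f.sum fun _ x => (AddMonoidHom.snd M N) x) =
          AddMonoidHom.snd M N (f.sum fun _ x => x) := by
          rw [map_finsuppSum]
        rw [this, hs]; simp
    ext i
    · have := DFunLike.congr_fun h1 i
      simpa using this
    · have := DFunLike.congr_fun h2 i
      simpa using this

theorem isInternal_shift {p : ℤ → AddSubgroup M} (hp : DirectSum.IsInternal p) (k : ℤ) :
    DirectSum.IsInternal (fun n => p (n + k)) := by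
  classical
  rw [isInternal_iff] at *
  constructor
  · intro m
    obtain ⟨f, hf, hfs⟩ := hp.1 m
    refine ⟨f.equivMapDomain (Equiv.subRight k), ?_, ?_⟩
    · intro i
      rw [Finsupp.equivMapDomain_apply]
      simpa using hf (i + k)
    · rw [Finsupp.equivMapDomain_eq_mapDomain, Finsupp.sum_mapDomain_index (by simp) (by simp), hfs]
  · intro f hf hs
    have h := hp.2 (f.equivMapDomain (Equiv.addRight k)) ?_ ?_
    · ext i
      have := DFunLike.congr_fun h (i + k)
      rw [Finsupp.equivMapDomain_apply] at this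
      simpa using this
    · intro i
      rw [Finsupp.equivMapDomain_apply]
      have := hf (i - k)
      simpa [sub_eq_add_neg] using this
    · rw [Finsupp.equivMapDomain_eq_mapDomain, Finsupp.sum_mapDomain_index (by simp) (by simp), hs]

theorem isInternal_zero : DirectSum.IsInternal (fun _ : ℤ => (⊤ : AddSubgroup PUnit.{u + 1})) := by
  rw [isInternal_iff]
  refine ⟨fun m => ⟨0, fun _ => trivial, rfl⟩, fun f _ _ => Subsingleton.elim _ _⟩

section K0

variable {R : GrRing.{u}}

/-- Direct sum of graded modules. -/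
def GrMod.prod (P Q : GrMod R) : GrMod R where
  M := P.M × Q.M
  gr n := (P.gr n).prod (Q.gr n)
  smul_mem i j m a hm ha := ⟨P.smul_mem i j _ a hm.1 ha, Q.smul_mem i j _ a hm.2 ha⟩
  internal := isInternal_prod P.internal Q.internal

/-- The zero graded module. -/
def GrMod.zero (R : GrRing.{u}) : GrMod R where
  M := PUnit
  gr _ := ⊤
  smul_mem _ _ _ _ _ _ := trivial
  internal := isInternal_zero

/-- The shift `M(k)`, with `M(k)_n = M_{n+k}`. -/
def GrMod.shift (P : GrMod R) (k : ℤ) : GrMod R where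
  M := P.M
  gr n := P.gr (n + k)
  smul_mem i j m a hm ha := by
    rw [show i + j + k = i + k + j by ring]
    exact P.smul_mem (i + k) j m a hm ha
  internal := isInternal_shift P.internal k

/-- The graded ring as a graded right module over itself. -/
def GrMod.self (R : GrRing.{u}) : GrMod R where
  M := R.A
  gr := R.gr
  smul_mem i j m a hm ha := R.mul_mem i j m a hm ha
  internal := R.internal

theorem GrMod.Iso.refl (P : GrMod R) : P.Iso P := ⟨LinearEquiv.refl _ _, fun _ _ => Iff.rfl⟩

theorem GrMod.Iso.symm {P Q : GrMod R} (h : P.Iso Q) : Q.Iso P := by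
  obtain ⟨f, hf⟩ := h
  exact ⟨f.symm, fun n m => by rw [hf, LinearEquiv.apply_symm_apply]⟩

theorem GrMod.Iso.trans {P Q S : GrMod R} (h : P.Iso Q) (h' : Q.Iso S) : P.Iso S := by
  obtain ⟨f, hf⟩ := h
  obtain ⟨g, hg⟩ := h'
  exact ⟨f.trans g, fun n m => by rw [hf, hg]; rfl⟩

theorem GrMod.Iso.prod {P Q P' Q' : GrMod R} (h : P.Iso P') (h' : Q.Iso Q') :
    (P.prod Q).Iso (P'.prod Q') := by
  obtain ⟨f, hf⟩ := h
  obtain ⟨g, hg⟩ := h'
  exact ⟨f.prodCongr g, fun n m => and_congr (hf n m.1) (hg n m.2)⟩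

theorem GrMod.Iso.shift {P Q : GrMod R} (h : P.Iso Q) (k : ℤ) : (P.shift k).Iso (Q.shift k) := by
  obtain ⟨f, hf⟩ := h
  exact ⟨f, fun n m => hf (n + k) m⟩

/-- Graded isomorphism as a setoid on finitely generated graded projective modules. -/
instance FGProj.setoid (R : GrRing.{u}) : Setoid (FGProj R) where
  r P Q := P.1.Iso Q.1
  iseqv := ⟨fun P => GrMod.Iso.refl P.1, fun h => h.symm, fun h h' => h.trans h'⟩

/-- Direct sum of finitely generated graded projective modules. -/
def FGProj.prod (P Q : FGProj R) : FGProj R :=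
  ⟨P.1.prod Q.1, by
    have := P.2.1; have := P.2.2; have := Q.2.1; have := Q.2.2
    exact ⟨inferInstanceAs (Module.Finite _ (P.1.M × Q.1.M)),
      inferInstanceAs (Module.Projective _ (P.1.M × Q.1.M))⟩⟩

/-- The zero module. -/
def FGProj.zero (R : GrRing.{u}) : FGProj R :=
  ⟨GrMod.zero R, ⟨inferInstanceAs (Module.Finite (R.A)ᵐᵒᵖ PUnit.{u + 1}),
    inferInstanceAs (Module.Projective (R.A)ᵐᵒᵖ PUnit.{u + 1})⟩⟩

/-- Shift of finitely generated graded projective modules. -/
def FGProj.shift (P : FGProj R) (k : ℤ) : FGProj R := ⟨P.1.shift k, P.2⟩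

/-- A ring is free of rank one as a right module over itself. -/
def opEquiv (A : Type*) [Ring A] : Aᵐᵒᵖ ≃ₗ[Aᵐᵒᵖ] A where
  toFun x := unop x
  invFun x := op x
  left_inv _ := rfl
  right_inv _ := rfl
  map_add' _ _ := rfl
  map_smul' _ _ := rfl

/-- The ring as a finitely generated graded projective module. -/
def FGProj.self (R : GrRing.{u}) : FGProj R :=
  ⟨GrMod.self R, ⟨Module.Finite.equiv (opEquiv R.A), Module.Projective.of_equiv (opEquiv R.A)⟩⟩

/-- The monoid of graded isomorphism classes of finitely generated graded projective modules. -/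
def V (R : GrRing.{u}) : Type (u + 1) := Quotient (FGProj.setoid R)

/-- The class of a module in `V`. -/
def V.mk (P : FGProj R) : V R := Quotient.mk _ P

instance : Add (V R) :=
  ⟨Quotient.map₂ FGProj.prod (fun _ _ h _ _ h' => GrMod.Iso.prod h h')⟩

instance : Zero (V R) := ⟨V.mk (FGProj.zero R)⟩

instance : AddCommMonoid (V R) where
  add_assoc := by
    rintro ⟨P⟩ ⟨Q⟩ ⟨S⟩
    apply Quotient.sound
    exact ⟨LinearEquiv.prodAssoc _ _ _ _, fun n m => and_assoc⟩
  zero_add := by
    rintro ⟨P⟩
    apply Quotient.sound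
    exact ⟨(LinearEquiv.uniqueProd : (PUnit.{u + 1} × P.1.M) ≃ₗ[(R.A)ᵐᵒᵖ] P.1.M), fun n m => ⟨fun h => h.2, fun h => ⟨trivial, h⟩⟩⟩
  add_zero := by
    rintro ⟨P⟩
    apply Quotient.sound
    exact ⟨(LinearEquiv.prodUnique : (P.1.M × PUnit.{u + 1}) ≃ₗ[(R.A)ᵐᵒᵖ] P.1.M), fun n m => ⟨fun h => h.1, fun h => ⟨h, trivial⟩⟩⟩
  add_comm := by
    rintro ⟨P⟩ ⟨Q⟩
    apply Quotient.sound
    exact ⟨LinearEquiv.prodComm _ _ _, fun n m => and_comm⟩
  nsmul := nsmulRec

theorem V.mk_add (P Q : FGProj R) : V.mk P + V.mk Q = V.mk (P.prod Q) := rfl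

/-- The shift on `V`. -/
def V.shift : V R →+ V R where
  toFun := Quotient.map (fun P => FGProj.shift P 1) (fun _ _ h => GrMod.Iso.shift h 1)
  map_zero' := by
    apply Quotient.sound
    exact ⟨LinearEquiv.refl _ _, fun _ _ => Iff.rfl⟩
  map_add' := by
    rintro ⟨P⟩ ⟨Q⟩
    rfl

/-- The graded Grothendieck group `K₀^Γ(R)`: the group completion of the monoid `V R`. -/
abbrev K0 (R : GrRing.{u}) : Type (u + 1) := Algebra.GrothendieckAddGroup (V R)

/-- The class `[P]` in `K₀^Γ(R)`. -/
noncomputable def K0.cls (P : FGProj R) : K0 R := Algebra.GrothendieckAddGroup.of (V.mk P)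

/-- The action of the generator of `Γ`: `[M] ↦ [M(1)]`. -/
noncomputable def K0.shift : K0 R →+ K0 R :=
  Algebra.GrothendieckAddGroup.lift (Algebra.GrothendieckAddGroup.of.comp V.shift)

/-- The positive cone: the set of classes `[P]`. -/
def K0.pos (R : GrRing.{u}) : Set (K0 R) := Set.range K0.cls

/-- The order-unit `[R]`. -/
noncomputable def K0.unit (R : GrRing.{u}) : K0 R := K0.cls (FGProj.self R)

/-- There is an order-preserving `Γ`-group isomorphism `K₀^Γ(R) → K₀^Γ(S)` sending `[R]` to `[S]`. -/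
def K0Iso (R S : GrRing.{u}) : Prop :=
  ∃ f : K0 R ≃+ K0 S, (∀ x, f (K0.shift x) = K0.shift (f x)) ∧
    (∀ x, x ∈ K0.pos R ↔ f x ∈ K0.pos S) ∧ f (K0.unit R) = K0.unit S

end K0

end Pool.Agent.GCC
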