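import Pool.Agent.GCC.Grading

/-!
# Cuntz-Krieger families: the spans of paths, the finite-dimensional subalgebras `lv k`,
# and the infinite path representation
-/

open MulOpposite DirectSum

namespace Pool.Agent.GCC

universe u

/-- No sinks. -/
def FinGraph.NoSink (G : FinGraph) : Prop := ∀ v, ∃ x, G.s x = v

/-- No sources. -/
def FinGraph.NoSource (G : FinGraph) : Prop := ∀ v, ∃ x, G.r x = v

/-- The adjacency matrix (number of edges from `v` to `w`). -/
def FinGraph.adj (G : FinGraph) : Matrix (Fin G.nV) (Fin G.nV) ℤ :=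
  fun v w => ((Finset.univ.filter (fun x => G.s x = v ∧ G.r x = w)).card : ℤ)

section

variable {K L : Type*} [Field K] [Ring L] [Algebra K L] {A B : Submodule K L}

theorem smL (h : A ≤ B) {C : Submodule K L} : A * C ≤ B * C := mul_le_mul' h le_rfl

theorem smR (h : A ≤ B) {C : Submodule K L} : C * A ≤ C * B := mul_le_mul' le_rfl h

end

namespace CKFamily

variable {G : FinGraph} {L : Type*} [Ring L] (F : CKFamily G L)

theorem ge (x y : Fin G.nE) : F.g x * F.e y = if x = y then F.p (G.r x) else 0 := by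
  split_ifs with h
  · subst h; exact F.ge_self x
  · exact F.ge_ne x y h

theorem pp (v w : Fin G.nV) : F.p v * F.p w = if v = w then F.p v else 0 := by
  split_ifs with h
  · subst h; exact F.pp_self v
  · exact F.pp_ne v w h

theorem pe (v : Fin G.nV) (x : Fin G.nE) : F.p v * F.e x = if G.s x = v then F.e x else 0 := by
  rw [← F.se x, ← mul_assoc, F.pp]
  split_ifs with h1 h2 h2
  · rw [h1]
  · exact absurd h1.symm h2
  · exact absurd h2.symm h1
  · simp

theorem ep (v : Fin G.nV) (x : Fin G.nE) : F.e x * F.p v = if G.r x = v then F.e x else 0 := by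
  conv_lhs => rw [← F.er x]
  rw [mul_assoc, F.pp]
  split_ifs with h1
  · exact F.er x
  · simp

theorem pg (v : Fin G.nV) (x : Fin G.nE) : F.p v * F.g x = if G.r x = v then F.g x else 0 := by
  rw [← F.rg x, ← mul_assoc, F.pp]
  split_ifs with h1 h2 h2
  · rw [h1]
  · exact absurd h1.symm h2
  · exact absurd h2.symm h1
  · simp

theorem gp (v : Fin G.nV) (x : Fin G.nE) : F.g x * F.p v = if G.s x = v then F.g x else 0 := by
  conv_lhs => rw [← F.gs x]
  rw [mul_assoc, F.pp]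
  split_ifs with h1
  · exact F.gs x
  · simp

variable (K : Type*) [Field K] [Algebra K L]

/-- Span of the edges. -/
def X : Submodule K L := Submodule.span K (Set.range F.e)

/-- Span of the ghost edges. -/
def Xs : Submodule K L := Submodule.span K (Set.range F.g)

/-- Span of the vertices. -/
def P0 : Submodule K L := Submodule.span K (Set.range F.p)

theorem e_mem (x) : F.e x ∈ F.X K := Submodule.subset_span ⟨x, rfl⟩
theorem g_mem (x) : F.g x ∈ F.Xs K := Submodule.subset_span ⟨x, rfl⟩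
theorem p_mem (x) : F.p x ∈ F.P0 K := Submodule.subset_span ⟨x, rfl⟩

theorem one_mem_P0 : (1 : L) ∈ F.P0 K := by
  rw [← F.sum_p]
  exact Submodule.sum_mem _ fun v _ => F.p_mem K v

theorem one_le_P0 : 1 ≤ F.P0 K := by
  rw [Submodule.one_le]; exact F.one_mem_P0 K

theorem P0_mul_P0 : F.P0 K * F.P0 K = F.P0 K := by
  apply le_antisymm
  · unfold P0
    rw [Submodule.span_mul_span, Submodule.span_le]
    rintro _ ⟨_, ⟨v, rfl⟩, _, ⟨w, rfl⟩, rfl⟩
    simp only
    rw [F.pp]
    split_ifs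
    · exact F.p_mem K v
    · exact Submodule.zero_mem _
  · calc F.P0 K = 1 * F.P0 K := (one_mul _).symm
      _ ≤ _ := smL (F.one_le_P0 K)

theorem X_mul_P0 : F.X K * F.P0 K = F.X K := by
  apply le_antisymm
  · unfold P0 X
    rw [Submodule.span_mul_span, Submodule.span_le]
    rintro _ ⟨_, ⟨v, rfl⟩, _, ⟨w, rfl⟩, rfl⟩
    simp only
    rw [F.ep]
    split_ifs
    · exact F.e_mem K v
    · exact Submodule.zero_mem _
  · calc F.X K = F.X K * 1 := (mul_one _).symm
      _ ≤ _ := smR (F.one_le_P0 K)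

theorem P0_mul_X : F.P0 K * F.X K = F.X K := by
  apply le_antisymm
  · unfold P0 X
    rw [Submodule.span_mul_span, Submodule.span_le]
    rintro _ ⟨_, ⟨v, rfl⟩, _, ⟨w, rfl⟩, rfl⟩
    simp only
    rw [F.pe]
    split_ifs
    · exact F.e_mem K w
    · exact Submodule.zero_mem _
  · calc F.X K = 1 * F.X K := (one_mul _).symm
      _ ≤ _ := smL (F.one_le_P0 K)

theorem Xs_mul_P0 : F.Xs K * F.P0 K = F.Xs K := by
  apply le_antisymm
  · unfold P0 Xs
    rw [Submodule.span_mul_span, Submodule.span_le]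
    rintro _ ⟨_, ⟨v, rfl⟩, _, ⟨w, rfl⟩, rfl⟩
    simp only
    rw [F.gp]
    split_ifs
    · exact F.g_mem K v
    · exact Submodule.zero_mem _
  · calc F.Xs K = F.Xs K * 1 := (mul_one _).symm
      _ ≤ _ := smR (F.one_le_P0 K)

theorem P0_mul_Xs : F.P0 K * F.Xs K = F.Xs K := by
  apply le_antisymm
  · unfold P0 Xs
    rw [Submodule.span_mul_span, Submodule.span_le]
    rintro _ ⟨_, ⟨v, rfl⟩, _, ⟨w, rfl⟩, rfl⟩
    simp only
    rw [F.pg]
    split_ifs
    · exact F.g_mem K w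
    · exact Submodule.zero_mem _
  · calc F.Xs K = 1 * F.Xs K := (one_mul _).symm
      _ ≤ _ := smL (F.one_le_P0 K)

theorem Xs_mul_X_le : F.Xs K * F.X K ≤ F.P0 K := by
  unfold Xs X
  rw [Submodule.span_mul_span, Submodule.span_le]
  rintro _ ⟨_, ⟨v, rfl⟩, _, ⟨w, rfl⟩, rfl⟩
  simp only
  rw [F.ge]
  split_ifs
  · exact F.p_mem K _
  · exact Submodule.zero_mem _

theorem P0_le_Xs_mul_X (h : G.NoSource) : F.P0 K ≤ F.Xs K * F.X K := by
  unfold P0
  rw [Submodule.span_le]
  rintro _ ⟨v, rfl⟩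
  obtain ⟨x, rfl⟩ := h v
  rw [← F.ge_self]
  exact Submodule.mul_mem_mul (F.g_mem K x) (F.e_mem K x)

theorem P0_le_X_mul_Xs (h : G.NoSink) : F.P0 K ≤ F.X K * F.Xs K := by
  unfold P0
  rw [Submodule.span_le]
  rintro _ ⟨v, rfl⟩
  rw [F.ck2 v (h v)]
  exact Submodule.sum_mem _ fun x _ => Submodule.mul_mem_mul (F.e_mem K x) (F.g_mem K x)

/-- Span of the elements `α β*` with `|α| = a`, `|β| = b`. -/
def M (a b : ℕ) : Submodule K L := F.X K ^ a * F.P0 K * F.Xs K ^ b

/-- Span of the elements `α β*` with `|α| = |β| = k`. -/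
def lv (k : ℕ) : Submodule K L := F.M K k k

theorem M_zero : F.M K 0 0 = F.P0 K := by simp [M]

theorem lv_zero : F.lv K 0 = F.P0 K := F.M_zero K

theorem M_succ (a b : ℕ) : F.M K (a + 1) (b + 1) = F.X K * F.M K a b * F.Xs K := by
  unfold M
  rw [pow_succ', pow_succ]
  simp only [mul_assoc]

theorem lv_succ (k : ℕ) : F.lv K (k + 1) = F.X K * F.lv K k * F.Xs K := F.M_succ K k k

theorem M_le_succ (h : G.NoSink) (a b : ℕ) : F.M K a b ≤ F.M K (a + 1) (b + 1) := by
  unfold M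
  have h1 : F.P0 K ≤ F.X K * F.P0 K * F.Xs K := by
    rw [F.X_mul_P0]; exact F.P0_le_X_mul_Xs K h
  calc F.X K ^ a * F.P0 K * F.Xs K ^ b
      ≤ F.X K ^ a * (F.X K * F.P0 K * F.Xs K) * F.Xs K ^ b :=
        smL (smR h1)
    _ = _ := by rw [pow_succ, pow_succ']; simp only [mul_assoc]

theorem M_le_add (h : G.NoSink) (a b c : ℕ) : F.M K a b ≤ F.M K (a + c) (b + c) := by
  induction c with
  | zero => simp
  | succ c ih => exact ih.trans (F.M_le_succ K h _ _)

theorem lv_mono (h : G.NoSink) {k l : ℕ} (hkl : k ≤ l) : F.lv K k ≤ F.lv K l := by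
  obtain ⟨c, rfl⟩ := Nat.exists_eq_add_of_le hkl
  exact F.M_le_add K h k k c

theorem Xs_P0_X_le (k : ℕ) : F.Xs K ^ k * F.P0 K * F.X K ^ k ≤ F.P0 K := by
  induction k with
  | zero => simp
  | succ k ih =>
    calc F.Xs K ^ (k + 1) * F.P0 K * F.X K ^ (k + 1)
        = F.Xs K ^ k * (F.Xs K * F.P0 K * F.X K) * F.X K ^ k := by
          rw [pow_succ, pow_succ']; simp only [mul_assoc]
      _ ≤ F.Xs K ^ k * F.P0 K * F.X K ^ k := by
          rw [F.Xs_mul_P0]
          exact smL (smR (F.Xs_mul_X_le K))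
      _ ≤ _ := ih

theorem Xs_X_le (k : ℕ) : F.Xs K ^ k * F.X K ^ k ≤ F.P0 K := by
  refine le_trans ?_ (F.Xs_P0_X_le K k)
  calc F.Xs K ^ k * F.X K ^ k = F.Xs K ^ k * 1 * F.X K ^ k := by rw [mul_one]
    _ ≤ _ := smL (smR (F.one_le_P0 K))

/-- Product of two spans with matching inner length. -/
theorem M_mul_M_le (a b c : ℕ) : F.M K a b * F.M K b c ≤ F.M K a c := by
  unfold M
  calc F.X K ^ a * F.P0 K * F.Xs K ^ b * (F.X K ^ b * F.P0 K * F.Xs K ^ c)
      = F.X K ^ a * (F.P0 K * (F.Xs K ^ b * F.X K ^ b) * F.P0 K) * F.Xs K ^ c := by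
        simp only [mul_assoc]
    _ ≤ F.X K ^ a * (F.P0 K * F.P0 K * F.P0 K) * F.Xs K ^ c :=
        smL (smR
          (smL (smR (F.Xs_X_le K b))))
    _ = _ := by rw [F.P0_mul_P0, F.P0_mul_P0]

theorem M_mul_M_le' (h : G.NoSink) (a b c d : ℕ) :
    F.M K a b * F.M K c d ≤ F.M K (a + c) (b + d) := by
  calc F.M K a b * F.M K c d ≤ F.M K (a + c) (b + c) * F.M K (c + b) (d + b) :=
        mul_le_mul' (F.M_le_add K h a b c) (F.M_le_add K h c d b)
    _ ≤ F.M K (a + c) (d + b) := by rw [add_comm c b]; exact F.M_mul_M_le K _ _ _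
    _ = _ := by rw [add_comm d b]

theorem lv_mul_lv_le (k : ℕ) : F.lv K k * F.lv K k ≤ F.lv K k := F.M_mul_M_le K k k k

theorem one_mem_lv (h : G.NoSink) (k : ℕ) : (1 : L) ∈ F.lv K k := by
  have := F.lv_mono K h (Nat.zero_le k)
  rw [lv_zero] at this
  exact this (F.one_mem_P0 K)

theorem P0_le_lv (h : G.NoSink) (k : ℕ) : F.P0 K ≤ F.lv K k := by
  have := F.lv_mono K h (Nat.zero_le k)
  rwa [lv_zero] at this

/-- `lv k` as a subalgebra. -/
def lvAlg (h : G.NoSink) (k : ℕ) : Subalgebra K L :=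
  (F.lv K k).toSubalgebra (F.one_mem_lv K h k)
    (fun _ _ hx hy => F.lv_mul_lv_le K k (Submodule.mul_mem_mul hx hy))

theorem mem_lvAlg (h : G.NoSink) (k : ℕ) {x : L} : x ∈ F.lvAlg K h k ↔ x ∈ F.lv K k := Iff.rfl

theorem X_fg : (F.X K).FG := Submodule.fg_span (Set.finite_range _)
theorem Xs_fg : (F.Xs K).FG := Submodule.fg_span (Set.finite_range _)
theorem P0_fg : (F.P0 K).FG := Submodule.fg_span (Set.finite_range _)

theorem M_fg (a b : ℕ) : (F.M K a b).FG :=
  (((F.X_fg K).pow a).mul (F.P0_fg K)).mul ((F.Xs_fg K).pow b)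

end CKFamily

end Pool.Agent.GCC
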