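import Pool.Agent.GCC.Defs

/-!
# Basic API of Leavitt path algebras: generators, lifting, grading
-/

open MulOpposite DirectSum

namespace Pool.Agent.GCC

universe u

/-- A Cuntz-Krieger family for the finite graph `G` in a unital `K`-algebra `L`. -/
structure CKFamily (G : FinGraph) (L : Type*) [Ring L] where
  /-- vertices -/
  p : Fin G.nV → L
  /-- edges -/
  e : Fin G.nE → L
  /-- ghost edges -/
  g : Fin G.nE → L
  pp_self : ∀ v, p v * p v = p v
  pp_ne : ∀ v w, v ≠ w → p v * p w = 0
  sum_p : ∑ v, p v = 1
  se : ∀ x, p (G.s x) * e x = e x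
  er : ∀ x, e x * p (G.r x) = e x
  rg : ∀ x, p (G.r x) * g x = g x
  gs : ∀ x, g x * p (G.s x) = g x
  ge_self : ∀ x, g x * e x = p (G.r x)
  ge_ne : ∀ x y, x ≠ y → g x * e y = 0
  ck2 : ∀ v, (∃ x, G.s x = v) → p v = ∑ x ∈ Finset.univ.filter (fun x => G.s x = v), e x * g x

namespace LPA

variable (K : Type u) [Field K] (G : FinGraph)

theorem rel_eq {a b : FreeAlgebra K (Gen G)} (h : Rel K G a b) :
    (RingQuot.mkAlgHom K (Rel K G) a : LPA K G) = RingQuot.mkAlgHom K (Rel K G) b :=
  RingQuot.mkAlgHom_rel K h

/-- The canonical family in the Leavitt path algebra. -/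
noncomputable def family : CKFamily G (LPA K G) where
  p v := gen K G (.v v)
  e x := gen K G (.e x)
  g x := gen K G (.g x)
  pp_self v := by
    have := rel_eq K G (Rel.vv_self v)
    rw [map_mul] at this
    exact this
  pp_ne v w h := by
    have := rel_eq K G (Rel.vv_ne v w h)
    rw [map_mul, map_zero] at this
    exact this
  sum_p := by
    have := rel_eq K G (Rel.sum_v)
    rw [map_sum, map_one] at this
    exact this
  se x := by
    have := rel_eq K G (Rel.se x)
    rw [map_mul] at this
    exact this
  er x := by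
    have := rel_eq K G (Rel.er x)
    rw [map_mul] at this
    exact this
  rg x := by
    have := rel_eq K G (Rel.rg x)
    rw [map_mul] at this
    exact this
  gs x := by
    have := rel_eq K G (Rel.gs x)
    rw [map_mul] at this
    exact this
  ge_self x := by
    have := rel_eq K G (Rel.ge_self x)
    rw [map_mul] at this
    exact this
  ge_ne x y h := by
    have := rel_eq K G (Rel.ge_ne x y h)
    rw [map_mul, map_zero] at this
    exact this
  ck2 v h := by
    have := rel_eq K G (Rel.ck2 v h)
    rw [map_sum] at this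
    simp only [map_mul] at this
    exact this

variable {K G}

/-- Universal property of the Leavitt path algebra. -/
noncomputable def lift {L : Type*} [Ring L] [Algebra K L] (F : CKFamily G L) :
    LPA K G →ₐ[K] L :=
  RingQuot.liftAlgHom K ⟨FreeAlgebra.lift K (fun x : Gen G => match x with
    | .v v => F.p v
    | .e x => F.e x
    | .g x => F.g x), by
    intro a b h
    cases h with
    | vv_self x => simp [F.pp_self]
    | vv_ne x y h => simp [F.pp_ne x y h]
    | sum_v => simp [F.sum_p]
    | se x => simp [F.se]
    | er x => simp [F.er]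
    | rg x => simp [F.rg]
    | gs x => simp [F.gs]
    | ge_self x => simp [F.ge_self]
    | ge_ne x y h => simp [F.ge_ne x y h]
    | ck2 x h => simp [F.ck2 x h]⟩

theorem lift_gen {L : Type*} [Ring L] [Algebra K L] (F : CKFamily G L) (x : Gen G) :
    lift F (gen K G x) = (match x with
    | .v v => F.p v
    | .e x => F.e x
    | .g x => F.g x) := by
  unfold lift gen
  erw [RingQuot.liftAlgHom_mkAlgHom_apply]
  rw [FreeAlgebra.lift_ι_apply]

@[simp] theorem lift_p {L : Type*} [Ring L] [Algebra K L] (F : CKFamily G L) (v) :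
    lift F ((family K G).p v) = F.p v := lift_gen F (.v v)

@[simp] theorem lift_e {L : Type*} [Ring L] [Algebra K L] (F : CKFamily G L) (v) :
    lift F ((family K G).e v) = F.e v := lift_gen F (.e v)

@[simp] theorem lift_g {L : Type*} [Ring L] [Algebra K L] (F : CKFamily G L) (v) :
    lift F ((family K G).g v) = F.g v := lift_gen F (.g v)

/-- The generators generate. -/
theorem adjoin_gen : Algebra.adjoin K (Set.range (gen K G)) = ⊤ := by
  have h := FreeAlgebra.adjoin_range_ι K (Gen G)
  have h2 := congrArg (Subalgebra.map (RingQuot.mkAlgHom K (Rel K G))) h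
  rw [AlgHom.map_adjoin, Algebra.map_top] at h2
  have hs : (RingQuot.mkAlgHom K (Rel K G)).range = ⊤ := by
    rw [AlgHom.range_eq_top]
    exact RingQuot.mkAlgHom_surjective K (Rel K G)
  rw [hs] at h2
  rw [← Set.range_comp] at h2
  exact h2

theorem algHom_ext {L : Type*} [Ring L] [Algebra K L] {f g : LPA K G →ₐ[K] L}
    (h : ∀ x, f (gen K G x) = g (gen K G x)) : f = g := by
  apply AlgHom.ext_of_adjoin_eq_top adjoin_gen
  rintro _ ⟨x, rfl⟩
  exact h x

theorem gen_mem_gr (x : Gen G) : gen K G x ∈ gr K G x.deg :=
  Submodule.subset_span ⟨[x], by simp, by simp⟩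

theorem one_mem_gr : (1 : LPA K G) ∈ gr K G 0 :=
  Submodule.subset_span ⟨[], by simp, by simp⟩

theorem mul_mem_gr {i j : ℤ} {a b : LPA K G} (ha : a ∈ gr K G i) (hb : b ∈ gr K G j) :
    a * b ∈ gr K G (i + j) := by
  have : gr K G i * gr K G j ≤ gr K G (i + j) := by
    unfold gr
    rw [Submodule.span_mul_span, Submodule.span_le]
    rintro _ ⟨_, ⟨w, hw, rfl⟩, _, ⟨w', hw', rfl⟩, rfl⟩
    refine Submodule.subset_span ⟨w ++ w', ?_, ?_⟩
    · simp [hw, hw']
    · simp
  exact this (Submodule.mul_mem_mul ha hb)

/-- The coaction family in the Laurent algebra over `L_K(G)`. -/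
noncomputable def coFamily (K : Type u) [Field K] (G : FinGraph) :
    CKFamily G (AddMonoidAlgebra (LPA K G) ℤ) where
  p v := AddMonoidAlgebra.single 0 ((family K G).p v)
  e x := AddMonoidAlgebra.single 1 ((family K G).e x)
  g x := AddMonoidAlgebra.single (-1) ((family K G).g x)
  pp_self v := by rw [AddMonoidAlgebra.single_mul_single, (family K G).pp_self, add_zero]
  pp_ne v w h := by rw [AddMonoidAlgebra.single_mul_single, (family K G).pp_ne v w h]; simp
  sum_p := by
    have h := map_sum (AddMonoidAlgebra.singleAddHom (R := LPA K G) (0 : ℤ)) (family K G).p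
      Finset.univ
    rw [(family K G).sum_p] at h
    exact h.symm
  se x := by rw [AddMonoidAlgebra.single_mul_single, (family K G).se, zero_add]
  er x := by rw [AddMonoidAlgebra.single_mul_single, (family K G).er, add_zero]
  rg x := by rw [AddMonoidAlgebra.single_mul_single, (family K G).rg, zero_add]
  gs x := by rw [AddMonoidAlgebra.single_mul_single, (family K G).gs, add_zero]
  ge_self x := by rw [AddMonoidAlgebra.single_mul_single, (family K G).ge_self]; simp
  ge_ne x y h := by rw [AddMonoidAlgebra.single_mul_single, (family K G).ge_ne x y h]; simp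
  ck2 v h := by
    simp only [AddMonoidAlgebra.single_mul_single]
    rw [(family K G).ck2 v h]
    simp

/-- The coaction homomorphism. -/
noncomputable def co (K : Type u) [Field K] (G : FinGraph) :
    LPA K G →ₐ[K] AddMonoidAlgebra (LPA K G) ℤ := lift (coFamily K G)

theorem co_gen (x : Gen G) : co K G (gen K G x) = AddMonoidAlgebra.single x.deg (gen K G x) := by
  unfold co
  rw [lift_gen]
  cases x <;> rfl

theorem co_word (w : List (Gen G)) : co K G ((w.map (gen K G)).prod) =
    AddMonoidAlgebra.single ((w.map Gen.deg).sum) ((w.map (gen K G)).prod) := by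
  induction w with
  | nil =>
    rw [List.map_nil, List.map_nil, List.prod_nil, List.sum_nil, map_one]
    rfl
  | cons x w ih =>
    simp only [List.map_cons, List.prod_cons, List.sum_cons, map_mul, ih, co_gen,
      AddMonoidAlgebra.single_mul_single]

theorem co_of_mem {n : ℤ} {x : LPA K G} (hx : x ∈ gr K G n) :
    co K G x = AddMonoidAlgebra.single n x := by
  induction hx using Submodule.span_induction with
  | mem x h =>
    obtain ⟨w, hw, rfl⟩ := h
    rw [co_word, hw]
  | zero => simp
  | add x y _ _ hx hy => rw [map_add, hx, hy, AddMonoidAlgebra.single_add]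
  | smul c x _ hx => rw [map_smul, hx, AddMonoidAlgebra.smul_single]

theorem iSup_gr : ⨆ n, gr K G n = ⊤ := by
  let S : Subalgebra K (LPA K G) :=
    { carrier := {x | x ∈ ⨆ n, gr K G n}
      mul_mem' := by
        intro a b ha hb
        have : (⨆ n, gr K G n) * (⨆ n, gr K G n) ≤ ⨆ n, gr K G n := by
          rw [Submodule.iSup_mul]
          refine iSup_le fun i => ?_
          rw [Submodule.mul_iSup]
          refine iSup_le fun j => ?_
          rw [Submodule.mul_le]
          intro x hx y hy
          exact Submodule.mem_iSup_of_mem (i + j) (mul_mem_gr hx hy)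
        exact this (Submodule.mul_mem_mul ha hb)
      add_mem' := fun {a b} ha hb => (⨆ n, gr K G n).add_mem ha hb
      algebraMap_mem' := by
        intro c
        rw [Algebra.algebraMap_eq_smul_one]
        exact Submodule.smul_mem _ _ (Submodule.mem_iSup_of_mem 0 one_mem_gr) }
  have hS : Algebra.adjoin K (Set.range (gen K G)) ≤ S := by
    rw [Algebra.adjoin_le_iff]
    rintro _ ⟨x, rfl⟩
    exact Submodule.mem_iSup_of_mem x.deg (gen_mem_gr x)
  rw [adjoin_gen] at hS
  rw [eq_top_iff]
  intro x _
  exact hS (Algebra.mem_top : x ∈ ⊤)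

theorem internal_gr : DirectSum.IsInternal (fun n => (gr K G n).toAddSubgroup) := by
  rw [isInternal_iff]
  constructor
  · intro m
    have hm : m ∈ ⨆ n, gr K G n := by rw [iSup_gr]; trivial
    rw [Submodule.mem_iSup_iff_exists_finsupp] at hm
    obtain ⟨f, hf, hs⟩ := hm
    exact ⟨f, fun i => hf i, hs⟩
  · intro f hf hs
    have h1 : co K G (f.sum fun _ x => x) = 0 := by rw [hs, map_zero]
    rw [Finsupp.sum, map_sum, Finset.sum_congr rfl (fun i _ => co_of_mem (hf i))] at h1
    ext n
    have h2 := congrArg (fun z : AddMonoidAlgebra (LPA K G) ℤ => z.coeff n) h1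
    simp only [AddMonoidAlgebra.coeff_sum, AddMonoidAlgebra.coeff_single,
      Finsupp.finsetSum_apply, Finsupp.single_apply, AddMonoidAlgebra.coeff_zero,
      Finsupp.coe_zero, Pi.zero_apply] at h2
    rw [Finset.sum_ite_eq' f.support n] at h2
    by_cases hn : n ∈ f.support
    · rw [if_pos hn] at h2
      exact h2
    · simpa using hn

/-- The Leavitt path algebra as a graded ring. -/
noncomputable def grRing (K : Type u) [Field K] (G : FinGraph) : GrRing.{u} where
  A := LPA K G
  gr n := (gr K G n).toAddSubgroup
  one_mem := one_mem_gr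
  mul_mem _ _ _ _ ha hb := mul_mem_gr ha hb
  internal := internal_gr

end LPA

/-- The existence of a graded isomorphism of Leavitt path algebras. -/
def GradedIso (K : Type u) [Field K] (G H : FinGraph) : Prop :=
  ∃ f : LPA K G ≃ₐ[K] LPA K H, ∀ (n : ℤ) (x : LPA K G), x ∈ LPA.gr K G n ↔ f x ∈ LPA.gr K H n

end Pool.Agent.GCC
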