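import Pool.Agent.GCC.Family

/-!
# The two graphs of the counterexample
-/

namespace Pool.Agent.GCC

/-- The graph `E`: vertices `0,1,2,3`, edges `0→1, 1→2, 2→0, 2→3, 3→0`. -/
def graphE : FinGraph where
  nV := 4
  nE := 5
  s := ![0, 1, 2, 2, 3]
  r := ![1, 2, 0, 3, 0]

/-- The graph `F`: vertices `a,b,c,p,q,x,y,z` numbered `0,…,7`, edges
`a→p, b→p, c→q, p→x, q→y, x→a, x→z, y→b, y→z, z→c`. -/
def graphF : FinGraph where
  nV := 8
  nE := 10
  s := ![0, 1, 2, 3, 4, 5, 5, 6, 6, 7]
  r := ![3, 3, 4, 5, 6, 0, 7, 1, 7, 2]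

theorem graphE_noSink : graphE.NoSink := by
  unfold FinGraph.NoSink graphE; decide

theorem graphE_noSource : graphE.NoSource := by
  unfold FinGraph.NoSource graphE; decide

theorem graphF_noSink : graphF.NoSink := by
  unfold FinGraph.NoSink graphF; decide

theorem graphF_noSource : graphF.NoSource := by
  unfold FinGraph.NoSource graphF; decide

end Pool.Agent.GCC
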