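import Pool.Agent.GCC.K0val
import Pool.Agent.GCC.Graphs

/-!
# The pointed order isomorphism of the graded Grothendieck groups of `L(E)` and `L(F)`
-/

open MulOpposite DirectSum

namespace Pool.Agent.GCC

universe u

/-- The lattice `ℤ[x]/(x^4-x-1)` in the basis `1, x, x^2, x^3`. -/
abbrev Lam : Type := Fin 4 → ℤ

/-- Multiplication by `x`. -/
def lamX : Lam ≃ₗ[ℤ] Lam where
  toFun z := ![z 3, z 0 + z 3, z 1, z 2]
  invFun z := ![z 1 - z 0, z 2, z 3, z 0]
  map_add' x y := by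
    funext i
    fin_cases i <;> simp <;> ring
  map_smul' c x := by
    funext i
    fin_cases i <;> simp <;> ring
  left_inv z := by
    funext i
    fin_cases i <;> simp
  right_inv z := by
    funext i
    fin_cases i <;> simp

theorem lamX_apply (z : Lam) : lamX z = ![z 3, z 0 + z 3, z 1, z 2] := rfl

theorem lamX_inv_apply (z : Lam) : lamX⁻¹ z = ![z 1 - z 0, z 2, z 3, z 0] := rfl

theorem lamX_0 (z : Lam) : lamX z 0 = z 3 := rfl
theorem lamX_1 (z : Lam) : lamX z 1 = z 0 + z 3 := rfl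
theorem lamX_2 (z : Lam) : lamX z 2 = z 1 := rfl
theorem lamX_3 (z : Lam) : lamX z 3 = z 2 := rfl

theorem lam_ext {x y : Lam} (h0 : x 0 = y 0) (h1 : x 1 = y 1) (h2 : x 2 = y 2)
    (h3 : x 3 = y 3) : x = y := by
  funext i
  fin_cases i
  · exact h0
  · exact h1
  · exact h2
  · exact h3

/-- `1`. -/
def e0 : Lam := ![1, 0, 0, 0]

/-- The cone. -/
def lamC : AddSubmonoid Lam := AddSubmonoid.closure {z | ∃ i : ℤ, z = (lamX ^ i : Lam ≃ₗ[ℤ] Lam) e0}

theorem mem_lamC (i : ℤ) : (lamX ^ i : Lam ≃ₗ[ℤ] Lam) e0 ∈ lamC :=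
  AddSubmonoid.subset_closure ⟨i, rfl⟩

theorem zpow_mem_lamC (i : ℤ) {z : Lam} (hz : z ∈ lamC) : (lamX ^ i : Lam ≃ₗ[ℤ] Lam) z ∈ lamC := by
  induction hz using AddSubmonoid.closure_induction with
  | mem x hx =>
    obtain ⟨j, rfl⟩ := hx
    rw [← LinearEquiv.mul_apply, ← zpow_add]
    exact mem_lamC _
  | zero => rw [map_zero]; exact lamC.zero_mem
  | add x y _ _ hx hy => rw [map_add]; exact lamC.add_mem hx hy

/-- Multiplication by `β = x^3+x-1 = x⁻³+x⁻²+x⁻¹`, with inverse multiplication by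
`x^2-1 = x⁻¹⁵+x⁻¹³+4x⁻¹²`. -/
def lamB : Lam ≃ₗ[ℤ] Lam where
  toFun z := lamX (lamX (lamX z)) + lamX z - z
  invFun z := lamX (lamX z) - z
  map_add' x y := by
    simp only [map_add]; abel
  map_smul' c x := by
    simp only [map_smul, RingHom.id_apply, smul_sub, smul_add]
  left_inv z := by
    apply lam_ext <;>
    simp only [Pi.add_apply, Pi.sub_apply, lamX_0, lamX_1, lamX_2, lamX_3] <;> ring
  right_inv z := by
    apply lam_ext <;>
    simp only [Pi.add_apply, Pi.sub_apply, lamX_0, lamX_1, lamX_2, lamX_3] <;> ring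

theorem lamB_apply (z : Lam) : lamB z = lamX (lamX (lamX z)) + lamX z - z := rfl

theorem lamB_symm_apply (z : Lam) : lamB.symm z = lamX (lamX z) - z := rfl

theorem lamB_comm (z : Lam) : lamB (lamX z) = lamX (lamB z) := by
  simp only [lamB_apply, map_add, map_sub]

theorem lamB_pos (z : Lam) : lamB z = (lamX ^ (-3 : ℤ) : Lam ≃ₗ[ℤ] Lam)
    (z + lamX z + lamX (lamX z)) := by
  have h : (lamX ^ (3 : ℤ) : Lam ≃ₗ[ℤ] Lam) (lamB z) = z + lamX z + lamX (lamX z) := by
    change lamX (lamX (lamX (lamB z))) = _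
    rw [lamB_apply]
    apply lam_ext <;>
    simp only [Pi.add_apply, Pi.sub_apply, lamX_0, lamX_1, lamX_2, lamX_3] <;> ring
  rw [← h, ← LinearEquiv.mul_apply, ← zpow_add, neg_add_cancel, zpow_zero]
  rfl

theorem lamB_symm_pos (z : Lam) : lamB.symm z = (lamX ^ (-15 : ℤ) : Lam ≃ₗ[ℤ] Lam)
    (z + lamX (lamX z) + lamX (lamX (lamX z)) + lamX (lamX (lamX z)) + lamX (lamX (lamX z)) +
      lamX (lamX (lamX z))) := by
  have h : (lamX ^ (15 : ℤ) : Lam ≃ₗ[ℤ] Lam) (lamB.symm z) =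
      z + lamX (lamX z) + lamX (lamX (lamX z)) + lamX (lamX (lamX z)) + lamX (lamX (lamX z)) +
      lamX (lamX (lamX z)) := by
    change lamX (lamX (lamX (lamX (lamX (lamX (lamX (lamX (lamX (lamX (lamX (lamX (lamX (lamX (lamX
      (lamB.symm z))))))))))))))) = _
    rw [lamB_symm_apply]
    apply lam_ext <;>
    simp only [Pi.add_apply, Pi.sub_apply, lamX_0, lamX_1, lamX_2, lamX_3] <;> ring
  rw [← h, ← LinearEquiv.mul_apply, ← zpow_add, neg_add_cancel, zpow_zero]
  rfl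

theorem lamX_mem {z : Lam} (hz : z ∈ lamC) : lamX z ∈ lamC := by
  have := zpow_mem_lamC 1 hz
  rwa [zpow_one] at this

theorem lamB_mem {z : Lam} (hz : z ∈ lamC) : lamB z ∈ lamC := by
  rw [lamB_pos]
  exact zpow_mem_lamC _ (lamC.add_mem (lamC.add_mem hz (lamX_mem hz)) (lamX_mem (lamX_mem hz)))

theorem lamB_symm_mem {z : Lam} (hz : z ∈ lamC) : lamB.symm z ∈ lamC := by
  rw [lamB_symm_pos]
  have h3 := lamX_mem (lamX_mem (lamX_mem hz))
  exact zpow_mem_lamC _ (lamC.add_mem (lamC.add_mem (lamC.add_mem (lamC.add_mem (lamC.add_mem hz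
    (lamX_mem (lamX_mem hz))) h3) h3) h3) h3)

theorem lamB_mem_iff {z : Lam} : lamB z ∈ lamC ↔ z ∈ lamC := by
  refine ⟨fun h => ?_, lamB_mem⟩
  have := lamB_symm_mem h
  rwa [LinearEquiv.symm_apply_apply] at this

section General

variable {K : Type u} [Field K] {G : FinGraph}

/-- The section `Lam → K0`, `z ↦ ∑ z_i t^i P`. -/
noncomputable def lamSec {R : GrRing.{u}} (P : K0 R) : Lam →+ K0 R where
  toFun z := z 0 • P + z 1 • K0.shift P + z 2 • K0.shift (K0.shift P) +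
    z 3 • K0.shift (K0.shift (K0.shift P))
  map_zero' := by simp
  map_add' x y := by
    simp only [Pi.add_apply, add_smul]
    abel

theorem lamSec_apply {R : GrRing.{u}} (P : K0 R) (z : Lam) :
    lamSec P z = z 0 • P + z 1 • K0.shift P + z 2 • K0.shift (K0.shift P) +
    z 3 • K0.shift (K0.shift (K0.shift P)) := rfl

theorem lamSec_X {R : GrRing.{u}} (P : K0 R)
    (h : K0.shift (K0.shift (K0.shift (K0.shift P))) = K0.shift P + P) (z : Lam) :
    lamSec P (lamX z) = K0.shift (lamSec P z) := by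
  rw [lamSec_apply, lamSec_apply, lamX_apply]
  simp only [map_add, map_zsmul, h, smul_add, Matrix.cons_val_zero, Matrix.cons_val_one,
    Matrix.cons_val, add_smul]
  abel

/-- `K0` of the Leavitt path algebra is `Lam`, for graphs with the right vertex values. -/
theorem exists_K0equiv (hs : G.NoSink) (hex : ExistsList K G) (m : Fin G.nV → Lam)
    (hm : ∀ v, lamX (m v) = ∑ x ∈ Finset.univ.filter (fun x => G.s x = v), m (G.r x))
    (hmono : ∀ v, ∃ j : ℤ, m v = (lamX ^ j : Lam ≃ₗ[ℤ] Lam) e0)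
    (v0 : Fin G.nV) (hv0 : m v0 = e0)
    (h4 : K0.shift (K0.shift (K0.shift (K0.shift (K0.cls (LPA.Pv K G v0))))) =
      K0.shift (K0.cls (LPA.Pv K G v0)) + K0.cls (LPA.Pv K G v0))
    (hsec : ∀ v, lamSec (K0.cls (LPA.Pv K G v0)) (m v) = K0.cls (LPA.Pv K G v)) :
    ∃ φ : K0 (LPA.grRing K G) ≃+ Lam, (∀ z, φ (K0.shift z) = lamX (φ z)) ∧
      (∀ z, z ∈ K0.pos (LPA.grRing K G) ↔ φ z ∈ lamC) ∧
      φ (K0.unit (LPA.grRing K G)) = ∑ v, m v := by
  have hleft := K0val_left_inv (X := lamX) (m := m) hs hex hm (lamSec (K0.cls (LPA.Pv K G v0)))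
    (lamSec_X _ h4) hsec
  have hright : ∀ z : Lam, K0val lamX m hs hex hm (lamSec (K0.cls (LPA.Pv K G v0)) z) = z := by
    intro z
    rw [lamSec_apply]
    simp only [map_add, map_zsmul, K0val_shift, K0val_cls_Pv, hv0, e0, lamX_apply]
    funext i
    fin_cases i <;> simp
  let φ : K0 (LPA.grRing K G) ≃+ Lam :=
    { toFun := K0val lamX m hs hex hm
      invFun := lamSec (K0.cls (LPA.Pv K G v0))
      left_inv := hleft
      right_inv := hright
      map_add' := map_add _ }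
  have hcone : ∀ z : Lam, z ∈ lamC ↔ ∃ l, lval G lamX m l = z := by
    intro z
    constructor
    · intro hz
      induction hz using AddSubmonoid.closure_induction with
      | mem x hx =>
        obtain ⟨j, rfl⟩ := hx
        refine ⟨[(v0, j)], ?_⟩
        unfold lval
        rw [List.map_singleton, List.sum_singleton, hv0]
      | zero => exact ⟨[], rfl⟩
      | add x y _ _ hx hy =>
        obtain ⟨l, rfl⟩ := hx
        obtain ⟨l', rfl⟩ := hy
        exact ⟨l ++ l', lval_append _ _ _ _ _⟩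
    · rintro ⟨l, rfl⟩
      unfold lval
      apply AddSubmonoid.list_sum_mem
      intro x hx
      obtain ⟨q, _, rfl⟩ := List.mem_map.mp hx
      obtain ⟨j, hj⟩ := hmono q.1
      rw [hj, ← LinearEquiv.mul_apply, ← zpow_add]
      exact mem_lamC _
  refine ⟨φ, K0val_shift hs hex hm, ?_, K0val_unit hs hex hm⟩
  intro z
  rw [hcone]
  constructor
  · intro hz
    exact (K0val_pos hs hex hm (φ z)).mp ⟨z, hz, rfl⟩
  · intro hz
    obtain ⟨z', hz', h⟩ := (K0val_pos hs hex hm (φ z)).mpr hz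
    have : z' = z := φ.injective h
    rw [← this]
    exact hz'

theorem K0_shift_cls_Pv (v : Fin G.nV) (hv : ∃ x, G.s x = v) :
    K0.shift (K0.cls (LPA.Pv K G v)) =
      ∑ x ∈ Finset.univ.filter (fun x => G.s x = v), K0.cls (LPA.Pv K G (G.r x)) := by
  unfold K0.cls
  rw [K0.shift_of, LPA.shift_Pv K G v hv, map_sum]

end General

/-- Vertex values for `E`. -/
def mE : Fin graphE.nV → Lam := ![![1, 0, 0, 0], ![0, 1, 0, 0], ![0, 0, 1, 0], ![-1, 0, 0, 1]]

/-- Vertex values for `F`. -/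
def mF : Fin graphF.nV → Lam :=
  ![![1, 0, 0, 0], ![1, 0, 0, 0], ![1, 0, 0, 0], ![0, 1, 0, 0], ![0, 1, 0, 0], ![0, 0, 1, 0],
    ![0, 0, 1, 0], ![-1, 0, 0, 1]]

theorem hmE : ∀ v, lamX (mE v) =
    ∑ x ∈ Finset.univ.filter (fun x => graphE.s x = v), mE (graphE.r x) := by
  decide

theorem hmF : ∀ v, lamX (mF v) =
    ∑ x ∈ Finset.univ.filter (fun x => graphF.s x = v), mF (graphF.r x) := by
  decide

theorem e0_eq_zpow : e0 = (lamX ^ (0 : ℤ) : Lam ≃ₗ[ℤ] Lam) e0 := by
  rw [zpow_zero]; rfl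

theorem hmonoE : ∀ v, ∃ j : ℤ, mE v = (lamX ^ j : Lam ≃ₗ[ℤ] Lam) e0 := by
  intro (v : Fin 4)
  fin_cases v
  · exact ⟨0, rfl⟩
  · exact ⟨1, by decide⟩
  · exact ⟨2, by decide⟩
  · exact ⟨-1, by decide⟩

theorem hmonoF : ∀ v, ∃ j : ℤ, mF v = (lamX ^ j : Lam ≃ₗ[ℤ] Lam) e0 := by
  intro (v : Fin 8)
  fin_cases v
  · exact ⟨0, rfl⟩
  · exact ⟨0, rfl⟩
  · exact ⟨0, rfl⟩
  · exact ⟨1, by decide⟩
  · exact ⟨1, by decide⟩
  · exact ⟨2, by decide⟩
  · exact ⟨2, by decide⟩
  · exact ⟨-1, by decide⟩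

variable (K : Type u) [Field K]

/-- Vertices and edges of the two graphs. -/
def vE (i : Fin 4) : Fin graphE.nV := i
/-- Edges of `E`. -/
def eE (i : Fin 5) : Fin graphE.nE := i
/-- Vertices of `F`. -/
def vF (i : Fin 8) : Fin graphF.nV := i
/-- Edges of `F`. -/
def eF (i : Fin 10) : Fin graphF.nE := i

/-- Classes for `E`. -/
noncomputable def cE (v : Fin 4) : K0 (LPA.grRing K graphE) := K0.cls (LPA.Pv K graphE (vE v))

/-- Classes for `F`. -/
noncomputable def cF (v : Fin 8) : K0 (LPA.grRing K graphF) := K0.cls (LPA.Pv K graphF (vF v))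

theorem shift_single (G : FinGraph) (v w : Fin G.nV) (x : Fin G.nE)
    (h : Finset.univ.filter (fun x => G.s x = v) = {x}) (hr : G.r x = w) (hs : G.s x = v) :
    K0.shift (K0.cls (LPA.Pv K G v)) = K0.cls (LPA.Pv K G w) := by
  rw [K0_shift_cls_Pv v ⟨x, hs⟩, h, Finset.sum_singleton, hr]

theorem shift_pair (G : FinGraph) (v w w' : Fin G.nV) (x y : Fin G.nE) (hxy : x ≠ y)
    (h : Finset.univ.filter (fun x => G.s x = v) = {x, y}) (hr : G.r x = w) (hr' : G.r y = w')
    (hs : G.s x = v) :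
    K0.shift (K0.cls (LPA.Pv K G v)) = K0.cls (LPA.Pv K G w) + K0.cls (LPA.Pv K G w') := by
  rw [K0_shift_cls_Pv v ⟨x, hs⟩, h, Finset.sum_pair hxy, hr, hr']

theorem exists_K0equivE (hex : ExistsList K graphE) :
    ∃ φ : K0 (LPA.grRing K graphE) ≃+ Lam, (∀ z, φ (K0.shift z) = lamX (φ z)) ∧
      (∀ z, z ∈ K0.pos (LPA.grRing K graphE) ↔ φ z ∈ lamC) ∧
      φ (K0.unit (LPA.grRing K graphE)) = ∑ v, mE v := by
  have r0 : K0.shift (cE K 0) = cE K 1 :=
    shift_single K graphE (vE 0) (vE 1) (eE 0) (by decide) (by decide) (by decide)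
  have r1 : K0.shift (cE K 1) = cE K 2 :=
    shift_single K graphE (vE 1) (vE 2) (eE 1) (by decide) (by decide) (by decide)
  have r2 : K0.shift (cE K 2) = cE K 0 + cE K 3 :=
    shift_pair K graphE (vE 2) (vE 0) (vE 3) (eE 2) (eE 3) (by decide) (by decide) (by decide)
      (by decide) (by decide)
  have r3 : K0.shift (cE K 3) = cE K 0 :=
    shift_single K graphE (vE 3) (vE 0) (eE 4) (by decide) (by decide) (by decide)
  have h4 : K0.shift (K0.shift (K0.shift (K0.shift (cE K 0)))) = K0.shift (cE K 0) + cE K 0 := by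
    rw [r0, r1, r2, map_add, r3, r0]
  have hs : ∀ z : Lam, lamSec (cE K 0) z =
      z 0 • cE K 0 + z 1 • cE K 1 + z 2 • cE K 2 + z 3 • (cE K 0 + cE K 3) := by
    intro z
    rw [lamSec_apply, r0, r1, r2]
  have h0 : lamSec (cE K 0) (mE (vE 0)) = cE K 0 := by
    rw [hs]; simp [mE, vE]
  have h1 : lamSec (cE K 0) (mE (vE 1)) = cE K 1 := by
    rw [hs]; simp [mE, vE]
  have h2 : lamSec (cE K 0) (mE (vE 2)) = cE K 2 := by
    rw [hs]; simp [mE, vE]
  have h3 : lamSec (cE K 0) (mE (vE 3)) = cE K 3 := by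
    rw [hs]; simp [mE, vE]
  refine exists_K0equiv graphE_noSink hex mE hmE hmonoE (vE 0) rfl h4 ?_
  intro (v : Fin 4)
  fin_cases v
  · exact h0
  · exact h1
  · exact h2
  · exact h3

theorem exists_K0equivF (hex : ExistsList K graphF) :
    ∃ φ : K0 (LPA.grRing K graphF) ≃+ Lam, (∀ z, φ (K0.shift z) = lamX (φ z)) ∧
      (∀ z, z ∈ K0.pos (LPA.grRing K graphF) ↔ φ z ∈ lamC) ∧
      φ (K0.unit (LPA.grRing K graphF)) = ∑ v, mF v := by
  have r0 : K0.shift (cF K 0) = cF K 3 :=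
    shift_single K graphF (vF 0) (vF 3) (eF 0) (by decide) (by decide) (by decide)
  have r1 : K0.shift (cF K 1) = cF K 3 :=
    shift_single K graphF (vF 1) (vF 3) (eF 1) (by decide) (by decide) (by decide)
  have r2 : K0.shift (cF K 2) = cF K 4 :=
    shift_single K graphF (vF 2) (vF 4) (eF 2) (by decide) (by decide) (by decide)
  have r3 : K0.shift (cF K 3) = cF K 5 :=
    shift_single K graphF (vF 3) (vF 5) (eF 3) (by decide) (by decide) (by decide)
  have r4 : K0.shift (cF K 4) = cF K 6 :=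
    shift_single K graphF (vF 4) (vF 6) (eF 4) (by decide) (by decide) (by decide)
  have r5 : K0.shift (cF K 5) = cF K 0 + cF K 7 :=
    shift_pair K graphF (vF 5) (vF 0) (vF 7) (eF 5) (eF 6) (by decide) (by decide) (by decide)
      (by decide) (by decide)
  have r6 : K0.shift (cF K 6) = cF K 1 + cF K 7 :=
    shift_pair K graphF (vF 6) (vF 1) (vF 7) (eF 7) (eF 8) (by decide) (by decide) (by decide)
      (by decide) (by decide)
  have r7 : K0.shift (cF K 7) = cF K 2 :=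
    shift_single K graphF (vF 7) (vF 2) (eF 9) (by decide) (by decide) (by decide)
  have e1 : cF K 1 = cF K 0 := K0.shift_injective (by rw [r0, r1])
  have e2 : cF K 2 = cF K 0 := by
    apply K0.shift_injective
    apply K0.shift_injective
    apply K0.shift_injective
    rw [r0, r2, r3, r4, r5, r6, e1]
  have e4 : cF K 4 = cF K 3 := by rw [← r2, e2, r0]
  have e6 : cF K 6 = cF K 5 := by rw [← r4, e4, r3]
  have h4 : K0.shift (K0.shift (K0.shift (K0.shift (cF K 0)))) = K0.shift (cF K 0) + cF K 0 := by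
    rw [r0, r3, r5, map_add, r7, r0, e2]
  have hs : ∀ z : Lam, lamSec (cF K 0) z =
      z 0 • cF K 0 + z 1 • cF K 3 + z 2 • cF K 5 + z 3 • (cF K 0 + cF K 7) := by
    intro z
    rw [lamSec_apply, r0, r3, r5]
  have h0 : lamSec (cF K 0) (mF (vF 0)) = cF K 0 := by
    rw [hs]; simp [mF, vF]
  have h1 : lamSec (cF K 0) (mF (vF 1)) = cF K 1 := by
    rw [hs, e1]; simp [mF, vF]
  have h2 : lamSec (cF K 0) (mF (vF 2)) = cF K 2 := by
    rw [hs, e2]; simp [mF, vF]
  have h3 : lamSec (cF K 0) (mF (vF 3)) = cF K 3 := by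
    rw [hs]; simp [mF, vF]
  have h4' : lamSec (cF K 0) (mF (vF 4)) = cF K 4 := by
    rw [hs, e4]; simp [mF, vF]
  have h5 : lamSec (cF K 0) (mF (vF 5)) = cF K 5 := by
    rw [hs]; simp [mF, vF]
  have h6 : lamSec (cF K 0) (mF (vF 6)) = cF K 6 := by
    rw [hs, e6]; simp [mF, vF]
  have h7 : lamSec (cF K 0) (mF (vF 7)) = cF K 7 := by
    rw [hs]; simp [mF, vF]
  refine exists_K0equiv graphF_noSink hex mF hmF hmonoF (vF 0) rfl h4 ?_
  intro (v : Fin 8)
  fin_cases v
  · exact h0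
  · exact h1
  · exact h2
  · exact h3
  · exact h4'
  · exact h5
  · exact h6
  · exact h7

/-- Condition (i) for the pair `E`, `F`, over every field (given the description of the
projectives). -/
theorem K0Iso_EF (hexE : ExistsList K graphE) (hexF : ExistsList K graphF) :
    K0Iso (LPA.grRing K graphE) (LPA.grRing K graphF) := by
  obtain ⟨φ, hφ1, hφ2, hφ3⟩ := exists_K0equivE K hexE
  obtain ⟨ψ, hψ1, hψ2, hψ3⟩ := exists_K0equivF K hexF
  have hψ1' : ∀ z, ψ.symm (lamX z) = K0.shift (ψ.symm z) := by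
    intro z
    apply ψ.injective
    rw [hψ1, AddEquiv.apply_symm_apply, AddEquiv.apply_symm_apply]
  refine ⟨(φ.trans lamB.toAddEquiv).trans ψ.symm, ?_, ?_, ?_⟩
  · intro x
    change ψ.symm (lamB (φ (K0.shift x))) = K0.shift (ψ.symm (lamB (φ x)))
    rw [hφ1, lamB_comm, hψ1']
  · intro x
    change _ ↔ ψ.symm (lamB (φ x)) ∈ _
    rw [hψ2, AddEquiv.apply_symm_apply, lamB_mem_iff, hφ2]
  · change ψ.symm (lamB (φ (K0.unit _))) = _
    apply ψ.injective
    rw [AddEquiv.apply_symm_apply, hφ3, hψ3]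
    decide

end Pool.Agent.GCC
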