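import Pool.Agent.GCC.PiMod

/-!
# Rank equality: isomorphic direct sums of modules `P_v(i)` have the same path counts
-/

open MulOpposite DirectSum

namespace Pool.Agent.GCC

universe u

theorem FinGraph.adj_mul_apply (G : FinGraph) (B : Matrix (Fin G.nV) (Fin G.nV) ℤ)
    (v w : Fin G.nV) : (G.adj * B) v w =
      ∑ x ∈ Finset.univ.filter (fun x => G.s x = v), B (G.r x) w := by
  rw [Matrix.mul_apply]
  rw [← Finset.sum_fiberwise (Finset.univ.filter (fun x => G.s x = v)) G.r]
  refine Finset.sum_congr rfl fun u _ => ?_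
  rw [Finset.filter_filter]
  have : ∀ x ∈ Finset.univ.filter (fun x => G.s x = v ∧ G.r x = u), B (G.r x) w = B u w := by
    intro x hx
    rw [(Finset.mem_filter.mp hx).2.2]
  rw [Finset.sum_congr rfl this, Finset.sum_const, nsmul_eq_mul]
  rfl

namespace CKFamily

variable {G : FinGraph} {L : Type*} [Ring L] (F : CKFamily G L)
variable (K : Type*) [Field K] [Algebra K L]

theorem M_right_zero (l : ℕ) : F.M K l 0 = F.X K ^ l * F.P0 K := by
  unfold M; rw [pow_zero, mul_one]

theorem P0_mul_M_le (a : ℕ) : F.P0 K * F.M K a 0 ≤ F.M K a 0 := by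
  rw [M_right_zero, ← mul_assoc]
  cases a with
  | zero => rw [pow_zero, mul_one, one_mul, F.P0_mul_P0]
  | succ a => rw [pow_succ', ← mul_assoc, F.P0_mul_X]

theorem Xs_mul_M_le (a : ℕ) : F.Xs K * F.M K (a + 1) 0 ≤ F.M K a 0 := by
  calc F.Xs K * F.M K (a + 1) 0 = (F.Xs K * F.X K) * F.M K a 0 := by
        rw [M_right_zero, M_right_zero, pow_succ']; simp only [mul_assoc]
    _ ≤ F.P0 K * F.M K a 0 := smL (F.Xs_mul_X_le K)
    _ ≤ _ := F.P0_mul_M_le K a

theorem X_mul_M (a : ℕ) : F.X K * F.M K a 0 = F.M K (a + 1) 0 := by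
  rw [M_right_zero, M_right_zero, pow_succ', mul_assoc]

/-- The span of the paths of length `l` from `v` to `w`. -/
def U (v w : Fin G.nV) (l : ℕ) : Submodule K L where
  carrier := {y | y ∈ F.M K l 0 ∧ F.p v * y = y ∧ y * F.p w = y}
  zero_mem' := ⟨Submodule.zero_mem _, mul_zero _, zero_mul _⟩
  add_mem' := by
    rintro a b ⟨ha, ha1, ha2⟩ ⟨hb, hb1, hb2⟩
    exact ⟨Submodule.add_mem _ ha hb, by rw [mul_add, ha1, hb1], by rw [add_mul, ha2, hb2]⟩
  smul_mem' := by
    rintro c a ⟨ha, ha1, ha2⟩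
    exact ⟨Submodule.smul_mem _ c ha, by rw [mul_smul_comm, ha1], by rw [smul_mul_assoc, ha2]⟩

theorem mem_U {v w : Fin G.nV} {l : ℕ} {y : L} :
    y ∈ F.U K v w l ↔ y ∈ F.M K l 0 ∧ F.p v * y = y ∧ y * F.p w = y := Iff.rfl

theorem U_free (v w : Fin G.nV) (l : ℕ) : Module.Free K (F.U K v w l) :=
  Module.Free.of_divisionRing K _

instance U_finite (v w : Fin G.nV) (l : ℕ) : Module.Finite K (F.U K v w l) := by
  have h1 : Module.Finite K (F.M K l 0) := Module.Finite.iff_fg.mpr (F.M_fg K l 0)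
  have h2 : F.U K v w l ≤ F.M K l 0 := fun y hy => hy.1
  exact Submodule.finiteDimensional_of_le h2

/-- The recursion for `U`. -/
def Ustep (v w : Fin G.nV) (l : ℕ) (hv : ∃ x, G.s x = v) :
    F.U K v w (l + 1) ≃ₗ[K] (∀ x : {x : Fin G.nE // G.s x = v}, F.U K (G.r x.1) w l) where
  toFun y x := ⟨F.g x.1 * y.1,
    F.Xs_mul_M_le K l (Submodule.mul_mem_mul (F.g_mem K x.1) y.2.1),
    by rw [← mul_assoc, F.rg], by rw [mul_assoc, y.2.2.2]⟩
  map_add' x y := by
    funext u
    exact Subtype.ext (mul_add _ _ _)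
  map_smul' c x := by
    funext u
    exact Subtype.ext (mul_smul_comm _ _ _)
  invFun z := ⟨∑ x, F.e x.1 * (z x).1,
    Submodule.sum_mem _ fun x _ => by
      rw [← F.X_mul_M]
      exact Submodule.mul_mem_mul (F.e_mem K x.1) (z x).2.1,
    by
      rw [Finset.mul_sum]
      refine Finset.sum_congr rfl fun x _ => ?_
      rw [← mul_assoc, F.pe, if_pos x.2],
    by
      rw [Finset.sum_mul]
      refine Finset.sum_congr rfl fun x _ => ?_
      rw [mul_assoc, (z x).2.2.2]⟩
  left_inv m := by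
    apply Subtype.ext
    change ∑ x : {x : Fin G.nE // G.s x = v}, F.e x.1 * (F.g x.1 * m.1) = m.1
    rw [← Finset.sum_subtype (Finset.univ.filter (fun x => G.s x = v)) (by simp)
      (fun x => F.e x * (F.g x * m.1))]
    conv_rhs => rw [← m.2.2.1]
    rw [F.ck2 v hv, Finset.sum_mul]
    refine Finset.sum_congr rfl fun x _ => ?_
    rw [mul_assoc]
  right_inv y := by
    funext x
    apply Subtype.ext
    change F.g x.1 * ∑ w : {x : Fin G.nE // G.s x = v}, F.e w.1 * (y w).1 = (y x).1
    rw [Finset.mul_sum, Finset.sum_eq_single x]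
    · rw [← mul_assoc, F.ge_self]
      exact (y x).2.2.1
    · intro w _ hw
      rw [← mul_assoc, F.ge_ne x.1 w.1 (fun h => hw (Subtype.ext h.symm)), zero_mul]
    · intro h
      exact absurd (Finset.mem_univ x) h

theorem U_zero_self (v : Fin G.nV) : F.U K v v 0 = Submodule.span K {F.p v} := by
  apply le_antisymm
  · rintro y ⟨hy, h1, h2⟩
    rw [M_zero] at hy
    rw [← h1]
    clear h1 h2
    induction hy using Submodule.span_induction with
    | mem x hx =>
      obtain ⟨u, rfl⟩ := hx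
      rw [F.pp]
      split_ifs
      · exact Submodule.mem_span_singleton_self _
      · exact Submodule.zero_mem _
    | zero => rw [mul_zero]; exact Submodule.zero_mem _
    | add x y _ _ hx hy =>
      rw [mul_add]
      exact Submodule.add_mem _ hx hy
    | smul c x _ hx =>
      rw [mul_smul_comm]
      exact Submodule.smul_mem _ c hx
  · rw [Submodule.span_le, Set.singleton_subset_iff]
    refine ⟨?_, F.pp_self v, F.pp_self v⟩
    rw [M_zero]
    exact F.p_mem K v

theorem U_zero_ne {v w : Fin G.nV} (h : v ≠ w) : F.U K v w 0 = ⊥ := by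
  rw [eq_bot_iff]
  rintro y ⟨hy, h1, h2⟩
  rw [Submodule.mem_bot, ← h2, ← h1]
  clear h1 h2
  rw [M_zero] at hy
  induction hy using Submodule.span_induction with
  | mem x hx =>
    obtain ⟨u, rfl⟩ := hx
    rw [F.pp]
    split_ifs
    · rw [F.pp_ne v w h]
    · rw [zero_mul]
  | zero => rw [mul_zero, zero_mul]
  | add x y _ _ hx hy =>
    rw [mul_add, add_mul, hx, hy, add_zero]
  | smul c x _ hx =>
    rw [mul_smul_comm, smul_mul_assoc, hx, smul_zero]

theorem finrank_U (hs : G.NoSink) (hp : ∀ v, F.p v ≠ 0) (l : ℕ) : ∀ v w : Fin G.nV,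
    (Module.finrank K (F.U K v w l) : ℤ) = (G.adj ^ l) v w := by
  induction l with
  | zero =>
    intro v w
    rw [pow_zero]
    by_cases h : v = w
    · subst h
      rw [F.U_zero_self K v, finrank_span_singleton (hp v), Matrix.one_apply_eq]
      rfl
    · rw [F.U_zero_ne K h, finrank_bot, Matrix.one_apply_ne h]
      rfl
  | succ l ih =>
    intro v w
    rw [pow_succ', G.adj_mul_apply, (F.Ustep K v w l (hs v)).finrank_eq,
      Module.finrank_pi_fintype]
    push_cast
    rw [Finset.sum_subtype (Finset.univ.filter (fun x => G.s x = v)) (p := fun x => G.s x = v)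
      (by simp) (fun x => (G.adj ^ l) (G.r x) w)]
    exact Finset.sum_congr rfl fun x _ => ih _ _

end CKFamily

variable (K : Type u) [Field K] (G : FinGraph)

/-- The shifted module `P_v(i)` for a pair `(v, i)`. -/
noncomputable def LPA.PvS (q : Fin G.nV × ℤ) : FGProj (LPA.grRing K G) :=
  (LPA.Pv K G q.1).shift q.2

variable {K G}

/-- Unit vectors. -/
noncomputable def LPA.unitVec {n : ℕ} (v : Fin n → Fin G.nV) (i : Fin n) :
    ∀ i, fixSub ((LPA.family K G).p (v i)) :=
  Pi.single i ⟨(LPA.family K G).p (v i), (LPA.family K G).pp_self (v i)⟩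

theorem LPA.fix_expand {n : ℕ} {v : Fin n → Fin G.nV}
    (z : ∀ i, fixSub ((LPA.family K G).p (v i))) :
    z = ∑ i, op (z i).1 • LPA.unitVec v i := by
  conv_lhs => rw [← Finset.univ_sum_single z]
  refine Finset.sum_congr rfl fun i _ => ?_
  unfold LPA.unitVec
  rw [← Pi.single_smul]
  congr 1
  apply Subtype.ext
  change (z i).1 = (LPA.family K G).p (v i) * unop (op (z i).1)
  exact (z i).2.symm

/-- One inequality of the rank equality, for a fixed size. -/
theorem LPA.rank_le (hs : G.NoSink) {n m : ℕ} (v : Fin n → Fin G.nV) (v' : Fin m → Fin G.nV)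
    (f : (∀ i, fixSub ((LPA.family K G).p (v i))) ≃ₗ[(LPA K G)ᵐᵒᵖ]
      (∀ j, fixSub ((LPA.family K G).p (v' j)))) (c : Fin n → ℕ) (c' : Fin m → ℕ)
    (hf : ∀ i j, (f (LPA.unitVec v i) j).1 ∈ (LPA.family K G).M K (c' j) (c i))
    (w : Fin G.nV) : ∑ i, (G.adj ^ c i) (v i) w ≤ ∑ j, (G.adj ^ c' j) (v' j) w := by
  have hp : ∀ v, (LPA.family K G).p v ≠ 0 := LPA.family_p_ne_zero K hs
  have key : ∀ (z : ∀ i, fixSub ((LPA.family K G).p (v i))) (j : Fin m),
      (f z j).1 = ∑ i, (f (LPA.unitVec v i) j).1 * (z i).1 := by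
    intro z j
    conv_lhs => rw [LPA.fix_expand z, map_sum, Finset.sum_apply, AddSubmonoidClass.coe_finsetSum]
    refine Finset.sum_congr rfl fun i _ => ?_
    rw [map_smul]
    rfl
  let T : (∀ i, (LPA.family K G).U K (v i) w (c i)) →ₗ[K]
      (∀ j, (LPA.family K G).U K (v' j) w (c' j)) :=
    { toFun := fun z j => ⟨∑ i, (f (LPA.unitVec v i) j).1 * (z i).1,
        Submodule.sum_mem _ fun i _ => (LPA.family K G).M_mul_M_le K (c' j) (c i) 0
          (Submodule.mul_mem_mul (hf i j) (z i).2.1), by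
        rw [Finset.mul_sum]
        refine Finset.sum_congr rfl fun i _ => ?_
        rw [← mul_assoc]
        congr 1
        exact (f (LPA.unitVec v i) j).2, by
        rw [Finset.sum_mul]
        refine Finset.sum_congr rfl fun i _ => ?_
        rw [mul_assoc, (z i).2.2.2]⟩
      map_add' := by
        intro x y
        funext j
        apply Subtype.ext
        change ∑ i, (f (LPA.unitVec v i) j).1 * ((x i).1 + (y i).1) =
          ∑ i, (f (LPA.unitVec v i) j).1 * (x i).1 + ∑ i, (f (LPA.unitVec v i) j).1 * (y i).1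
        rw [← Finset.sum_add_distrib]
        exact Finset.sum_congr rfl fun i _ => mul_add _ _ _
      map_smul' := by
        intro r x
        funext j
        apply Subtype.ext
        change ∑ i, (f (LPA.unitVec v i) j).1 * (r • (x i).1) =
          r • ∑ i, (f (LPA.unitVec v i) j).1 * (x i).1
        rw [Finset.smul_sum]
        exact Finset.sum_congr rfl fun i _ => mul_smul_comm _ _ _ }
  have hT : Function.Injective T := by
    rw [injective_iff_map_eq_zero]
    intro z hz
    let z' : ∀ i, fixSub ((LPA.family K G).p (v i)) := fun i => ⟨(z i).1, (z i).2.2.1⟩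
    have h1 : f z' = 0 := by
      funext j
      apply Subtype.ext
      rw [key z' j]
      exact congrArg (fun t : (∀ j, (LPA.family K G).U K (v' j) w (c' j)) => (t j).1) hz
    have h2 : z' = 0 := by
      rw [← map_zero f] at h1
      exact f.injective h1
    funext i
    apply Subtype.ext
    exact congrArg (fun t : (∀ i, fixSub ((LPA.family K G).p (v i))) => (t i).1) h2
  have h := LinearMap.finrank_le_finrank_of_injective hT
  have free1 : ∀ i, Module.Free K ((LPA.family K G).U K (v i) w (c i)) :=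
    fun i => (LPA.family K G).U_free K (v i) w (c i)
  have free2 : ∀ j, Module.Free K ((LPA.family K G).U K (v' j) w (c' j)) :=
    fun j => (LPA.family K G).U_free K (v' j) w (c' j)
  rw [Module.finrank_pi_fintype, Module.finrank_pi_fintype] at h
  have h' : ((∑ i, Module.finrank K ((LPA.family K G).U K (v i) w (c i)) : ℕ) : ℤ) ≤
      ((∑ j, Module.finrank K ((LPA.family K G).U K (v' j) w (c' j)) : ℕ) : ℤ) := by
    exact_mod_cast h
  push_cast at h'
  simp only [(LPA.family K G).finrank_U K hs hp] at h'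
  exact h'

/-- One inequality of the rank equality. -/
theorem LPA.rank_le' (hs : G.NoSink) {n m : ℕ} (q : Fin n → Fin G.nV × ℤ)
    (q' : Fin m → Fin G.nV × ℤ)
    (h : (GrMod.pi fun i => (LPA.PvS K G (q i)).1).Iso (GrMod.pi fun j => (LPA.PvS K G (q' j)).1)) :
    ∃ N : ℤ, ∀ k : ℤ, N ≤ k → ∀ w : Fin G.nV,
      ∑ i, (G.adj ^ ((k + (q i).2).toNat)) (q i).1 w ≤
      ∑ j, (G.adj ^ ((k + (q' j).2).toNat)) (q' j).1 w := by
  obtain ⟨f, hf⟩ := h
  let f' : (∀ i, fixSub ((LPA.family K G).p (q i).1)) ≃ₗ[(LPA K G)ᵐᵒᵖ]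
      (∀ j, fixSub ((LPA.family K G).p (q' j).1)) := f
  have hdeg : ∀ i j, (f' (LPA.unitVec (fun i => (q i).1) i) j).1 ∈
      LPA.gr K G ((q' j).2 - (q i).2) := by
    intro i j
    have h1 : LPA.unitVec (K := K) (fun i => (q i).1) i ∈
        (GrMod.pi fun i => (LPA.PvS K G (q i)).1).gr (-(q i).2) := by
      intro i'
      by_cases hi : i' = i
      · subst hi
        change (LPA.unitVec (K := K) (fun i => (q i).1) i' i').1 ∈
          LPA.gr K G (-(q i').2 + (q i').2)
        unfold LPA.unitVec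
        rw [Pi.single_eq_same, neg_add_cancel]
        exact LPA.gen_mem_gr (.v (q i').1)
      · change (LPA.unitVec (K := K) (fun i => (q i).1) i i').1 ∈
          LPA.gr K G (-(q i).2 + (q i').2)
        unfold LPA.unitVec
        rw [Pi.single_eq_of_ne hi]
        exact Submodule.zero_mem _
    have h2 := (hf _ _).mp h1 j
    have h3 : (f' (LPA.unitVec (fun i => (q i).1) i) j).1 ∈ LPA.gr K G (-(q i).2 + (q' j).2) := h2
    rwa [neg_add_eq_sub] at h3
  have hN : ∀ i j, ∃ N : ℕ, ∀ a b : ℕ, (a : ℤ) - b = (q' j).2 - (q i).2 → N ≤ b →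
      (f' (LPA.unitVec (fun i => (q i).1) i) j).1 ∈ (LPA.family K G).M K a b :=
    fun i j => LPA.mem_M_of_mem_gr hs (hdeg i j)
  choose N hN using hN
  refine ⟨∑ i, ∑ j, ((N i j : ℤ) + |(q i).2| + |(q' j).2|) + ∑ i, |(q i).2| + ∑ j, |(q' j).2|,
    fun k hk w => ?_⟩
  have e0 : (0 : ℤ) ≤ ∑ i, ∑ j, ((N i j : ℤ) + |(q i).2| + |(q' j).2|) :=
    Finset.sum_nonneg fun i _ => Finset.sum_nonneg fun j _ => by positivity
  have e1 : ∀ i, |(q i).2| ≤ ∑ i, |(q i).2| := fun i =>
    Finset.single_le_sum (f := fun i => |(q i).2|) (fun i _ => abs_nonneg _) (Finset.mem_univ i)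
  have e2 : ∀ j, |(q' j).2| ≤ ∑ j, |(q' j).2| := fun j =>
    Finset.single_le_sum (f := fun j => |(q' j).2|) (fun j _ => abs_nonneg _) (Finset.mem_univ j)
  have e1' : (0 : ℤ) ≤ ∑ i, |(q i).2| := Finset.sum_nonneg fun i _ => abs_nonneg _
  have e2' : (0 : ℤ) ≤ ∑ j, |(q' j).2| := Finset.sum_nonneg fun j _ => abs_nonneg _
  have k1 : ∀ i, 0 ≤ k + (q i).2 := fun i => by
    have := neg_abs_le (q i).2
    have := e1 i
    linarith
  have k2 : ∀ j, 0 ≤ k + (q' j).2 := fun j => by
    have := neg_abs_le (q' j).2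
    have := e2 j
    linarith
  apply LPA.rank_le hs (fun i => (q i).1) (fun j => (q' j).1) f'
  intro i j
  apply hN i j
  · rw [Int.toNat_of_nonneg (k1 i), Int.toNat_of_nonneg (k2 j)]
    ring
  · have h3 : ((N i j : ℤ) + |(q i).2| + |(q' j).2|) ≤
        ∑ i, ∑ j, ((N i j : ℤ) + |(q i).2| + |(q' j).2|) := by
      refine le_trans ?_ (Finset.single_le_sum
        (f := fun i => ∑ j, ((N i j : ℤ) + |(q i).2| + |(q' j).2|))
        (fun i _ => Finset.sum_nonneg fun j _ => by positivity) (Finset.mem_univ i))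
      exact Finset.single_le_sum (f := fun j => ((N i j : ℤ) + |(q i).2| + |(q' j).2|))
        (fun j _ => by positivity) (Finset.mem_univ j)
    have h4 := neg_abs_le (q i).2
    have h5 := abs_nonneg (q' j).2
    have h6 : (N i j : ℤ) ≤ ((k + (q i).2).toNat : ℤ) := by
      rw [Int.toNat_of_nonneg (k1 i)]
      have := e1 i
      linarith
    exact_mod_cast h6

theorem LPA.sum_list_eq (l : List (Fin G.nV × ℤ)) :
    (l.map (fun q => V.mk ((LPA.Pv K G q.1).shift q.2))).sum =
      V.mk (FGProj.pi fun i : Fin l.length => LPA.PvS K G l[i.1]) := by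
  rw [V.mk_pi, ← Fin.sum_univ_fun_getElem]
  rfl

variable (K G) in
/-- M6c. Rank equality: if two direct sums of modules `P_v(i)` are isomorphic, then for
all large `k` and every vertex `w` the numbers of paths agree. -/
theorem LPA.rank_eq (hs : G.NoSink) (l l' : List (Fin G.nV × ℤ))
    (h : (l.map (fun q => V.mk ((LPA.Pv K G q.1).shift q.2))).sum =
      (l'.map (fun q => V.mk ((LPA.Pv K G q.1).shift q.2))).sum) :
    ∃ N : ℤ, ∀ k : ℤ, N ≤ k → ∀ w : Fin G.nV,
      (l.map (fun q => (G.adj ^ ((k + q.2).toNat)) q.1 w)).sum =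
      (l'.map (fun q => (G.adj ^ ((k + q.2).toNat)) q.1 w)).sum := by
  rw [LPA.sum_list_eq, LPA.sum_list_eq, V.mk_eq_iff] at h
  obtain ⟨N1, h1⟩ := LPA.rank_le' hs (fun i : Fin l.length => l[i.1])
    (fun i : Fin l'.length => l'[i.1]) h
  obtain ⟨N2, h2⟩ := LPA.rank_le' hs (fun i : Fin l'.length => l'[i.1])
    (fun i : Fin l.length => l[i.1]) h.symm
  refine ⟨max N1 N2, fun k hk w => ?_⟩
  rw [← Fin.sum_univ_fun_getElem, ← Fin.sum_univ_fun_getElem]
  exact le_antisymm (h1 k (le_trans (le_max_left _ _) hk) w) (h2 k (le_trans (le_max_right _ _) hk) w)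

end Pool.Agent.GCC
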