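import Pool.Agent.GCC.ShiftPv
import Pool.Agent.GCC.RankEq

/-!
# Additive invariants of the graded Grothendieck group of a Leavitt path algebra
-/

open MulOpposite DirectSum

namespace Pool.Agent.GCC

universe u

section Shift

variable {R : GrRing.{u}}

/-- The shift by `k` on `V`. -/
def V.shiftBy (k : ℤ) : V R →+ V R where
  toFun := Quotient.map (fun P => FGProj.shift P k) (fun _ _ h => GrMod.Iso.shift h k)
  map_zero' := by
    apply Quotient.sound
    exact ⟨LinearEquiv.refl _ _, fun _ _ => Iff.rfl⟩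
  map_add' := by
    rintro ⟨P⟩ ⟨Q⟩
    rfl

theorem V.shiftBy_one : (V.shiftBy 1 : V R →+ V R) = V.shift := rfl

theorem V.shiftBy_mk (k : ℤ) (P : FGProj R) : V.shiftBy k (V.mk P) = V.mk (P.shift k) := rfl

theorem V.shiftBy_shiftBy (a b : ℤ) (c : V R) : V.shiftBy a (V.shiftBy b c) = V.shiftBy (a + b) c := by
  obtain ⟨P, rfl⟩ : ∃ P, V.mk P = c := Quotient.exists_rep c
  rw [V.shiftBy_mk, V.shiftBy_mk, V.shiftBy_mk, V.mk_eq_iff]
  refine ⟨LinearEquiv.refl _ _, fun n m => ?_⟩
  change m ∈ P.1.gr (n + a + b) ↔ m ∈ P.1.gr (n + (a + b))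
  rw [add_assoc]

theorem V.shiftBy_zero (c : V R) : V.shiftBy 0 c = c := by
  obtain ⟨P, rfl⟩ : ∃ P, V.mk P = c := Quotient.exists_rep c
  rw [V.shiftBy_mk, V.mk_eq_iff]
  refine ⟨LinearEquiv.refl _ _, fun n m => ?_⟩
  change m ∈ P.1.gr (n + 0) ↔ m ∈ P.1.gr n
  rw [add_zero]

/-- Two homomorphisms from `K0` agreeing on the classes are equal. -/
theorem K0.hom_ext {A : Type*} [AddCommGroup A] {f g : K0 R →+ A}
    (h : ∀ c : V R, f (Algebra.GrothendieckAddGroup.of c) = g (Algebra.GrothendieckAddGroup.of c)) :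
    f = g := by
  apply Algebra.GrothendieckAddGroup.lift.symm.injective
  ext c
  exact h c

theorem K0.lift_of {A : Type*} [AddCommGroup A] (f : V R →+ A) (c : V R) :
    Algebra.GrothendieckAddGroup.lift f (Algebra.GrothendieckAddGroup.of c) = f c :=
  DFunLike.congr_fun (Algebra.GrothendieckAddGroup.lift.symm_apply_apply f) c

/-- The shift by `k` on `K0`. -/
noncomputable def K0.shiftBy (k : ℤ) : K0 R →+ K0 R :=
  Algebra.GrothendieckAddGroup.lift (Algebra.GrothendieckAddGroup.of.comp (V.shiftBy k))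

theorem K0.shiftBy_of (k : ℤ) (c : V R) :
    K0.shiftBy k (Algebra.GrothendieckAddGroup.of c) =
      Algebra.GrothendieckAddGroup.of (V.shiftBy k c) := K0.lift_of _ c

theorem K0.shift_of (c : V R) :
    K0.shift (Algebra.GrothendieckAddGroup.of c) =
      Algebra.GrothendieckAddGroup.of (V.shift c) := K0.lift_of _ c

theorem K0.shiftBy_one (z : K0 R) : K0.shiftBy 1 z = K0.shift z := rfl

theorem K0.shiftBy_shiftBy (a b : ℤ) (z : K0 R) :
    K0.shiftBy a (K0.shiftBy b z) = K0.shiftBy (a + b) z := by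
  have : (K0.shiftBy a).comp (K0.shiftBy b) = (K0.shiftBy (a + b) : K0 R →+ K0 R) := by
    apply K0.hom_ext
    intro c
    rw [AddMonoidHom.comp_apply, K0.shiftBy_of, K0.shiftBy_of, K0.shiftBy_of, V.shiftBy_shiftBy]
  exact DFunLike.congr_fun this z

theorem K0.shiftBy_zero (z : K0 R) : K0.shiftBy 0 z = z := by
  have : (K0.shiftBy 0 : K0 R →+ K0 R) = AddMonoidHom.id _ := by
    apply K0.hom_ext
    intro c
    rw [K0.shiftBy_of, V.shiftBy_zero]
    rfl
  exact DFunLike.congr_fun this z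

theorem K0.shift_injective : Function.Injective (K0.shift : K0 R →+ K0 R) := by
  intro x y h
  have := congrArg (K0.shiftBy (-1)) h
  rw [← K0.shiftBy_one, ← K0.shiftBy_one, K0.shiftBy_shiftBy, K0.shiftBy_shiftBy,
    neg_add_cancel, K0.shiftBy_zero, K0.shiftBy_zero] at this
  exact this

theorem K0.shift_cls (P : FGProj R) : K0.shift (K0.cls P) = K0.cls (P.shift 1) :=
  K0.shift_of (V.mk P)

theorem K0.shiftBy_cls (k : ℤ) (P : FGProj R) : K0.shiftBy k (K0.cls P) = K0.cls (P.shift k) :=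
  K0.shiftBy_of k (V.mk P)

end Shift

section Lists

variable (K : Type u) [Field K] (G : FinGraph)

/-- The class of the direct sum of the `P_v(i)`, `(v, i)` in the list. -/
noncomputable def lcls (l : List (Fin G.nV × ℤ)) : V (LPA.grRing K G) :=
  (l.map (fun q => V.mk ((LPA.Pv K G q.1).shift q.2))).sum

/-- Every f.g. graded projective module is a sum of modules `P_v(i)`. -/
def ExistsList : Prop :=
  ∀ P : FGProj (LPA.grRing K G), ∃ l : List (Fin G.nV × ℤ), V.mk P = lcls K G l

variable {Λ : Type*} [AddCommGroup Λ] (X : Λ ≃ₗ[ℤ] Λ) (m : Fin G.nV → Λ)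

/-- The value of a list. -/
def lval (l : List (Fin G.nV × ℤ)) : Λ := (l.map (fun q => (X ^ q.2 : Λ ≃ₗ[ℤ] Λ) (m q.1))).sum

theorem lcls_append (l l' : List (Fin G.nV × ℤ)) :
    lcls K G (l ++ l') = lcls K G l + lcls K G l' := by
  unfold lcls; rw [List.map_append, List.sum_append]

theorem lval_append (l l' : List (Fin G.nV × ℤ)) :
    lval G X m (l ++ l') = lval G X m l + lval G X m l' := by
  unfold lval; rw [List.map_append, List.sum_append]

variable {K G X m}

theorem adj_pow_smul (hm : ∀ v, X (m v) = ∑ x ∈ Finset.univ.filter (fun x => G.s x = v), m (G.r x))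
    (n : ℕ) : ∀ v, ∑ w, ((G.adj ^ n) v w) • m w = (X ^ n : Λ ≃ₗ[ℤ] Λ) (m v) := by
  induction n with
  | zero =>
    intro v
    rw [pow_zero, pow_zero, Finset.sum_eq_single v]
    · rw [Matrix.one_apply_eq, one_smul]; rfl
    · intro w _ hw
      rw [Matrix.one_apply_ne (Ne.symm hw), zero_smul]
    · intro h
      exact absurd (Finset.mem_univ v) h
  | succ n ih =>
    intro v
    have h1 : ∀ w, ((G.adj ^ (n + 1)) v w) • m w =
        ∑ x ∈ Finset.univ.filter (fun x => G.s x = v), ((G.adj ^ n) (G.r x) w) • m w := by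
      intro w
      rw [pow_succ', G.adj_mul_apply, Finset.sum_smul]
    rw [Finset.sum_congr rfl (fun w _ => h1 w), Finset.sum_comm,
      Finset.sum_congr rfl (fun x _ => ih (G.r x)), pow_succ, LinearEquiv.mul_apply, hm v, map_sum]

theorem sum_smul_list {ι : Type*} {n : ℕ} (l : List ι) (f : ι → Fin n → ℤ) (g : Fin n → Λ) :
    ∑ w, (l.map (fun q => f q w)).sum • g w = (l.map (fun q => ∑ w, f q w • g w)).sum := by
  induction l with
  | nil => simp
  | cons a l ih =>
    simp only [List.map_cons, List.sum_cons, add_smul, Finset.sum_add_distrib, ih]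

theorem zpow_lval (k : ℤ) (l : List (Fin G.nV × ℤ)) :
    (X ^ k : Λ ≃ₗ[ℤ] Λ) (lval G X m l) = (l.map (fun q => (X ^ (k + q.2) : Λ ≃ₗ[ℤ] Λ) (m q.1))).sum := by
  unfold lval
  rw [map_list_sum, List.map_map]
  congr 1
  apply List.map_congr_left
  intro q _
  simp only [Function.comp_apply]
  rw [zpow_add, LinearEquiv.mul_apply]

theorem lval_eq_of_lcls_eq (hs : G.NoSink)
    (hm : ∀ v, X (m v) = ∑ x ∈ Finset.univ.filter (fun x => G.s x = v), m (G.r x))
    {l l' : List (Fin G.nV × ℤ)} (h : lcls K G l = lcls K G l') :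
    lval G X m l = lval G X m l' := by
  obtain ⟨N, hN⟩ := LPA.rank_eq K G hs l l' h
  let B : ℤ := ((l ++ l').map (fun q => |q.2|)).sum
  have hB : ∀ q ∈ l ++ l', |q.2| ≤ B := fun q hq =>
    List.single_le_sum (by
      intro x hx
      obtain ⟨q, _, rfl⟩ := List.mem_map.mp hx
      exact abs_nonneg _) _ (List.mem_map_of_mem hq)
  let k : ℤ := max N B
  have hk : ∀ q ∈ l ++ l', 0 ≤ k + q.2 := by
    intro q hq
    have h1 := hB q hq
    have h2 : B ≤ k := le_max_right _ _
    have h3 := neg_abs_le q.2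
    linarith
  have key : ∀ l'' : List (Fin G.nV × ℤ), (∀ q ∈ l'', 0 ≤ k + q.2) →
      (X ^ k : Λ ≃ₗ[ℤ] Λ) (lval G X m l'') =
      ∑ w, (l''.map (fun q => (G.adj ^ ((k + q.2).toNat)) q.1 w)).sum • m w := by
    intro l'' hl''
    rw [zpow_lval, sum_smul_list]
    congr 1
    apply List.map_congr_left
    intro q hq
    rw [adj_pow_smul hm, ← zpow_natCast, Int.toNat_of_nonneg (hl'' q hq)]
  have e1 := key l (fun q hq => hk q (List.mem_append_left _ hq))
  have e2 := key l' (fun q hq => hk q (List.mem_append_right _ hq))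
  have e3 : (X ^ k : Λ ≃ₗ[ℤ] Λ) (lval G X m l) = (X ^ k : Λ ≃ₗ[ℤ] Λ) (lval G X m l') := by
    rw [e1, e2]
    refine Finset.sum_congr rfl fun w _ => ?_
    rw [hN k (le_max_left _ _) w]
  exact (X ^ k : Λ ≃ₗ[ℤ] Λ).injective e3

theorem exists_lcls (hex : ExistsList K G) (c : V (LPA.grRing K G)) :
    ∃ l : List (Fin G.nV × ℤ), c = lcls K G l := by
  obtain ⟨P, rfl⟩ : ∃ P, V.mk P = c := Quotient.exists_rep c
  exact hex P

variable (X m) in
/-- The additive invariant on `V`. -/
noncomputable def Vval (hs : G.NoSink) (hex : ExistsList K G)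
    (hm : ∀ v, X (m v) = ∑ x ∈ Finset.univ.filter (fun x => G.s x = v), m (G.r x)) :
    V (LPA.grRing K G) →+ Λ where
  toFun c := lval G X m (exists_lcls hex c).choose
  map_zero' := by
    have h := (exists_lcls hex (0 : V (LPA.grRing K G))).choose_spec
    have h2 := lval_eq_of_lcls_eq (l' := []) hs hm h.symm
    rw [h2]
    rfl
  map_add' := by
    intro a b
    have h := (exists_lcls hex (a + b)).choose_spec
    have ha := (exists_lcls hex a).choose_spec
    have hb := (exists_lcls hex b).choose_spec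
    rw [← lval_append]
    apply lval_eq_of_lcls_eq (K := K) hs hm
    rw [lcls_append, ← h, ← ha, ← hb]

theorem Vval_lcls (hs : G.NoSink) (hex : ExistsList K G)
    (hm : ∀ v, X (m v) = ∑ x ∈ Finset.univ.filter (fun x => G.s x = v), m (G.r x))
    (l : List (Fin G.nV × ℤ)) : Vval X m hs hex hm (lcls K G l) = lval G X m l :=
  lval_eq_of_lcls_eq (K := K) hs hm (exists_lcls hex (lcls K G l)).choose_spec.symm

variable (X m) in
/-- The additive invariant on `K0`. -/
noncomputable def K0val (hs : G.NoSink) (hex : ExistsList K G)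
    (hm : ∀ v, X (m v) = ∑ x ∈ Finset.univ.filter (fun x => G.s x = v), m (G.r x)) :
    K0 (LPA.grRing K G) →+ Λ := Algebra.GrothendieckAddGroup.lift (Vval X m hs hex hm)

theorem K0val_of_lcls (hs : G.NoSink) (hex : ExistsList K G)
    (hm : ∀ v, X (m v) = ∑ x ∈ Finset.univ.filter (fun x => G.s x = v), m (G.r x))
    (l : List (Fin G.nV × ℤ)) :
    K0val X m hs hex hm (Algebra.GrothendieckAddGroup.of (lcls K G l)) = lval G X m l := by
  unfold K0val
  rw [K0.lift_of, Vval_lcls]

theorem shift_lcls (k : ℤ) (l : List (Fin G.nV × ℤ)) :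
    V.shiftBy k (lcls K G l) = lcls K G (l.map (fun q => (q.1, q.2 + k))) := by
  unfold lcls
  rw [map_list_sum, List.map_map, List.map_map]
  congr 1
  apply List.map_congr_left
  intro q _
  simp only [Function.comp_apply]
  rw [← V.shiftBy_mk, V.shiftBy_shiftBy, V.shiftBy_mk, add_comm]

theorem lval_shift (l : List (Fin G.nV × ℤ)) (k : ℤ) :
    lval G X m (l.map (fun q => (q.1, q.2 + k))) = (X ^ k : Λ ≃ₗ[ℤ] Λ) (lval G X m l) := by
  rw [zpow_lval]
  unfold lval
  rw [List.map_map]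
  congr 1
  apply List.map_congr_left
  intro q _
  simp only [Function.comp_apply]
  rw [add_comm]

theorem K0val_shift (hs : G.NoSink) (hex : ExistsList K G)
    (hm : ∀ v, X (m v) = ∑ x ∈ Finset.univ.filter (fun x => G.s x = v), m (G.r x))
    (z : K0 (LPA.grRing K G)) :
    K0val X m hs hex hm (K0.shift z) = X (K0val X m hs hex hm z) := by
  have : (K0val X m hs hex hm).comp K0.shift = (X.toAddEquiv : Λ →+ Λ).comp (K0val X m hs hex hm) := by
    apply K0.hom_ext
    intro c
    obtain ⟨l, rfl⟩ := exists_lcls hex c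
    rw [AddMonoidHom.comp_apply, AddMonoidHom.comp_apply, K0.shift_of, ← V.shiftBy_one,
      shift_lcls, K0val_of_lcls, K0val_of_lcls, lval_shift, zpow_one]
    rfl
  exact DFunLike.congr_fun this z

theorem K0val_cls_Pv (hs : G.NoSink) (hex : ExistsList K G)
    (hm : ∀ v, X (m v) = ∑ x ∈ Finset.univ.filter (fun x => G.s x = v), m (G.r x))
    (v : Fin G.nV) : K0val X m hs hex hm (K0.cls (LPA.Pv K G v)) = m v := by
  have h1 : V.mk (LPA.Pv K G v) = lcls K G [(v, 0)] := by
    unfold lcls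
    rw [List.map_singleton, List.sum_singleton, ← V.shiftBy_mk, V.shiftBy_zero]
  unfold K0.cls
  rw [h1, K0val_of_lcls]
  unfold lval
  rw [List.map_singleton, List.sum_singleton, zpow_zero]
  rfl

theorem K0val_unit (hs : G.NoSink) (hex : ExistsList K G)
    (hm : ∀ v, X (m v) = ∑ x ∈ Finset.univ.filter (fun x => G.s x = v), m (G.r x)) :
    K0val X m hs hex hm (K0.unit (LPA.grRing K G)) = ∑ v, m v := by
  rw [LPA.unit_eq, map_sum]
  exact Finset.sum_congr rfl fun v _ => K0val_cls_Pv hs hex hm v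

theorem K0val_pos (hs : G.NoSink) (hex : ExistsList K G)
    (hm : ∀ v, X (m v) = ∑ x ∈ Finset.univ.filter (fun x => G.s x = v), m (G.r x)) (y : Λ) :
    (∃ z ∈ K0.pos (LPA.grRing K G), K0val X m hs hex hm z = y) ↔ ∃ l, lval G X m l = y := by
  constructor
  · rintro ⟨_, ⟨P, rfl⟩, rfl⟩
    obtain ⟨l, hl⟩ := hex P
    refine ⟨l, ?_⟩
    unfold K0.cls
    rw [hl, K0val_of_lcls]
  · rintro ⟨l, rfl⟩
    obtain ⟨P, hP⟩ : ∃ P, V.mk P = lcls K G l := Quotient.exists_rep _
    refine ⟨K0.cls P, ⟨P, rfl⟩, ?_⟩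
    unfold K0.cls
    rw [hP, K0val_of_lcls]

/-- A section of `K0val` on generators is a left inverse. -/
theorem K0val_left_inv (hs : G.NoSink) (hex : ExistsList K G)
    (hm : ∀ v, X (m v) = ∑ x ∈ Finset.univ.filter (fun x => G.s x = v), m (G.r x))
    (σ : Λ →+ K0 (LPA.grRing K G)) (hσ : ∀ z, σ (X z) = K0.shift (σ z))
    (hσm : ∀ v, σ (m v) = K0.cls (LPA.Pv K G v)) (z : K0 (LPA.grRing K G)) :
    σ (K0val X m hs hex hm z) = z := by
  have hσn : ∀ (n : ℕ) (y : Λ), σ ((X ^ n : Λ ≃ₗ[ℤ] Λ) y) = K0.shiftBy n (σ y) := by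
    intro n
    induction n with
    | zero => intro y; rw [pow_zero, Nat.cast_zero, K0.shiftBy_zero]; rfl
    | succ n ih =>
      intro y
      rw [pow_succ', LinearEquiv.mul_apply, hσ, ih, ← K0.shiftBy_one, K0.shiftBy_shiftBy]
      congr 2
      push_cast; ring
  have hσk : ∀ (k : ℤ) (y : Λ), σ ((X ^ k : Λ ≃ₗ[ℤ] Λ) y) = K0.shiftBy k (σ y) := by
    intro k y
    obtain ⟨n, rfl | rfl⟩ := Int.eq_nat_or_neg k
    · rw [zpow_natCast]; exact hσn n y
    · have h1 := hσn n ((X ^ (-(n : ℤ)) : Λ ≃ₗ[ℤ] Λ) y)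
      rw [← zpow_natCast, ← LinearEquiv.mul_apply, ← zpow_add, add_neg_cancel, zpow_zero] at h1
      have h2 := congrArg (K0.shiftBy (-(n : ℤ))) h1
      rw [K0.shiftBy_shiftBy, neg_add_cancel, K0.shiftBy_zero] at h2
      rw [← h2]
      rfl
  have : σ.comp (K0val X m hs hex hm) = AddMonoidHom.id _ := by
    apply K0.hom_ext
    intro c
    obtain ⟨l, rfl⟩ := exists_lcls hex c
    rw [AddMonoidHom.comp_apply, K0val_of_lcls]
    unfold lval lcls
    rw [map_list_sum, List.map_map, AddMonoidHom.id_apply, map_list_sum, List.map_map]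
    congr 1
    apply List.map_congr_left
    intro q _
    simp only [Function.comp_apply]
    rw [hσk, hσm, K0.shiftBy_cls]
    rfl
  exact DFunLike.congr_fun this z

end Lists

end Pool.Agent.GCC
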