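import Pool.Agent.GCC.Family

/-!
# Homogeneous components of Leavitt path algebras as unions of spans of paths;
# nonvanishing of the vertices
-/

open MulOpposite DirectSum

namespace Pool.Agent.GCC

universe u

namespace LPA

variable {K : Type u} [Field K] {G : FinGraph}

/-- A word with `a` edges and `b` ghost edges lies in `M a b`. -/
theorem word_mem (h : G.NoSink) (w : List (Gen G)) : ∃ a b : ℕ,
    ((a : ℤ) - b = (w.map Gen.deg).sum) ∧ (w.map (gen K G)).prod ∈ (family K G).M K a b := by
  induction w with
  | nil =>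
    refine ⟨0, 0, by simp, ?_⟩
    rw [CKFamily.M_zero]
    exact (family K G).one_mem_P0 K
  | cons x w ih =>
    obtain ⟨a, b, hab, hw⟩ := ih
    have key : ∃ c d : ℕ, ((c : ℤ) - d = x.deg) ∧ gen K G x ∈ (family K G).M K c d := by
      cases x with
      | v v =>
        refine ⟨0, 0, by simp [Gen.deg], ?_⟩
        rw [CKFamily.M_zero]
        exact (family K G).p_mem K v
      | e x =>
        refine ⟨1, 0, by simp [Gen.deg], ?_⟩
        unfold CKFamily.M
        rw [pow_one, pow_zero, mul_one, CKFamily.X_mul_P0]
        exact (family K G).e_mem K x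
      | g x =>
        refine ⟨0, 1, by simp [Gen.deg], ?_⟩
        unfold CKFamily.M
        rw [pow_one, pow_zero, one_mul, CKFamily.P0_mul_Xs]
        exact (family K G).g_mem K x
    obtain ⟨c, d, hcd, hx⟩ := key
    refine ⟨c + a, d + b, ?_, ?_⟩
    · simp only [List.map_cons, List.sum_cons, ← hab, ← hcd]
      push_cast; ring
    · simp only [List.map_cons, List.prod_cons]
      exact (family K G).M_mul_M_le' K h c d a b (Submodule.mul_mem_mul hx hw)

/-- Every homogeneous element of degree `n` lies in `M a b` for all large `a - b = n`. -/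
theorem mem_M_of_mem_gr (h : G.NoSink) {n : ℤ} {x : LPA K G} (hx : x ∈ gr K G n) :
    ∃ N : ℕ, ∀ a b : ℕ, (a : ℤ) - b = n → N ≤ b → x ∈ (family K G).M K a b := by
  induction hx using Submodule.span_induction with
  | mem x hx =>
    obtain ⟨w, hw, rfl⟩ := hx
    obtain ⟨a, b, hab, hm⟩ := word_mem (K := K) h w
    refine ⟨b, fun c d hcd hbd => ?_⟩
    obtain ⟨k, rfl⟩ := Nat.exists_eq_add_of_le hbd
    have : c = a + k := by omega
    subst this
    exact (family K G).M_le_add K h a b k hm
  | zero => exact ⟨0, fun a b _ _ => Submodule.zero_mem _⟩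
  | add x y _ _ hx hy =>
    obtain ⟨N, hN⟩ := hx
    obtain ⟨N', hN'⟩ := hy
    exact ⟨max N N', fun a b hab hb => Submodule.add_mem _ (hN a b hab (by omega))
      (hN' a b hab (by omega))⟩
  | smul c x _ hx =>
    obtain ⟨N, hN⟩ := hx
    exact ⟨N, fun a b hab hb => Submodule.smul_mem _ _ (hN a b hab hb)⟩

theorem M_le_gr (a b : ℕ) : (family K G).M K a b ≤ gr K G ((a : ℤ) - b) := by
  have hX : (family K G).X K ≤ gr K G 1 := by
    unfold CKFamily.X
    rw [Submodule.span_le]
    rintro _ ⟨x, rfl⟩
    exact gen_mem_gr (.e x)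
  have hXs : (family K G).Xs K ≤ gr K G (-1) := by
    unfold CKFamily.Xs
    rw [Submodule.span_le]
    rintro _ ⟨x, rfl⟩
    exact gen_mem_gr (.g x)
  have hP : (family K G).P0 K ≤ gr K G 0 := by
    unfold CKFamily.P0
    rw [Submodule.span_le]
    rintro _ ⟨x, rfl⟩
    exact gen_mem_gr (.v x)
  have hmul : ∀ i j : ℤ, gr K G i * gr K G j ≤ gr K G (i + j) := fun i j => by
    rw [Submodule.mul_le]
    intro x hx y hy
    exact mul_mem_gr hx hy
  have hXa : (family K G).X K ^ a ≤ gr K G a := by
    induction a with
    | zero =>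
      rw [pow_zero, Submodule.one_le]
      exact one_mem_gr
    | succ a ih =>
      rw [pow_succ]
      refine (mul_le_mul' ih hX).trans ?_
      have := hmul a 1
      push_cast
      exact this
  have hXb : (family K G).Xs K ^ b ≤ gr K G (-(b : ℤ)) := by
    induction b with
    | zero =>
      rw [pow_zero, Submodule.one_le]
      simpa using one_mem_gr
    | succ b ih =>
      rw [pow_succ]
      refine (mul_le_mul' ih hXs).trans ?_
      have := hmul (-(b : ℤ)) (-1)
      push_cast
      rw [show -((b : ℤ) + 1) = -(b : ℤ) + -1 by ring]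
      exact this
  unfold CKFamily.M
  refine (mul_le_mul' (mul_le_mul' hXa hP) hXb).trans ?_
  refine (mul_le_mul' (hmul _ _) le_rfl).trans ?_
  refine (hmul _ _).trans ?_
  rw [add_zero, sub_eq_add_neg]

theorem lv_le_gr (k : ℕ) : (family K G).lv K k ≤ gr K G 0 := by
  have := M_le_gr (K := K) (G := G) k k
  rwa [sub_self] at this

end LPA

section InfPath

variable (G : FinGraph)

/-- Infinite paths. -/
def InfPath : Type := {f : ℕ → Fin G.nE // ∀ i, G.r (f i) = G.s (f (i + 1))}

variable {G}

/-- Shift of an infinite path. -/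
def InfPath.tail (f : InfPath G) : InfPath G := ⟨fun i => f.1 (i + 1), fun i => f.2 (i + 1)⟩

/-- Prepending an edge. -/
def InfPath.cons (x : Fin G.nE) (f : InfPath G) (h : G.r x = G.s (f.1 0)) : InfPath G :=
  ⟨fun i => match i with
    | 0 => x
    | i + 1 => f.1 i, fun i => by
      cases i with
      | zero => exact h
      | succ i => exact f.2 i⟩

theorem InfPath.cons_tail (f : InfPath G) :
    InfPath.cons (f.1 0) f.tail (f.2 0) = f := by
  apply Subtype.ext
  funext i
  cases i <;> rfl

theorem InfPath.exists_of_noSink (h : G.NoSink) (v : Fin G.nV) :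
    ∃ f : InfPath G, G.s (f.1 0) = v := by
  choose nx hnx using h
  let st : ℕ → Fin G.nV := fun n => Nat.rec v (fun _ w => G.r (nx w)) n
  refine ⟨⟨fun n => nx (st n), fun i => ?_⟩, ?_⟩
  · rw [hnx]
  · change G.s (nx v) = v
    exact hnx v

variable (K : Type u) [Field K]

open Classical in
/-- The representation on functions of infinite paths. -/
noncomputable def pathFamily (_h : G.NoSink) : CKFamily G (Module.End K (InfPath G → K)) where
  p v :=
    { toFun := fun φ f => if G.s (f.1 0) = v then φ f else 0
      map_add' := fun φ ψ => by funext f; by_cases hf : G.s (f.1 0) = v <;> simp [hf]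
      map_smul' := fun c φ => by funext f; by_cases hf : G.s (f.1 0) = v <;> simp [hf] }
  e x :=
    { toFun := fun φ f => if f.1 0 = x then φ f.tail else 0
      map_add' := fun φ ψ => by funext f; by_cases hf : f.1 0 = x <;> simp [hf]
      map_smul' := fun c φ => by funext f; by_cases hf : f.1 0 = x <;> simp [hf] }
  g x :=
    { toFun := fun φ f => if hf : G.r x = G.s (f.1 0) then φ (InfPath.cons x f hf) else 0
      map_add' := fun φ ψ => by funext f; by_cases hf : G.r x = G.s (f.1 0) <;> simp [hf]
      map_smul' := fun c φ => by funext f; by_cases hf : G.r x = G.s (f.1 0) <;> simp [hf] }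
  pp_self v := by
    ext φ f
    simp only [Module.End.mul_apply, LinearMap.coe_mk, AddHom.coe_mk]
    by_cases hf : G.s (f.1 0) = v <;> simp [hf]
  pp_ne v w hvw := by
    ext φ f
    simp only [Module.End.mul_apply, LinearMap.coe_mk, AddHom.coe_mk, LinearMap.zero_apply,
      Pi.zero_apply]
    by_cases hf : G.s (f.1 0) = v
    · have : ¬ G.s (f.1 0) = w := fun h => hvw (hf.symm.trans h)
      simp [this]
    · simp [hf]
  sum_p := by
    ext φ f
    simp [LinearMap.sum_apply]
  se x := by
    ext φ f
    simp only [Module.End.mul_apply, LinearMap.coe_mk, AddHom.coe_mk]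
    by_cases hf : f.1 0 = x <;> simp [hf]
  er x := by
    ext φ f
    simp only [Module.End.mul_apply, LinearMap.coe_mk, AddHom.coe_mk]
    by_cases hf : f.1 0 = x
    · have : G.s (f.tail.1 0) = G.r x := by
        rw [← hf]; exact (f.2 0).symm
      simp [hf, this]
    · simp [hf]
  rg x := by
    ext φ f
    simp only [Module.End.mul_apply, LinearMap.coe_mk, AddHom.coe_mk]
    by_cases hf : G.s (f.1 0) = G.r x
    · simp [hf]
    · simp [hf, Ne.symm hf]
  gs x := by
    ext φ f
    simp only [Module.End.mul_apply, LinearMap.coe_mk, AddHom.coe_mk]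
    by_cases hf : G.r x = G.s (f.1 0)
    · simp [hf, InfPath.cons]
    · simp [hf]
  ge_self x := by
    ext φ f
    simp only [Module.End.mul_apply, LinearMap.coe_mk, AddHom.coe_mk]
    by_cases hf : G.r x = G.s (f.1 0)
    · have h2 : (InfPath.cons x f hf).tail = f := Subtype.ext (funext fun i => rfl)
      simp only [hf, dif_pos, h2]
      simp [InfPath.cons]
    · simp [hf, Ne.symm hf]
  ge_ne x y hxy := by
    ext φ f
    simp only [Module.End.mul_apply, LinearMap.coe_mk, AddHom.coe_mk, LinearMap.zero_apply,
      Pi.zero_apply]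
    by_cases hf : G.r x = G.s (f.1 0)
    · simp [hf, InfPath.cons, hxy]
    · simp [hf]
  ck2 v hv := by
    ext φ f
    simp only [LinearMap.coe_mk, AddHom.coe_mk, LinearMap.sum_apply, Finset.sum_apply,
      Module.End.mul_apply]
    have h3 : ∀ x : Fin G.nE, (if f.1 0 = x then
        (if hf : G.r x = G.s (f.tail.1 0) then φ (InfPath.cons x f.tail hf) else 0) else 0) =
        if f.1 0 = x then φ f else 0 := by
      intro x
      split_ifs with h1 h2
      · subst h1; rw [InfPath.cons_tail]
      · subst h1; exact absurd (f.2 0) h2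
      · rfl
    rw [Finset.sum_congr rfl (fun x _ => h3 x), Finset.sum_ite_eq]
    simp

theorem LPA.family_p_ne_zero (h : G.NoSink) (v : Fin G.nV) : (LPA.family K G).p v ≠ 0 := by
  intro h0
  have h1 : LPA.lift (pathFamily K h) ((LPA.family K G).p v) = 0 := by rw [h0, map_zero]
  rw [LPA.lift_p] at h1
  obtain ⟨f, hf⟩ := InfPath.exists_of_noSink h v
  have h2 := congrArg (fun T : Module.End K (InfPath G → K) => T (fun _ => 1) f) h1
  simp [pathFamily, hf] at h2

end InfPath

end Pool.Agent.GCC
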