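import Pool.Agent.GCC.Tower
import Pool.Agent.GCC.ChainDef

/-!
# Two Cuntz-Krieger families at finite distance give a chain of elementary equivalences
-/

open Matrix

namespace Pool.Agent.GCC

section

variable {K : Type*} [Field K] {G H : FinGraph} {L : Type*} [Ring L] [Algebra K L]
  {x : CKFamily G L} {y : CKFamily H L}

theorem one_le_X_Xs (hs : G.NoSink) : (1 : Submodule K L) ≤ x.X K * x.Xs K :=
  (x.one_le_P0 K).trans (x.P0_le_X_mul_Xs K hs)

theorem one_le_Xs_X (hr : G.NoSource) : (1 : Submodule K L) ≤ x.Xs K * x.X K :=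
  (x.one_le_P0 K).trans (x.P0_le_Xs_mul_X K hr)

theorem X_mul_lv_le (hr : G.NoSource) (k : ℕ) :
    x.X K * x.lv K k ≤ x.lv K (k + 1) * x.X K := by
  calc x.X K * x.lv K k = x.X K * x.lv K k * 1 := (mul_one _).symm
    _ ≤ x.X K * x.lv K k * (x.Xs K * x.X K) := smR (one_le_Xs_X hr)
    _ = _ := by rw [x.lv_succ]; simp only [mul_assoc]

theorem lv_mul_X_le (hs : G.NoSink) (k : ℕ) :
    x.lv K (k + 1) * x.X K ≤ x.X K * x.lv K k := by
  calc x.lv K (k + 1) * x.X K = x.X K * (x.lv K k * (x.Xs K * x.X K)) := by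
        rw [x.lv_succ]; simp only [mul_assoc]
    _ ≤ x.X K * (x.lv K k * x.lv K k) :=
        smR (smR ((x.Xs_mul_X_le K).trans (x.P0_le_lv K hs k)))
    _ ≤ _ := smR (x.lv_mul_lv_le K k)

/-- The hypotheses: the two families are at finite distance. -/
structure Near (K : Type*) [Field K] {G H : FinGraph} {L : Type*} [Ring L] [Algebra K L]
    (x : CKFamily G L) (y : CKFamily H L) (k : ℕ) : Prop where
  hs : G.NoSink
  hr : G.NoSource
  hs' : H.NoSink
  hr' : H.NoSource
  h1 : y.P0 K ≤ x.lv K k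
  h2 : y.Xs K * x.X K ≤ x.lv K k
  h3 : x.Xs K * y.X K ≤ x.lv K k

variable {k : ℕ}

theorem Near.Y_le (h : Near K x y k) : y.X K ≤ x.X K * x.lv K k := by
  calc y.X K = 1 * y.X K := (one_mul _).symm
    _ ≤ x.X K * x.Xs K * y.X K := smL (one_le_X_Xs h.hs)
    _ = x.X K * (x.Xs K * y.X K) := mul_assoc _ _ _
    _ ≤ _ := smR h.h3

theorem Near.X_le (h : Near K x y k) : x.X K ≤ y.X K * x.lv K k := by
  calc x.X K = 1 * x.X K := (one_mul _).symm
    _ ≤ y.X K * y.Xs K * x.X K := smL (one_le_X_Xs h.hs')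
    _ = y.X K * (y.Xs K * x.X K) := mul_assoc _ _ _
    _ ≤ _ := smR h.h2

theorem Near.X_Ys (h : Near K x y k) : x.X K * y.Xs K ≤ x.lv K (k + 1) := by
  calc x.X K * y.Xs K = x.X K * y.Xs K * 1 := (mul_one _).symm
    _ ≤ x.X K * y.Xs K * (x.X K * x.Xs K) := smR (one_le_X_Xs h.hs)
    _ = x.X K * (y.Xs K * x.X K) * x.Xs K := by simp only [mul_assoc]
    _ ≤ x.X K * x.lv K k * x.Xs K := smL (smR h.h2)
    _ = _ := (x.lv_succ K k).symm

theorem Near.Y_Xs (h : Near K x y k) : y.X K * x.Xs K ≤ x.lv K (k + 1) := by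
  calc y.X K * x.Xs K = 1 * (y.X K * x.Xs K) := (one_mul _).symm
    _ ≤ x.X K * x.Xs K * (y.X K * x.Xs K) := smL (one_le_X_Xs h.hs)
    _ = x.X K * (x.Xs K * y.X K) * x.Xs K := by simp only [mul_assoc]
    _ ≤ x.X K * x.lv K k * x.Xs K := smL (smR h.h3)
    _ = _ := (x.lv_succ K k).symm

theorem Near.X_le' (h : Near K x y k) : x.X K ≤ x.lv K (k + 1) * y.X K := by
  calc x.X K = x.X K * 1 := (mul_one _).symm
    _ ≤ x.X K * (y.Xs K * y.X K) := smR (one_le_Xs_X h.hr')
    _ = x.X K * y.Xs K * y.X K := (mul_assoc _ _ _).symm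
    _ ≤ _ := smL h.X_Ys

theorem Near.Y_le' (h : Near K x y k) : y.X K ≤ x.lv K (k + 1) * x.X K := by
  calc y.X K = y.X K * 1 := (mul_one _).symm
    _ ≤ y.X K * (x.Xs K * x.X K) := smR (one_le_Xs_X h.hr)
    _ = y.X K * x.Xs K * x.X K := (mul_assoc _ _ _).symm
    _ ≤ _ := smL h.Y_Xs

/-- `D i`. -/
def Near.D (h : Near K x y k) (i : ℕ) : Subalgebra K L := x.lvAlg K h.hs k ⊔ y.lvAlg K h.hs' i

/-- `D' i`. -/
def Near.D' (h : Near K x y k) (i : ℕ) : Subalgebra K L :=
  x.lvAlg K h.hs (k + 1) ⊔ y.lvAlg K h.hs' (i + 1)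

theorem Near.lv_le (h : Near K x y k) (i : ℕ) : x.lvAlg K h.hs k ≤ h.D i := le_sup_left

theorem Near.lvx_le_D (h : Near K x y k) (i : ℕ) : x.lv K k ≤ Subalgebra.toSubmodule (h.D i) :=
  fun _ hd => (h.lv_le i) hd

theorem Near.lvy_le_D (h : Near K x y k) (i : ℕ) : y.lv K i ≤ Subalgebra.toSubmodule (h.D i) :=
  fun _ hd => (le_sup_right : y.lvAlg K h.hs' i ≤ h.D i) hd

theorem Near.lvx_le_D' (h : Near K x y k) (i : ℕ) :
    x.lv K (k + 1) ≤ Subalgebra.toSubmodule (h.D' i) :=
  fun _ hd => (le_sup_left : x.lvAlg K h.hs (k + 1) ≤ h.D' i) hd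

theorem Near.lvy_le_D' (h : Near K x y k) (i : ℕ) :
    y.lv K (i + 1) ≤ Subalgebra.toSubmodule (h.D' i) :=
  fun _ hd => (le_sup_right : y.lvAlg K h.hs' (i + 1) ≤ h.D' i) hd

theorem alg_mul_le (S : Subalgebra K L) :
    Subalgebra.toSubmodule S * Subalgebra.toSubmodule S ≤ Subalgebra.toSubmodule S := by
  rw [Submodule.mul_le]
  intro a ha b hb
  exact S.mul_mem ha hb

theorem Near.up_aux (h : Near K x y k) (i : ℕ) :
    ∀ d ∈ h.D i, ∀ z ∈ x.X K, z * d ∈ Subalgebra.toSubmodule (h.D' i) * x.X K := by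
  let S : Subalgebra K L :=
    { carrier := {d | ∀ z ∈ x.X K, z * d ∈ Subalgebra.toSubmodule (h.D' i) * x.X K}
      mul_mem' := by
        intro d d' hd hd' z hz
        rw [← mul_assoc]
        refine Submodule.mul_induction_on (hd z hz) ?_ ?_
        · intro a ha w hw
          rw [mul_assoc]
          have h1 : a * (w * d') ∈ Subalgebra.toSubmodule (h.D' i) *
            (Subalgebra.toSubmodule (h.D' i) * x.X K) := Submodule.mul_mem_mul ha (hd' w hw)
          rw [← mul_assoc] at h1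
          exact smL (alg_mul_le _) h1
        · intro a b ha hb
          rw [add_mul]
          exact Submodule.add_mem _ ha hb
      add_mem' := by
        intro a b ha hb z hz
        rw [mul_add]
        exact Submodule.add_mem _ (ha z hz) (hb z hz)
      algebraMap_mem' := by
        intro c z hz
        rw [← Algebra.commutes, ← Algebra.smul_def]
        have h1 : (1 : L) * (c • z) ∈ Subalgebra.toSubmodule (h.D' i) * x.X K :=
          Submodule.mul_mem_mul (h.D' i).one_mem ((x.X K).smul_mem c hz)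
        rwa [one_mul] at h1 }
  have hS : h.D i ≤ S := by
    refine sup_le ?_ ?_
    · intro d hd z hz
      have h1 : z * d ∈ x.X K * x.lv K k := Submodule.mul_mem_mul hz hd
      exact smL (h.lvx_le_D' i) (X_mul_lv_le h.hr k h1)
    · intro d hd z hz
      have h1 : z * d ∈ x.X K * y.lv K i := Submodule.mul_mem_mul hz hd
      have h2 : x.X K * y.lv K i ≤ Subalgebra.toSubmodule (h.D' i) * x.X K := by
        calc x.X K * y.lv K i ≤ x.lv K (k + 1) * y.X K * y.lv K i := smL h.X_le'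
          _ = x.lv K (k + 1) * (y.X K * y.lv K i) := mul_assoc _ _ _
          _ ≤ x.lv K (k + 1) * (y.lv K (i + 1) * y.X K) := smR (X_mul_lv_le h.hr' i)
          _ ≤ x.lv K (k + 1) * (y.lv K (i + 1) * (x.lv K (k + 1) * x.X K)) :=
              smR (smR h.Y_le')
          _ ≤ Subalgebra.toSubmodule (h.D' i) * (Subalgebra.toSubmodule (h.D' i) *
                (Subalgebra.toSubmodule (h.D' i) * x.X K)) :=
              mul_le_mul' (h.lvx_le_D' i) (mul_le_mul' (h.lvy_le_D' i)
                (mul_le_mul' (h.lvx_le_D' i) le_rfl))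
          _ = Subalgebra.toSubmodule (h.D' i) * Subalgebra.toSubmodule (h.D' i) *
                Subalgebra.toSubmodule (h.D' i) * x.X K := by simp only [mul_assoc]
          _ ≤ Subalgebra.toSubmodule (h.D' i) * Subalgebra.toSubmodule (h.D' i) * x.X K :=
              smL (smL (alg_mul_le _))
          _ ≤ _ := smL (alg_mul_le _)
      exact h2 h1
  exact hS

theorem Near.down_aux (h : Near K x y k) (i : ℕ) :
    ∀ a ∈ h.D' i, ∀ z ∈ x.X K, a * z ∈ x.X K * Subalgebra.toSubmodule (h.D i) := by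
  let S : Subalgebra K L :=
    { carrier := {a | ∀ z ∈ x.X K, a * z ∈ x.X K * Subalgebra.toSubmodule (h.D i)}
      mul_mem' := by
        intro a a' ha ha' z hz
        rw [mul_assoc]
        refine Submodule.mul_induction_on (ha' z hz) ?_ ?_
        · intro w hw d hd
          rw [← mul_assoc]
          have h1 : a * w * d ∈ x.X K * Subalgebra.toSubmodule (h.D i) *
            Subalgebra.toSubmodule (h.D i) := Submodule.mul_mem_mul (ha w hw) hd
          rw [mul_assoc] at h1
          exact smR (alg_mul_le _) h1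
        · intro a b ha hb
          rw [mul_add]
          exact Submodule.add_mem _ ha hb
      add_mem' := by
        intro a b ha hb z hz
        rw [add_mul]
        exact Submodule.add_mem _ (ha z hz) (hb z hz)
      algebraMap_mem' := by
        intro c z hz
        rw [← Algebra.smul_def]
        have h1 : (c • z) * (1 : L) ∈ x.X K * Subalgebra.toSubmodule (h.D i) :=
          Submodule.mul_mem_mul ((x.X K).smul_mem c hz) (h.D i).one_mem
        rwa [mul_one] at h1 }
  have hS : h.D' i ≤ S := by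
    refine sup_le ?_ ?_
    · intro d hd z hz
      have h1 : d * z ∈ x.lv K (k + 1) * x.X K := Submodule.mul_mem_mul hd hz
      exact smR (h.lvx_le_D i) (lv_mul_X_le h.hs k h1)
    · intro d hd z hz
      have h1 : d * z ∈ y.lv K (i + 1) * x.X K := Submodule.mul_mem_mul hd hz
      have h2 : y.lv K (i + 1) * x.X K ≤ x.X K * Subalgebra.toSubmodule (h.D i) := by
        calc y.lv K (i + 1) * x.X K ≤ y.lv K (i + 1) * (y.X K * x.lv K k) := smR h.X_le
          _ = y.lv K (i + 1) * y.X K * x.lv K k := (mul_assoc _ _ _).symm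
          _ ≤ y.X K * y.lv K i * x.lv K k := smL (lv_mul_X_le h.hs' i)
          _ ≤ x.X K * x.lv K k * y.lv K i * x.lv K k := smL (smL h.Y_le)
          _ ≤ x.X K * Subalgebra.toSubmodule (h.D i) * Subalgebra.toSubmodule (h.D i) *
                Subalgebra.toSubmodule (h.D i) :=
              mul_le_mul' (mul_le_mul' (mul_le_mul' le_rfl (h.lvx_le_D i)) (h.lvy_le_D i))
                (h.lvx_le_D i)
          _ = x.X K * (Subalgebra.toSubmodule (h.D i) * Subalgebra.toSubmodule (h.D i) *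
                Subalgebra.toSubmodule (h.D i)) := by simp only [mul_assoc]
          _ ≤ x.X K * (Subalgebra.toSubmodule (h.D i) * Subalgebra.toSubmodule (h.D i)) :=
              smR (smL (alg_mul_le _))
          _ ≤ _ := smR (alg_mul_le _)
      exact h2 h1
  exact hS

theorem Near.P0x_le (h : Near K x y k) (i : ℕ) :
    x.P0 K ≤ Subalgebra.toSubmodule (h.D i) := (x.P0_le_lv K h.hs k).trans (h.lvx_le_D i)

theorem Near.sh (h : Near K x y k) (i : ℕ) : Sh x (h.D i) (h.D' i) where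
  up d hd e e' := by
    have h1 : x.e e * d * x.g e' ∈ Subalgebra.toSubmodule (h.D' i) * x.X K * x.Xs K :=
      Submodule.mul_mem_mul (h.up_aux i d hd _ (x.e_mem K e)) (x.g_mem K e')
    have h2 : Subalgebra.toSubmodule (h.D' i) * x.X K * x.Xs K ≤
        Subalgebra.toSubmodule (h.D' i) := by
      rw [mul_assoc]
      have h3 : x.X K * x.Xs K ≤ Subalgebra.toSubmodule (h.D' i) := by
        have h4 : x.X K * x.Xs K = x.lv K 1 := by
          rw [x.lv_succ, x.lv_zero, x.X_mul_P0]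
        rw [h4]
        exact (x.lv_mono K h.hs (by omega)).trans (h.lvx_le_D' i)
      exact (smR h3).trans (alg_mul_le _)
    exact h2 h1
  down a ha e e' := by
    rw [mul_assoc]
    have h1 : x.g e * (a * x.e e') ∈ x.Xs K * (x.X K * Subalgebra.toSubmodule (h.D i)) :=
      Submodule.mul_mem_mul (x.g_mem K e) (h.down_aux i a ha _ (x.e_mem K e'))
    have h2 : x.Xs K * (x.X K * Subalgebra.toSubmodule (h.D i)) ≤
        Subalgebra.toSubmodule (h.D i) := by
      rw [← mul_assoc]
      exact (smL ((x.Xs_mul_X_le K).trans (h.P0x_le i))).trans (alg_mul_le _)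
    exact h2 h1

theorem Near.cross (h : Near K x y k) (i : ℕ) (a : L) (ha : a ∈ h.D' i) (f : Fin H.nE)
    (e : Fin G.nE) : y.g f * a * x.e e ∈ h.D i := by
  rw [mul_assoc]
  have h1 : y.g f * (a * x.e e) ∈ y.Xs K * (x.X K * Subalgebra.toSubmodule (h.D i)) :=
    Submodule.mul_mem_mul (y.g_mem K f) (h.down_aux i a ha _ (x.e_mem K e))
  have h2 : y.Xs K * (x.X K * Subalgebra.toSubmodule (h.D i)) ≤
      Subalgebra.toSubmodule (h.D i) := by
    rw [← mul_assoc]
    exact (smL (h.h2.trans (h.lvx_le_D i))).trans (alg_mul_le _)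
  exact h2 h1

theorem Near.ge_mem (h : Near K x y k) (i : ℕ) (f : Fin H.nE)
    (e : Fin G.nE) : x.g e * y.e f ∈ h.D i :=
  h.lvx_le_D i (h.h3 (Submodule.mul_mem_mul (x.g_mem K e) (y.e_mem K f)))

theorem Near.downy (h : Near K x y k) (i : ℕ) (a : L) (ha : a ∈ h.D' i) (f f' : Fin H.nE) :
    y.g f * a * y.e f' ∈ h.D i := by
  have h1 : y.g f * a * y.e f' = ∑ e, (y.g f * a * x.e e) * (x.g e * y.e f') := by
    calc y.g f * a * y.e f' = y.g f * a * (∑ e, x.e e * x.g e) * y.e f' := by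
          rw [x.sum_eg h.hs, mul_one]
      _ = _ := by
          rw [Finset.mul_sum, Finset.sum_mul]
          exact Finset.sum_congr rfl fun e _ => by simp only [mul_assoc]
  rw [h1]
  exact (h.D i).sum_mem fun e _ => (h.D i).mul_mem (h.cross i a ha f e) (h.ge_mem i f' e)

theorem Near.om_eq (h : Near K x y k) (i : ℕ) {τ : h.D i →ₗ[K] K} (hτ : τ ∈ Ch K (h.D i))
    (a : h.D' i) : (h.sh i).om τ a = ∑ f, τ ⟨y.g f * a.1 * y.e f, h.downy i a.1 a.2 f f⟩ := by
  rw [Sh.om_apply]
  have h1 : ∀ e, τ ⟨x.g e * a.1 * x.e e, (h.sh i).down a.1 a.2 e e⟩ =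
      ∑ f, τ ⟨(y.g f * a.1 * x.e e) * (x.g e * y.e f),
        (h.D i).mul_mem (h.cross i a.1 a.2 f e) (h.ge_mem i f e)⟩ := by
    intro e
    have h2 : (⟨x.g e * a.1 * x.e e, (h.sh i).down a.1 a.2 e e⟩ : h.D i) =
        ∑ f, ⟨(x.g e * y.e f) * (y.g f * a.1 * x.e e),
          (h.D i).mul_mem (h.ge_mem i f e) (h.cross i a.1 a.2 f e)⟩ := by
      apply Subtype.ext
      rw [AddSubmonoidClass.coe_finsetSum]
      calc x.g e * a.1 * x.e e = x.g e * (∑ f, y.e f * y.g f) * (a.1 * x.e e) := by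
            rw [y.sum_eg h.hs', mul_one, mul_assoc]
        _ = _ := by
            rw [Finset.mul_sum, Finset.sum_mul]
            exact Finset.sum_congr rfl fun e _ => by simp only [mul_assoc]
    rw [h2, map_sum]
    refine Finset.sum_congr rfl fun f _ => ?_
    exact Ch.tr' hτ _ _ (h.ge_mem i f e) (h.cross i a.1 a.2 f e) _ _
  rw [Finset.sum_congr rfl (fun e _ => h1 e), Finset.sum_comm]
  refine Finset.sum_congr rfl fun f _ => ?_
  rw [← map_sum]
  congr 1
  apply Subtype.ext
  rw [AddSubmonoidClass.coe_finsetSum]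
  symm
  calc y.g f * a.1 * y.e f = y.g f * a.1 * (∑ e, x.e e * x.g e) * y.e f := by
        rw [x.sum_eg h.hs, mul_one]
    _ = _ := by
        rw [Finset.mul_sum, Finset.sum_mul]
        exact Finset.sum_congr rfl fun e _ => by simp only [mul_assoc]

theorem Near.D_mono (h : Near K x y k) (i : ℕ) : h.D i ≤ h.D (i + 1) :=
  sup_le_sup le_rfl (lvAlg_mono y h.hs' (Nat.le_succ i))

theorem Near.D_le_D' (h : Near K x y k) (i : ℕ) : h.D (i + 1) ≤ h.D' i :=
  sup_le_sup (lvAlg_mono x h.hs (Nat.le_succ k)) le_rfl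

theorem Near.D'_mono (h : Near K x y k) (i : ℕ) : h.D' i ≤ h.D' (i + 1) :=
  sup_le_sup le_rfl (lvAlg_mono y h.hs' (Nat.le_succ (i + 1)))


end

end Pool.Agent.GCC
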