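import Pool.Agent.GCC.NearDef
import Pool.Agent.GCC.LPAFacts

/-!
# A graded isomorphism gives two Cuntz-Krieger families at finite distance
-/

open Matrix

namespace Pool.Agent.GCC

universe u

section map

variable {G : FinGraph} {L0 L : Type*} [Ring L0] [Ring L]

theorem CKFamily.eq_of {x y : CKFamily G L} (hp : x.p = y.p) (he : x.e = y.e) (hg : x.g = y.g) :
    x = y := by
  cases x; cases y
  simp only at hp he hg
  subst hp; subst he; subst hg
  rfl

/-- Image of a Cuntz-Krieger family under a ring homomorphism. -/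
def CKFamily.map (x : CKFamily G L0) (φ : L0 →+* L) : CKFamily G L where
  p v := φ (x.p v)
  e v := φ (x.e v)
  g v := φ (x.g v)
  pp_self v := by rw [← map_mul, x.pp_self]
  pp_ne v w h := by rw [← map_mul, x.pp_ne v w h, map_zero]
  sum_p := by rw [← map_sum, x.sum_p, map_one]
  se v := by rw [← map_mul, x.se]
  er v := by rw [← map_mul, x.er]
  rg v := by rw [← map_mul, x.rg]
  gs v := by rw [← map_mul, x.gs]
  ge_self v := by rw [← map_mul, x.ge_self]
  ge_ne v w h := by rw [← map_mul, x.ge_ne v w h, map_zero]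
  ck2 v h := by
    rw [x.ck2 v h, map_sum]
    exact Finset.sum_congr rfl fun _ _ => map_mul _ _ _

variable {k0 K : Type*} [Field k0] [Field K] [Algebra k0 K] [Algebra k0 L0] [Algebra K L]

/-- Preimage of a `K`-submodule under a semilinear ring homomorphism. -/
def cm (φ : L0 →+* L) (hφ : ∀ (c : k0) (a : L0), φ (c • a) = algebraMap k0 K c • φ a)
    (T : Submodule K L) : Submodule k0 L0 where
  carrier := {z | φ z ∈ T}
  zero_mem' := by
    change φ 0 ∈ T
    rw [map_zero]; exact T.zero_mem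
  add_mem' := by
    intro a b ha hb
    change φ (a + b) ∈ T
    rw [map_add]; exact T.add_mem ha hb
  smul_mem' := by
    intro c a ha
    change φ (c • a) ∈ T
    rw [hφ]; exact T.smul_mem _ ha

theorem cm_mul (φ : L0 →+* L) (hφ : ∀ (c : k0) (a : L0), φ (c • a) = algebraMap k0 K c • φ a)
    (S T : Submodule K L) : cm φ hφ S * cm φ hφ T ≤ cm φ hφ (S * T) := by
  rw [Submodule.mul_le]
  intro a ha b hb
  change φ (a * b) ∈ S * T
  rw [map_mul]
  exact Submodule.mul_mem_mul ha hb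

theorem map_M (x : CKFamily G L0) (φ : L0 →+* L)
    (hφ : ∀ (c : k0) (a : L0), φ (c • a) = algebraMap k0 K c • φ a) (a b : ℕ) {z : L0}
    (hz : z ∈ x.M k0 a b) : φ z ∈ (x.map φ).M K a b := by
  have h1 : x.X k0 ≤ cm φ hφ ((x.map φ).X K) := by
    unfold CKFamily.X
    rw [Submodule.span_le]
    rintro _ ⟨v, rfl⟩
    exact Submodule.subset_span ⟨v, rfl⟩
  have h2 : x.Xs k0 ≤ cm φ hφ ((x.map φ).Xs K) := by
    unfold CKFamily.Xs
    rw [Submodule.span_le]
    rintro _ ⟨v, rfl⟩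
    exact Submodule.subset_span ⟨v, rfl⟩
  have h3 : x.P0 k0 ≤ cm φ hφ ((x.map φ).P0 K) := by
    unfold CKFamily.P0
    rw [Submodule.span_le]
    rintro _ ⟨v, rfl⟩
    exact Submodule.subset_span ⟨v, rfl⟩
  have h4 : ∀ (S : Submodule k0 L0) (T : Submodule K L), S ≤ cm φ hφ T →
      ∀ n : ℕ, S ^ n ≤ cm φ hφ (T ^ n) := by
    intro S T hST n
    induction n with
    | zero =>
      rw [pow_zero, pow_zero, Submodule.one_le]
      change φ 1 ∈ (1 : Submodule K L)
      rw [map_one]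
      exact Submodule.one_le.mp le_rfl
    | succ n ih =>
      rw [pow_succ, pow_succ]
      exact (mul_le_mul' ih hST).trans (cm_mul φ hφ _ _)
  have h5 : x.M k0 a b ≤ cm φ hφ ((x.map φ).M K a b) := by
    unfold CKFamily.M
    exact (mul_le_mul' ((mul_le_mul' (h4 _ _ h1 a) h3).trans (cm_mul φ hφ _ _))
      (h4 _ _ h2 b)).trans (cm_mul φ hφ _ _)
  exact h5 hz

end map

section ext

variable (k0 K : Type u) [Field k0] [Field K] [Algebra k0 K] (H : FinGraph)

theorem LPA.exists_ext : ∃ φ : LPA k0 H →+* LPA K H,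
    (∀ (c : k0) (a : LPA k0 H), φ (c • a) = algebraMap k0 K c • φ a) ∧
    (LPA.family k0 H).map φ = LPA.family K H := by
  letI : Algebra k0 (LPA K H) := Algebra.compHom (LPA K H) (algebraMap k0 K)
  let f : LPA k0 H →ₐ[k0] LPA K H := LPA.lift (LPA.family K H)
  refine ⟨f.toRingHom, ?_, ?_⟩
  · intro c a
    change f (c • a) = _
    rw [map_smul]
    rfl
  · apply CKFamily.eq_of
    · funext v; exact LPA.lift_p _ v
    · funext v; exact LPA.lift_e _ v
    · funext v; exact LPA.lift_g _ v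

end ext

theorem pow_le_M {K : Type*} [Field K] {H : FinGraph} {L : Type*} [Ring L] [Algebra K L]
    {y : CKFamily H L} (hs : H.NoSink) {T : Submodule K L} {a b : ℕ} (h : T ≤ y.M K a b) (n : ℕ) :
    T ^ n ≤ y.M K (n * a) (n * b) := by
  induction n with
  | zero =>
    rw [pow_zero, zero_mul, zero_mul, y.M_zero]
    exact y.one_le_P0 K
  | succ n ih =>
    rw [pow_succ]
    refine (mul_le_mul' ih h).trans ((y.M_mul_M_le' K hs _ _ _ _).trans (le_of_eq ?_))
    rw [show n * a + a = (n + 1) * a by ring, show n * b + b = (n + 1) * b by ring]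

theorem near_of_gradedIso {k0 K : Type u} [Field k0] [Field K] [Algebra k0 K] {G H : FinGraph}
    (hs : G.NoSink) (hr : G.NoSource) (hs' : H.NoSink) (hr' : H.NoSource)
    (h : GradedIso k0 G H) :
    ∃ (x : CKFamily G (LPA K H)) (k j : ℕ), Near K x (LPA.family K H) k ∧
      x.lv K k ≤ (LPA.family K H).lv K j := by
  classical
  obtain ⟨ψ, hψ⟩ := h
  obtain ⟨φ, hφ, hφy⟩ := LPA.exists_ext k0 K H
  set y := LPA.family K H with hy
  let θ : LPA k0 G →+* LPA K H := φ.comp ψ.toRingEquiv.toRingHom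
  have hθ : ∀ z, θ z = φ (ψ z) := fun z => rfl
  have hθs : ∀ (c : k0) (a : LPA k0 G), θ (c • a) = algebraMap k0 K c • θ a := by
    intro c a
    rw [hθ, hθ, map_smul, hφ]
  let x : CKFamily G (LPA K H) := (LPA.family k0 G).map θ
  have hye : ∀ f, y.e f = φ ((LPA.family k0 H).e f) := fun f => by rw [← hφy]; rfl
  have hyg : ∀ f, y.g f = φ ((LPA.family k0 H).g f) := fun f => by rw [← hφy]; rfl
  have hyp : ∀ f, y.p f = φ ((LPA.family k0 H).p f) := fun f => by rw [← hφy]; rfl
  -- elements of degree zero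
  have E1 : ∀ z ∈ LPA.gr k0 H 0, ∃ N : ℕ, ∀ k, N ≤ k → φ z ∈ x.lv K k := by
    intro z hz
    have h1 : ψ.symm z ∈ LPA.gr k0 G 0 := by
      rw [hψ, ψ.apply_symm_apply]; exact hz
    obtain ⟨N, hN⟩ := LPA.mem_M_of_mem_gr hs h1
    refine ⟨N, fun k hk => ?_⟩
    have h2 := hN k k (by simp) hk
    have h3 := map_M (K := K) (LPA.family k0 G) θ hθs k k h2
    rw [hθ, ψ.apply_symm_apply] at h3
    exact h3
  have E2 : ∀ (n : ℤ), ∀ z ∈ LPA.gr k0 G n, ∃ N : ℕ, ∀ a b : ℕ, (a : ℤ) - b = n → N ≤ b →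
      θ z ∈ y.M K a b := by
    intro n z hz
    have h1 : ψ z ∈ LPA.gr k0 H n := (hψ n z).mp hz
    obtain ⟨N, hN⟩ := LPA.mem_M_of_mem_gr hs' h1
    refine ⟨N, fun a b hab hb => ?_⟩
    have h3 := map_M (K := K) (LPA.family k0 H) φ hφ a b (hN a b hab hb)
    rw [hφy] at h3
    exact h3
  -- degree computations
  have dp : ∀ w, (LPA.family k0 H).p w ∈ LPA.gr k0 H 0 := fun w => LPA.gen_mem_gr (.v w)
  have d1 : ∀ (f : Fin H.nE) (e : Fin G.nE),
      (LPA.family k0 H).g f * ψ ((LPA.family k0 G).e e) ∈ LPA.gr k0 H 0 := by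
    intro f e
    have h1 : (LPA.family k0 H).g f ∈ LPA.gr k0 H (-1) := LPA.gen_mem_gr (.g f)
    have h2 : ψ ((LPA.family k0 G).e e) ∈ LPA.gr k0 H 1 :=
      (hψ 1 _).mp (LPA.gen_mem_gr (.e e))
    have := LPA.mul_mem_gr h1 h2
    simpa using this
  have d2 : ∀ (e : Fin G.nE) (f : Fin H.nE),
      ψ ((LPA.family k0 G).g e) * (LPA.family k0 H).e f ∈ LPA.gr k0 H 0 := by
    intro e f
    have h1 : (LPA.family k0 H).e f ∈ LPA.gr k0 H 1 := LPA.gen_mem_gr (.e f)
    have h2 : ψ ((LPA.family k0 G).g e) ∈ LPA.gr k0 H (-1) :=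
      (hψ (-1) _).mp (LPA.gen_mem_gr (.g e))
    have := LPA.mul_mem_gr h2 h1
    simpa using this
  choose N1 hN1 using fun w => E1 _ (dp w)
  choose N2 hN2 using fun (q : Fin H.nE × Fin G.nE) => E1 _ (d1 q.1 q.2)
  choose N3 hN3 using fun (q : Fin G.nE × Fin H.nE) => E1 _ (d2 q.1 q.2)
  let k : ℕ := Finset.univ.sup N1 + Finset.univ.sup N2 + Finset.univ.sup N3
  have hk1 : ∀ w, N1 w ≤ k := fun w => by
    have := Finset.le_sup (f := N1) (Finset.mem_univ w)
    omega
  have hk2 : ∀ w, N2 w ≤ k := fun w => by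
    have := Finset.le_sup (f := N2) (Finset.mem_univ w)
    omega
  have hk3 : ∀ w, N3 w ≤ k := fun w => by
    have := Finset.le_sup (f := N3) (Finset.mem_univ w)
    omega
  have hnear : Near K x y k := by
    refine ⟨hs, hr, hs', hr', ?_, ?_, ?_⟩
    · unfold CKFamily.P0
      rw [Submodule.span_le]
      rintro _ ⟨w, rfl⟩
      rw [SetLike.mem_coe, hyp]
      exact hN1 w k (hk1 w)
    · unfold CKFamily.X CKFamily.Xs
      rw [Submodule.span_mul_span, Submodule.span_le]
      rintro _ ⟨_, ⟨f, rfl⟩, _, ⟨e, rfl⟩, rfl⟩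
      have h1 : y.g f * x.e e = φ ((LPA.family k0 H).g f * ψ ((LPA.family k0 G).e e)) := by
        rw [map_mul, hyg]; rfl
      simp only [SetLike.mem_coe]
      rw [h1]
      exact hN2 (f, e) k (hk2 _)
    · unfold CKFamily.X CKFamily.Xs
      rw [Submodule.span_mul_span, Submodule.span_le]
      rintro _ ⟨_, ⟨e, rfl⟩, _, ⟨f, rfl⟩, rfl⟩
      have h1 : x.g e * y.e f = φ (ψ ((LPA.family k0 G).g e) * (LPA.family k0 H).e f) := by
        rw [map_mul, hye]; rfl
      simp only [SetLike.mem_coe]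
      rw [h1]
      exact hN3 (e, f) k (hk3 _)
  -- the other inclusion
  choose M1 hM1 using fun e => E2 1 _ (LPA.gen_mem_gr (K := k0) (G := G) (.e e))
  choose M2 hM2 using fun e => E2 (-1) _ (LPA.gen_mem_gr (K := k0) (G := G) (.g e))
  choose M3 hM3 using fun v => E2 0 _ (LPA.gen_mem_gr (K := k0) (G := G) (.v v))
  let a : ℕ := Finset.univ.sup M1 + Finset.univ.sup M2 + Finset.univ.sup M3
  have i1 : x.X K ≤ y.M K (a + 1) a := by
    unfold CKFamily.X
    rw [Submodule.span_le]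
    rintro _ ⟨e, rfl⟩
    have := Finset.le_sup (f := M1) (Finset.mem_univ e)
    exact hM1 e (a + 1) a (by push_cast; ring) (by omega)
  have i2 : x.Xs K ≤ y.M K a (a + 1) := by
    unfold CKFamily.Xs
    rw [Submodule.span_le]
    rintro _ ⟨e, rfl⟩
    have := Finset.le_sup (f := M2) (Finset.mem_univ e)
    exact hM2 e a (a + 1) (by push_cast; ring) (by omega)
  have i3 : x.P0 K ≤ y.M K a a := by
    unfold CKFamily.P0
    rw [Submodule.span_le]
    rintro _ ⟨e, rfl⟩
    have := Finset.le_sup (f := M3) (Finset.mem_univ e)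
    exact hM3 e a a (by ring) (by omega)
  refine ⟨x, k, k * (a + 1) + a + k * a, hnear, ?_⟩
  unfold CKFamily.lv
  nth_rewrite 1 [CKFamily.M]
  refine (mul_le_mul' ((mul_le_mul' (pow_le_M hs' i1 k) i3).trans
    (y.M_mul_M_le' K hs' _ _ _ _)) (pow_le_M hs' i2 k)).trans
    ((y.M_mul_M_le' K hs' _ _ _ _).trans (le_of_eq ?_))
  rw [show k * a + a + k * (a + 1) = k * (a + 1) + a + k * a by ring]

end Pool.Agent.GCC
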