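import Pool.Agent.GCC.SgcBase
import Pool.Agent.GCC.Graphs

/-!
# There is no chain from `A_E` to `A_F` with the right unit
-/

open Matrix

namespace Pool.Agent.GCC

/-- The adjacency matrix of `E`. -/
def AE : Matrix (Fin 4) (Fin 4) ℤ := !![0, 1, 0, 0; 0, 0, 1, 0; 1, 0, 0, 1; 1, 0, 0, 0]

/-- The adjacency matrix of `F`. -/
def AF : Matrix (Fin 8) (Fin 8) ℤ :=
  !![0, 0, 0, 1, 0, 0, 0, 0;
     0, 0, 0, 1, 0, 0, 0, 0;
     0, 0, 0, 0, 1, 0, 0, 0;
     0, 0, 0, 0, 0, 1, 0, 0;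
     0, 0, 0, 0, 0, 0, 1, 0;
     1, 0, 0, 0, 0, 0, 0, 1;
     0, 1, 0, 0, 0, 0, 0, 1;
     0, 0, 1, 0, 0, 0, 0, 0]

theorem adj_graphE : graphE.adj = AE := by
  funext (i : Fin 4) (j : Fin 4)
  revert i j
  unfold FinGraph.adj AE graphE
  decide

theorem adj_graphF : graphF.adj = AF := by
  funext (i : Fin 8) (j : Fin 8)
  revert i j
  unfold FinGraph.adj AF graphF
  decide

theorem Chain.trans {n k l : ℕ} {A : Matrix (Fin n) (Fin n) ℤ} {B : Matrix (Fin k) (Fin k) ℤ}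
    {C : Matrix (Fin l) (Fin l) ℤ} {P : Matrix (Fin n) (Fin k) ℤ} {Q : Matrix (Fin k) (Fin l) ℤ}
    (h : Chain A k B P) (h' : Chain B l C Q) : Chain A l C (P * Q) := by
  induction h' with
  | refl => rw [Matrix.mul_one]; exact h
  | step R S hR hS hB _ ih =>
    rw [← Matrix.mul_assoc]
    exact Chain.step R S hR hS hB ih

theorem Chain.comm {n k : ℕ} {A : Matrix (Fin n) (Fin n) ℤ} {B : Matrix (Fin k) (Fin k) ℤ}
    {P : Matrix (Fin n) (Fin k) ℤ} (h : Chain A k B P) : A * P = P * B := by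
  induction h with
  | refl => rw [Matrix.mul_one, Matrix.one_mul]
  | step R S hR hS hB _ ih =>
    rw [← Matrix.mul_assoc, ih, hB]
    simp only [Matrix.mul_assoc]

theorem Chain.comm_pow {n k : ℕ} {A : Matrix (Fin n) (Fin n) ℤ} {B : Matrix (Fin k) (Fin k) ℤ}
    {P : Matrix (Fin n) (Fin k) ℤ} (h : Chain A k B P) (m : ℕ) : A ^ m * P = P * B ^ m := by
  induction m with
  | zero => rw [pow_zero, pow_zero, Matrix.mul_one, Matrix.one_mul]
  | succ m ih =>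
    rw [pow_succ, Matrix.mul_assoc, h.comm, ← Matrix.mul_assoc, ih, Matrix.mul_assoc, ← pow_succ]

/-- A matrix of the chain from `F` to `E`. -/
def mR1 : Matrix (Fin 8) (Fin 7) ℤ :=
  !![1, 0, 0, 0, 0, 0, 0;
     1, 0, 0, 0, 0, 0, 0;
     0, 1, 0, 0, 0, 0, 0;
     0, 0, 1, 0, 0, 0, 0;
     0, 0, 0, 1, 0, 0, 0;
     0, 0, 0, 0, 1, 0, 0;
     0, 0, 0, 0, 0, 1, 0;
     0, 0, 0, 0, 0, 0, 1]

/-- A matrix of the chain from `F` to `E`. -/
def mS1 : Matrix (Fin 7) (Fin 8) ℤ :=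
  !![0, 0, 0, 1, 0, 0, 0, 0;
     0, 0, 0, 0, 1, 0, 0, 0;
     0, 0, 0, 0, 0, 1, 0, 0;
     0, 0, 0, 0, 0, 0, 1, 0;
     1, 0, 0, 0, 0, 0, 0, 1;
     0, 1, 0, 0, 0, 0, 0, 1;
     0, 0, 1, 0, 0, 0, 0, 0]

/-- A matrix of the chain from `F` to `E`. -/
def mR2 : Matrix (Fin 7) (Fin 6) ℤ :=
  !![1, 0, 0, 0, 0, 0;
     0, 1, 0, 0, 0, 0;
     0, 0, 1, 0, 0, 0;
     0, 0, 0, 1, 0, 0;
     0, 0, 0, 0, 1, 0;
     0, 0, 0, 0, 1, 0;
     0, 0, 0, 0, 0, 1]

/-- A matrix of the chain from `F` to `E`. -/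
def mS2 : Matrix (Fin 6) (Fin 7) ℤ :=
  !![0, 0, 1, 0, 0, 0, 0;
     0, 0, 0, 1, 0, 0, 0;
     0, 0, 0, 0, 1, 0, 0;
     0, 0, 0, 0, 0, 1, 0;
     1, 0, 0, 0, 0, 0, 1;
     0, 1, 0, 0, 0, 0, 0]

/-- A matrix of the chain from `F` to `E`. -/
def mR3 : Matrix (Fin 6) (Fin 5) ℤ :=
  !![1, 0, 0, 0, 0;
     0, 1, 0, 0, 0;
     0, 0, 1, 0, 0;
     0, 0, 1, 0, 0;
     0, 0, 0, 1, 0;
     0, 0, 0, 0, 1]

/-- A matrix of the chain from `F` to `E`. -/
def mS3 : Matrix (Fin 5) (Fin 6) ℤ :=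
  !![0, 0, 1, 0, 0, 0;
     0, 0, 0, 1, 0, 0;
     0, 0, 0, 0, 1, 0;
     1, 0, 0, 0, 0, 1;
     0, 1, 0, 0, 0, 0]

/-- A matrix of the chain from `F` to `E`. -/
def mR4 : Matrix (Fin 5) (Fin 4) ℤ :=
  !![1, 0, 0, 0;
     1, 0, 0, 0;
     0, 1, 0, 0;
     0, 0, 1, 0;
     0, 0, 0, 1]

/-- A matrix of the chain from `F` to `E`. -/
def mS4 : Matrix (Fin 4) (Fin 5) ℤ :=
  !![0, 0, 1, 0, 0;
     0, 0, 0, 1, 0;
     1, 0, 0, 0, 1;
     0, 1, 0, 0, 0]

/-- The merging matrix. -/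
def mQ : Matrix (Fin 8) (Fin 4) ℤ :=
  !![1, 0, 0, 0;
     1, 0, 0, 0;
     1, 0, 0, 0;
     0, 1, 0, 0;
     0, 1, 0, 0;
     0, 0, 1, 0;
     0, 0, 1, 0;
     0, 0, 0, 1]

theorem chain_FE : Chain AF 4 AE mQ := by
  have h0 : Chain AF 8 AF 1 := Chain.refl
  have h1 := Chain.step mR1 mS1 (by decide) (by decide) (by decide) h0
  have h2 := Chain.step mR2 mS2 (by decide) (by decide) (by decide) h1
  have h3 := Chain.step mR3 mS3 (by decide) (by decide) (by decide) h2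
  have h4 := Chain.step mR4 mS4 (by decide) (by decide) (by decide) h3
  have e1 : mS4 * mR4 = AE := by decide
  have e2 : (1 : Matrix (Fin 8) (Fin 8) ℤ) * mR1 * mR2 * mR3 * mR4 = mQ := by
    rw [Matrix.one_mul]
    decide
  rw [e1, e2] at h4
  exact h4

/-- The matrix of `β`. -/
def mM : Matrix (Fin 4) (Fin 4) ℤ := !![0, 1, 0, 1; 1, 0, 1, 0; 1, 1, 0, 1; 1, 0, 1, -1]

/-- The inverse of `mM`. -/
def mMi : Matrix (Fin 4) (Fin 4) ℤ := !![-1, 0, 1, 0; 1, -1, 0, 1; 1, 1, -1, 0; 0, 1, 0, -1]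

theorem mM_mul : mM * mMi = 1 := by decide
theorem mM_comm : mM * AE = AE * mM := by decide
theorem ones_mQ : Matrix.vecMul (1 : Fin 8 → ℤ) mQ = Matrix.vecMul (1 : Fin 4 → ℤ) mM := by decide
theorem sgc_mM : sgc mM (mMi * AE) = 1 := by decide
theorem AE_det : IsUnit AE.det := by
  have h : AE * !![0, 0, 0, 1; 1, 0, 0, 0; 0, 1, 0, 0; 0, 0, 1, -1] = 1 := by decide
  exact Matrix.isUnit_det_of_right_inverse h
theorem AE_trace : AE.trace = 0 := by decide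
theorem AE_trace2 : (AE * AE).trace = 0 := by decide

/-- `κ(X)`. -/
noncomputable def kap (A X : Matrix (Fin 4) (Fin 4) ℤ) : ZMod 2 := sgc X (X⁻¹ * A)

theorem kap_mul {A X Y : Matrix (Fin 4) (Fin 4) ℤ} (hX : IsUnit X.det) (hY : IsUnit Y.det)
    (hXY : X * Y = Y * X) (hXA : X * A = A * X) :
    kap A (X * Y) = kap A X + kap A Y := by
  unfold kap
  have h := sgc_triangle X Y ((X * Y)⁻¹ * A)
  have e1 : Y * ((X * Y)⁻¹ * A) = X⁻¹ * A := by
    rw [Matrix.mul_inv_rev, ← Matrix.mul_assoc, ← Matrix.mul_assoc, Matrix.mul_nonsing_inv _ hY,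
      Matrix.one_mul]
  have e2 : (X * Y)⁻¹ * A * X = Y⁻¹ * A := by
    rw [Matrix.mul_assoc, ← hXA, ← Matrix.mul_assoc, Matrix.mul_inv_rev, Matrix.mul_assoc Y⁻¹,
      Matrix.nonsing_inv_mul _ hX, Matrix.mul_one]
  rw [e1, e2] at h
  exact h.symm

theorem kap_one (A : Matrix (Fin 4) (Fin 4) ℤ) : kap A 1 = 0 := by
  unfold kap
  exact sgc_one _

theorem kap_AE : kap AE AE = 0 := by
  unfold kap
  rw [Matrix.nonsing_inv_mul _ AE_det]
  apply sgc_nonneg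
  · decide
  · decide
  · decide
  · decide

theorem kap_AE_pow (n : ℕ) : kap AE (AE ^ n) = 0 := by
  induction n with
  | zero => rw [pow_zero]; exact kap_one _
  | succ n ih =>
    rw [pow_succ, kap_mul (by rw [Matrix.det_pow]; exact AE_det.pow n) AE_det
      (by rw [← pow_succ, ← pow_succ']) (by rw [← pow_succ, ← pow_succ']), ih, kap_AE, add_zero]

theorem mM_det : IsUnit mM.det := Matrix.isUnit_det_of_right_inverse mM_mul

theorem kap_mM : kap AE mM = 1 := by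
  unfold kap
  rw [Matrix.inv_eq_right_inv mM_mul]
  exact sgc_mM

/-- A matrix commuting with `A_E` and killed by `(1,1,1,1) A_E^K` vanishes. -/
theorem cyclic_vec (D : Matrix (Fin 4) (Fin 4) ℤ) (hD : D * AE = AE * D)
    (h : Matrix.vecMul (1 : Fin 4 → ℤ) D = 0) : D = 0 := by
  have h1 : Matrix.vecMul (1 : Fin 4 → ℤ) (AE * D) = 0 := by
    rw [← hD, ← Matrix.vecMul_vecMul, h, Matrix.zero_vecMul]
  have h2 : Matrix.vecMul (1 : Fin 4 → ℤ) (AE * (AE * D)) = 0 := by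
    rw [← hD, ← Matrix.mul_assoc, ← hD, Matrix.mul_assoc, ← Matrix.vecMul_vecMul, h,
      Matrix.zero_vecMul]
  have h3 : Matrix.vecMul (1 : Fin 4 → ℤ) (AE * (AE * (AE * D))) = 0 := by
    rw [← hD, ← Matrix.mul_assoc AE D, ← hD, ← Matrix.mul_assoc, ← Matrix.mul_assoc, ← hD,
      Matrix.mul_assoc, Matrix.mul_assoc, ← Matrix.vecMul_vecMul, h, Matrix.zero_vecMul]
  ext i j
  have g0 := congrFun h j
  have g1 := congrFun h1 j
  have g2 := congrFun h2 j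
  have g3 := congrFun h3 j
  simp only [Matrix.vecMul, dotProduct, Fin.sum_univ_four, Pi.one_apply, one_mul, Matrix.mul_apply,
    Pi.zero_apply, AE, Matrix.of_apply, Matrix.cons_val', Matrix.cons_val_zero,
    Matrix.cons_val_one, Matrix.cons_val, zero_mul, zero_add, add_zero] at g0 g1 g2 g3
  rw [Matrix.zero_apply]
  fin_cases i <;> simp only [Fin.zero_eta, Fin.mk_one, Fin.reduceFinMk] <;> linarith

/-- M5. There is no chain with the right unit. -/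
theorem no_chain_EF
    (hsgc : ∀ P : Matrix (Fin 4) (Fin 4) ℤ, Chain AE 4 AE P →
      IsUnit P.det ∧ AE * P = P * AE ∧ sgc P (P⁻¹ * AE) = 0)
    (P : Matrix (Fin 4) (Fin 8) ℤ) (h : Chain AE 8 AF P) (J K : ℕ)
    (hu : Matrix.vecMul (1 : Fin 4 → ℤ) (AE ^ K * P) = Matrix.vecMul (1 : Fin 8 → ℤ) (AF ^ J)) :
    False := by
  have hX := h.trans chain_FE
  obtain ⟨hdet, hcomm, hs⟩ := hsgc _ hX
  set X := P * mQ with hXdef
  have hMpow : ∀ n : ℕ, mM * AE ^ n = AE ^ n * mM := by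
    intro n
    exact (show Commute mM AE from mM_comm).pow_right n
  have hXpow : ∀ n : ℕ, X * AE ^ n = AE ^ n * X := by
    intro n
    exact (show Commute X AE from hcomm.symm).pow_right n
  have hD : AE ^ K * X = mM * AE ^ J := by
    have h0 : AE ^ K * X - mM * AE ^ J = 0 := by
      apply cyclic_vec
      · have c1 : Commute (AE ^ K * X) AE :=
          ((Commute.refl AE).pow_left K).mul_left hcomm.symm
        have c2 : Commute (mM * AE ^ J) AE :=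
          (show Commute mM AE from mM_comm).mul_left ((Commute.refl AE).pow_left J)
        exact c1.sub_left c2
      · rw [Matrix.vecMul_sub, hXdef, ← Matrix.mul_assoc, ← Matrix.vecMul_vecMul, hu,
          Matrix.vecMul_vecMul, chain_FE.comm_pow, ← Matrix.vecMul_vecMul, ones_mQ,
          Matrix.vecMul_vecMul, sub_self]
    exact sub_eq_zero.mp h0
  have k1 : kap AE (AE ^ K * X) = 0 := by
    rw [kap_mul (by rw [Matrix.det_pow]; exact AE_det.pow K) hdet (hXpow K).symm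
      (by rw [← pow_succ, ← pow_succ']), kap_AE_pow, zero_add]
    exact hs
  have k2 : kap AE (mM * AE ^ J) = 1 := by
    rw [kap_mul mM_det (by rw [Matrix.det_pow]; exact AE_det.pow J) (hMpow J) mM_comm,
      kap_AE_pow, add_zero, kap_mM]
  rw [hD, k2] at k1
  exact one_ne_zero k1

end Pool.Agent.GCC
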