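import Pool.Agent.GCC.NearDef

/-!
# Two Cuntz-Krieger families at finite distance give a chain of elementary equivalences
-/

open Matrix

namespace Pool.Agent.GCC

section

variable {K : Type*} [Field K] {G H : FinGraph} {L : Type*} [Ring L] [Algebra K L]
  {x : CKFamily G L} {y : CKFamily H L} {k : ℕ}

theorem res_comb {D0 D1 D2 : Subalgebra K L} (h01 : D0 ≤ D1) (h12 : D1 ≤ D2) {n0 n1 n2 : ℕ}
    {b0 : Fin n0 → (D0 →ₗ[K] K)} {b1 : Fin n1 → (D1 →ₗ[K] K)} {b2 : Fin n2 → (D2 →ₗ[K] K)}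
    {R : Matrix (Fin n1) (Fin n2) ℤ} {P : Matrix (Fin n0) (Fin n1) ℤ}
    (hR : ∀ j, res h12 (b2 j) = ∑ a, (R a j : K) • b1 a)
    (hP : ∀ a, res h01 (b1 a) = ∑ v, (P v a : K) • b0 v) (j : Fin n2) :
    res (h01.trans h12) (b2 j) = ∑ v, ((P * R) v j : K) • b0 v := by
  have e4 : res (h01.trans h12) (b2 j) = res h01 (res h12 (b2 j)) := rfl
  rw [e4, hR, res_sum]
  simp only [res_smul, hP, Finset.smul_sum, smul_smul]
  rw [Finset.sum_comm]
  refine Finset.sum_congr rfl fun v _ => ?_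
  rw [← Finset.sum_smul, Matrix.mul_apply]
  push_cast
  congr 1
  exact Finset.sum_congr rfl fun c _ => mul_comm _ _

/-- Main theorem on two families. -/
theorem Near.chain [CharZero K] (h : Near K x y k) (hp : ∀ v, x.p v ≠ 0) (hq : ∀ v, y.p v ≠ 0)
    (j : ℕ) (h4 : x.lv K k ≤ y.lv K j)
    (hB : ∀ D : Subalgebra K L, FiniteDimensional K D →
      ∃ (n : ℕ) (b : Fin n → (D →ₗ[K] K)), NB K D b) :
    ∃ P : Matrix (Fin G.nV) (Fin H.nV) ℤ, Chain G.adj H.nV H.adj P ∧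
      ∀ w, ∑ v, (G.adj ^ k * P) v w = ∑ v, (H.adj ^ j) v w := by
  classical
  have hfin : ∀ i, FiniteDimensional K (h.D i) := by
    intro i
    have h5 : h.D i ≤ y.lvAlg K h.hs' (max i j) :=
      sup_le (fun d hd => y.lv_mono K h.hs' (le_max_right i j) (h4 hd))
        (lvAlg_mono y h.hs' (le_max_left i j))
    have := lvAlg_finite (K := K) y h.hs' (max i j)
    exact FiniteDimensional.of_injective (Subalgebra.inclusion h5).toLinearMap
      (Subalgebra.inclusion_injective h5)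
  have key : ∀ i, ∀ (n : ℕ) (b : Fin n → (h.D i →ₗ[K] K)) (Z : Matrix (Fin n) (Fin n) ℤ),
      NB K (h.D i) b → IsZ (h.sh i) ((h.D_mono i).trans (h.D_le_D' i)) b Z →
      ∃ P : Matrix (Fin G.nV) (Fin n) ℤ, Chain G.adj n Z P ∧
        ∀ a, res (h.lv_le i) (b a) =
          ∑ v, (P v a : K) • Tr x h.hs hp k v := by
    intro i
    induction i with
    | zero =>
      intro n b Z hb hZ
      have hle : h.D 0 ≤ x.lvAlg K h.hs (k + 1) := by
        refine sup_le (lvAlg_mono x h.hs (Nat.le_succ k)) ?_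
        intro d hd
        rw [CKFamily.mem_lvAlg, CKFamily.lv_zero] at hd
        exact x.lv_mono K h.hs (Nat.le_succ k) (h.h1 hd)
      obtain ⟨R, S, hR, hS, e1, e2, e3⟩ := step_lemma h.hs
        (h.lv_le 0) hle
        (le_sup_left : x.lvAlg K h.hs (k + 1) ≤ h.D' 0) (sh_tower x h.hs k) (h.sh 0)
        (NB_Tr x h.hs h.hr hp k) hb (isZ_Tr x h.hs hp k) hZ
      refine ⟨R, ?_, e3⟩
      have := Chain.step R S hR hS e1 Chain.refl
      rwa [← e2, Matrix.one_mul] at this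
    | succ i ih =>
      intro n b Z hb hZ
      obtain ⟨n', b', hb'⟩ := hB (h.D i) (hfin i)
      obtain ⟨Z', hZ'⟩ := exists_isZ h.hs (h.sh i) ((h.D_mono i).trans (h.D_le_D' i)) hb'
      obtain ⟨P', hP', hP2⟩ := ih n' b' Z' hb' hZ'
      obtain ⟨R, S, hR, hS, e1, e2, e3⟩ := step_lemma h.hs (h.D_mono i) (h.D_le_D' i)
        (h.D'_mono i) (h.sh i) (h.sh (i + 1)) hb' hb hZ' hZ
      refine ⟨P' * R, ?_, ?_⟩
      · have := Chain.step R S hR hS e1 hP'
        rwa [← e2] at this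
      · exact res_comb (h.lv_le i) (h.D_mono i) e3 hP2
  -- the last step
  have hDj : h.D j = y.lvAlg K h.hs' j := sup_eq_right.mpr h4
  obtain ⟨n', b', hb'⟩ := hB (h.D j) (hfin j)
  obtain ⟨Z', hZ'⟩ := exists_isZ h.hs (h.sh j) ((h.D_mono j).trans (h.D_le_D' j)) hb'
  obtain ⟨P', hP', hP2⟩ := key j n' b' Z' hb' hZ'
  have hle1 : h.D j ≤ y.lvAlg K h.hs' j := le_of_eq hDj
  have hle2 : y.lvAlg K h.hs' j ≤ h.D' j :=
    (le_of_eq hDj.symm).trans ((h.D_mono j).trans (h.D_le_D' j))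
  have hsh : Sh x (y.lvAlg K h.hs' j) (h.D' j) := hDj ▸ h.sh j
  have hZend : IsZ hsh (hle2.trans le_rfl) (Tr (K := K) y h.hs' hq j) H.adj := by
    intro w
    rw [← isZ_Tr y h.hs' hq j w]
    ext d
    rw [res_apply, res_apply, Sh.om_apply, Sh.om_apply]
    have hτ : (Tr (K := K) y h.hs' hq j w).comp
        (Subalgebra.inclusion hle1).toLinearMap ∈ Ch K (h.D j) :=
      Ch.comp ((NB_Tr y h.hs' h.hr' hq j).mem w) _ fun _ _ => rfl
    have h6 := h.om_eq j hτ ⟨d.1, hle2 d.2⟩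
    rw [Sh.om_apply] at h6
    exact h6
  obtain ⟨R, S, hR, hS, e1, e2, e3⟩ := step_lemma h.hs hle1 hle2 le_rfl (h.sh j) hsh
    hb' (NB_Tr y h.hs' h.hr' hq j) hZ' hZend
  refine ⟨P' * R, ?_, ?_⟩
  · have := Chain.step R S hR hS e1 hP'
    rwa [← e2] at this
  · intro w
    have hx1 : x.lvAlg K h.hs k ≤ y.lvAlg K h.hs' j := h4
    have e5 : res hx1 (Tr (K := K) y h.hs' hq j w) = ∑ v, ((P' * R) v w : K) • Tr x h.hs hp k v := by
      exact res_comb (h.lv_le j) hle1 e3 hP2 w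
    have e6 := congrArg (fun σ : (x.lvAlg K h.hs k) →ₗ[K] K => σ 1) e5
    have e7 : res hx1 (Tr (K := K) y h.hs' hq j w) 1 = Tr (K := K) y h.hs' hq j w 1 := rfl
    simp only [e7, LinearMap.sum_apply, LinearMap.smul_apply, Tr_one, smul_eq_mul] at e6
    have e8 : ((∑ v, (H.adj ^ j) v w : ℤ) : K) = ((∑ v, (G.adj ^ k * (P' * R)) v w : ℤ) : K) := by
      rw [e6]
      have e9 : ∑ v, (G.adj ^ k * (P' * R)) v w = ∑ u, (P' * R) u w * ∑ v, (G.adj ^ k) v u := by
        simp only [Matrix.mul_apply (M := G.adj ^ k), Finset.mul_sum]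
        rw [Finset.sum_comm]
        exact Finset.sum_congr rfl fun u _ => Finset.sum_congr rfl fun v _ => mul_comm _ _
      rw [e9]
      push_cast
      rfl
    exact_mod_cast e8.symm

end

end Pool.Agent.GCC
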