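import Pool.Agent.GCC.NearIso
import Pool.Agent.GCC.Thm1
import Pool.Agent.GCC.Char
import Pool.Agent.GCC.NoChain

/-!
# The two Leavitt path algebras are not graded isomorphic
-/

open Matrix

namespace Pool.Agent.GCC

universe u

theorem ne_zero_aux {L : Type*} [Ring L] [Nontrivial L] (p : Fin 4 → L)
    (s0 : p 0 = 0 → p 1 = 0) (s1 : p 1 = 0 → p 2 = 0) (s2 : p 2 = 0 → p 0 = 0)
    (s3 : p 2 = 0 → p 3 = 0) (s4 : p 3 = 0 → p 0 = 0) (hs : ∑ v : Fin 4, p v = 1) :
    ∀ v, p v ≠ 0 := by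
  have fin : p 0 = 0 → False := by
    intro h0
    have h1 := s0 h0
    have h2 := s1 h1
    have h3 := s3 h2
    rw [Fin.sum_univ_four, h0, h1, h2, h3] at hs
    simp at hs
  intro v
  fin_cases v
  · exact fin
  · exact fun h => fin (s2 (s1 h))
  · exact fun h => fin (s2 h)
  · exact fun h => fin (s4 h)

/-- In a family for `graphE` in a nontrivial ring all vertices are nonzero. -/
theorem graphE_ne_zero {L : Type*} [Ring L] [Nontrivial L] (x : CKFamily graphE L) :
    ∀ v, x.p v ≠ 0 := by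
  have step : ∀ e, x.p (graphE.s e) = 0 → x.p (graphE.r e) = 0 := by
    intro e h
    have h1 : x.e e = 0 := by rw [← x.se, h, zero_mul]
    rw [← x.ge_self, h1, mul_zero]
  exact ne_zero_aux (L := L) x.p (step (0 : Fin 5)) (step (1 : Fin 5)) (step (2 : Fin 5))
    (step (3 : Fin 5)) (step (4 : Fin 5)) x.sum_p

theorem not_gradedIso
    (hsgc : ∀ P : Matrix (Fin 4) (Fin 4) ℤ, Chain AE 4 AE P →
      IsUnit P.det ∧ AE * P = P * AE ∧ sgc P (P⁻¹ * AE) = 0)
    (k0 : Type u) [Field k0] [CharZero k0] : ¬ GradedIso k0 graphE graphF := by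
  intro h
  obtain ⟨x, k, j, hnear, h4⟩ := near_of_gradedIso (K := AlgebraicClosure k0)
    graphE_noSink graphE_noSource graphF_noSink graphF_noSource h
  have hq : ∀ v, (LPA.family (AlgebraicClosure k0) graphF).p v ≠ 0 :=
    LPA.family_p_ne_zero (AlgebraicClosure k0) graphF_noSink
  have hnt : Nontrivial (LPA (AlgebraicClosure k0) graphF) :=
    ⟨⟨_, 0, hq (0 : Fin 8)⟩⟩
  have hcz : CharZero (AlgebraicClosure k0) :=
    charZero_of_injective_algebraMap (algebraMap k0 (AlgebraicClosure k0)).injective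
  obtain ⟨P, hP, hu⟩ := hnear.chain (graphE_ne_zero x) hq j h4 (by
    intro D hD
    obtain ⟨n, b, h1, h2, h3⟩ := Ch_basis (AlgebraicClosure k0) D
    exact ⟨n, b, ⟨h1, h2, h3⟩⟩)
  rw [adj_graphE, adj_graphF] at hP
  refine no_chain_EF hsgc P hP j k ?_
  funext w
  have := hu w
  rw [adj_graphE, adj_graphF] at this
  simp only [Matrix.vecMul, dotProduct, Pi.one_apply, one_mul]
  exact this

end Pool.Agent.GCC
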