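import Pool.Agent.GCC.Family
import Pool.Agent.GCC.ChDef

/-!
# The Morita correspondence on characters
-/

open Matrix

namespace Pool.Agent.GCC

section Ch

variable {K : Type*} [Field K] {D : Type*} [Ring D] [Algebra K D]

theorem mem_Ch_of_fintype {ι : Type*} [Fintype ι] [DecidableEq ι] (τ : D →ₗ[K] K)
    (ρ : D →ₗ[K] Matrix ι ι K) (h : ∀ x y, ρ (x * y) = ρ x * ρ y)
    (ht : ∀ x, τ x = (ρ x).trace) : τ ∈ Ch K D := by
  let e := Fintype.equivFin ι
  refine ⟨Fintype.card ι, (Matrix.reindexLinearEquiv K K e e).toLinearMap.comp ρ, ?_, ?_⟩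
  · intro x y
    simp only [LinearMap.comp_apply, LinearEquiv.coe_coe]
    rw [h, Matrix.reindexLinearEquiv_mul]
  · intro x
    rw [ht]
    simp only [LinearMap.comp_apply, LinearEquiv.coe_coe, Matrix.coe_reindexLinearEquiv,
      Matrix.reindex_apply]
    simp only [Matrix.trace, Matrix.diag, Matrix.submatrix_apply]
    exact (Equiv.sum_comp e.symm (fun i => ρ x i i)).symm

theorem Ch.tr {τ : D →ₗ[K] K} (h : τ ∈ Ch K D) (x y : D) : τ (x * y) = τ (y * x) := by
  obtain ⟨n, ρ, hρ, ht⟩ := h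
  rw [ht, ht, hρ, hρ, Matrix.trace_mul_comm]

theorem Ch.add {τ σ : D →ₗ[K] K} (h : τ ∈ Ch K D) (h' : σ ∈ Ch K D) : τ + σ ∈ Ch K D := by
  obtain ⟨n, ρ, hρ, ht⟩ := h
  obtain ⟨m, ρ', hρ', ht'⟩ := h'
  refine mem_Ch_of_fintype (ι := Fin n ⊕ Fin m) _
    { toFun := fun x => Matrix.fromBlocks (ρ x) 0 0 (ρ' x)
      map_add' := fun x y => by rw [map_add, map_add, Matrix.fromBlocks_add]; simp
      map_smul' := fun c x => by rw [map_smul, map_smul]; simp [Matrix.fromBlocks_smul] } ?_ ?_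
  · intro x y
    simp only [LinearMap.coe_mk, AddHom.coe_mk]
    rw [Matrix.fromBlocks_multiply, hρ, hρ']
    simp
  · intro x
    simp only [LinearMap.coe_mk, AddHom.coe_mk, LinearMap.add_apply]
    rw [ht, ht']
    simp [Matrix.trace, Fintype.sum_sum_type]

theorem Ch.zero : (0 : D →ₗ[K] K) ∈ Ch K D :=
  ⟨0, 0, fun _ _ => by simp, fun _ => by simp⟩

theorem Ch.sum {ι : Type*} (s : Finset ι) (f : ι → D →ₗ[K] K) (h : ∀ i ∈ s, f i ∈ Ch K D) :
    ∑ i ∈ s, f i ∈ Ch K D := by
  classical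
  induction s using Finset.induction_on with
  | empty => simpa using Ch.zero
  | insert a s ha ih =>
    rw [Finset.sum_insert ha]
    exact Ch.add (h a (Finset.mem_insert_self _ _))
      (ih fun i hi => h i (Finset.mem_insert_of_mem hi))

/-- Precomposition with a multiplicative linear map. -/
theorem Ch.comp {D' : Type*} [Ring D'] [Algebra K D'] {τ : D →ₗ[K] K} (h : τ ∈ Ch K D)
    (f : D' →ₗ[K] D) (hf : ∀ x y, f (x * y) = f x * f y) : τ.comp f ∈ Ch K D' := by
  obtain ⟨n, ρ, hρ, ht⟩ := h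
  exact ⟨n, ρ.comp f, fun x y => by simp [hf, hρ], fun x => by simp [ht]⟩

end Ch

section Om

variable {K : Type*} [Field K] {G : FinGraph} {L : Type*} [Ring L] [Algebra K L]

theorem CKFamily.sum_eg (x : CKFamily G L) (h : G.NoSink) : ∑ e, x.e e * x.g e = 1 := by
  classical
  rw [← x.sum_p, ← Finset.sum_fiberwise (s := Finset.univ) (g := G.s)
    (f := fun e => x.e e * x.g e)]
  exact Finset.sum_congr rfl fun v _ => (x.ck2 v (h v)).symm

/-- `D'` is the shifted algebra `X D X*` of `D`. -/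
structure Sh (x : CKFamily G L) (D D' : Subalgebra K L) : Prop where
  up : ∀ d ∈ D, ∀ e e', x.e e * d * x.g e' ∈ D'
  down : ∀ a ∈ D', ∀ e e', x.g e * a * x.e e' ∈ D

variable {x : CKFamily G L} {D D' : Subalgebra K L}

/-- The linear map `a ↦ x.g e * a * x.e e'` from `D'` to `D`. -/
def Sh.dn (h : Sh x D D') (e e' : Fin G.nE) : D' →ₗ[K] D where
  toFun a := ⟨x.g e * a.1 * x.e e', h.down a.1 a.2 e e'⟩
  map_add' a b := Subtype.ext (by simp [mul_add, add_mul])
  map_smul' c a := Subtype.ext (by simp)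

/-- The linear map `d ↦ x.e e * d * x.g e'` from `D` to `D'`. -/
def Sh.upm (h : Sh x D D') (e e' : Fin G.nE) : D →ₗ[K] D' where
  toFun a := ⟨x.e e * a.1 * x.g e', h.up a.1 a.2 e e'⟩
  map_add' a b := Subtype.ext (by simp [mul_add, add_mul])
  map_smul' c a := Subtype.ext (by simp)

/-- The Morita correspondence `τ ↦ (a ↦ ∑ τ(x.g e * a * x.e e))`. -/
def Sh.om (h : Sh x D D') (τ : D →ₗ[K] K) : D' →ₗ[K] K := ∑ e, τ.comp (h.dn e e)

theorem Sh.om_apply (h : Sh x D D') (τ : D →ₗ[K] K) (a : D') :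
    h.om τ a = ∑ e, τ ⟨x.g e * a.1 * x.e e, h.down a.1 a.2 e e⟩ := by
  simp [Sh.om, Sh.dn]

theorem Sh.om_add (h : Sh x D D') (τ σ : D →ₗ[K] K) : h.om (τ + σ) = h.om τ + h.om σ := by
  ext a; simp [Sh.om_apply, Finset.sum_add_distrib]

theorem Sh.om_smul (h : Sh x D D') (c : K) (τ : D →ₗ[K] K) : h.om (c • τ) = c • h.om τ := by
  ext a; simp [Sh.om_apply, Finset.mul_sum]

theorem Sh.om_zero (h : Sh x D D') : h.om (0 : D →ₗ[K] K) = 0 := by
  ext a; simp [Sh.om_apply]

theorem Sh.om_sum (h : Sh x D D') {ι : Type*} (s : Finset ι) (f : ι → D →ₗ[K] K) :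
    h.om (∑ i ∈ s, f i) = ∑ i ∈ s, h.om (f i) := by
  classical
  induction s using Finset.induction_on with
  | empty => simp [Sh.om_zero]
  | insert a s ha ih => rw [Finset.sum_insert ha, Finset.sum_insert ha, h.om_add, ih]

theorem Sh.om_mem (h : Sh x D D') (hG : G.NoSink) {τ : D →ₗ[K] K} (hτ : τ ∈ Ch K D) :
    h.om τ ∈ Ch K D' := by
  obtain ⟨n, ρ, hρ, ht⟩ := hτ
  refine mem_Ch_of_fintype (ι := Fin G.nE × Fin n) _
    { toFun := fun a => Matrix.of fun p q => ρ (h.dn p.1 q.1 a) p.2 q.2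
      map_add' := fun a b => by ext p q; simp
      map_smul' := fun c a => by ext p q; simp } ?_ ?_
  · intro a b
    ext p q
    simp only [LinearMap.coe_mk, AddHom.coe_mk, Matrix.of_apply, Matrix.mul_apply]
    rw [Fintype.sum_prod_type]
    have h1 : h.dn p.1 q.1 (a * b) = ∑ e, h.dn p.1 e a * h.dn e q.1 b := by
      apply Subtype.ext
      rw [AddSubmonoidClass.coe_finsetSum]
      have h2 : ∀ e, ((h.dn p.1 e a * h.dn e q.1 b : D) : L) =
          x.g p.1 * a.1 * (x.e e * x.g e) * (b.1 * x.e q.1) := by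
        intro e
        change (x.g p.1 * a.1 * x.e e) * (x.g e * b.1 * x.e q.1) = _
        simp only [mul_assoc]
      rw [Finset.sum_congr rfl (fun e _ => h2 e), ← Finset.sum_mul, ← Finset.mul_sum, x.sum_eg hG,
        mul_one]
      change x.g p.1 * (a.1 * b.1) * x.e q.1 = _
      simp only [mul_assoc]
    rw [h1, map_sum, Matrix.sum_apply]
    refine Finset.sum_congr rfl fun e _ => ?_
    rw [hρ, Matrix.mul_apply]
  · intro a
    simp only [LinearMap.coe_mk, AddHom.coe_mk, Matrix.trace, Matrix.diag, Matrix.of_apply]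
    rw [Fintype.sum_prod_type]
    simp only [Sh.om, LinearMap.sum_apply, LinearMap.comp_apply]
    refine Finset.sum_congr rfl fun e _ => ?_
    rw [ht]
    rfl

/-- Inverse correspondence; `sec` is a section of the range map. -/
def Sh.om' (h : Sh x D D') (sec : Fin G.nV → Fin G.nE) (σ : D' →ₗ[K] K) : D →ₗ[K] K :=
  ∑ v, σ.comp (h.upm (sec v) (sec v))

theorem Sh.om'_apply (h : Sh x D D') (sec : Fin G.nV → Fin G.nE) (σ : D' →ₗ[K] K) (d : D) :
    h.om' sec σ d =
      ∑ v, σ ⟨x.e (sec v) * d.1 * x.g (sec v), h.up d.1 d.2 (sec v) (sec v)⟩ := by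
  simp [Sh.om', Sh.upm]

theorem Sh.om'_mem (h : Sh x D D') (sec : Fin G.nV → Fin G.nE) (hsec : ∀ v, G.r (sec v) = v)
    {σ : D' →ₗ[K] K} (hσ : σ ∈ Ch K D') : h.om' sec σ ∈ Ch K D := by
  obtain ⟨n, ρ, hρ, ht⟩ := hσ
  refine mem_Ch_of_fintype (ι := Fin G.nV × Fin n) _
    { toFun := fun a => Matrix.of fun p q => ρ (h.upm (sec p.1) (sec q.1) a) p.2 q.2
      map_add' := fun a b => by ext p q; simp
      map_smul' := fun c a => by ext p q; simp } ?_ ?_
  · intro a b
    ext p q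
    simp only [LinearMap.coe_mk, AddHom.coe_mk, Matrix.of_apply, Matrix.mul_apply]
    rw [Fintype.sum_prod_type]
    have h1 : h.upm (sec p.1) (sec q.1) (a * b) =
        ∑ v, h.upm (sec p.1) (sec v) a * h.upm (sec v) (sec q.1) b := by
      apply Subtype.ext
      rw [AddSubmonoidClass.coe_finsetSum]
      have h2 : ∀ v, ((h.upm (sec p.1) (sec v) a * h.upm (sec v) (sec q.1) b : D') : L) =
          x.e (sec p.1) * a.1 * (x.p v) * (b.1 * x.g (sec q.1)) := by
        intro v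
        change (x.e (sec p.1) * a.1 * x.g (sec v)) * (x.e (sec v) * b.1 * x.g (sec q.1)) = _
        have hv : x.g (sec v) * x.e (sec v) = x.p v := by rw [x.ge_self, hsec]
        rw [← hv]
        simp only [mul_assoc]
      rw [Finset.sum_congr rfl (fun e _ => h2 e), ← Finset.sum_mul, ← Finset.mul_sum, x.sum_p,
        mul_one]
      change x.e (sec p.1) * (a.1 * b.1) * x.g (sec q.1) = _
      simp only [mul_assoc]
    rw [h1, map_sum, Matrix.sum_apply]
    refine Finset.sum_congr rfl fun e _ => ?_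
    rw [hρ, Matrix.mul_apply]
  · intro a
    simp only [LinearMap.coe_mk, AddHom.coe_mk, Matrix.trace, Matrix.diag, Matrix.of_apply]
    rw [Fintype.sum_prod_type]
    simp only [Sh.om', LinearMap.sum_apply, LinearMap.comp_apply]
    refine Finset.sum_congr rfl fun e _ => ?_
    rw [ht]
    rfl

end Om

end Pool.Agent.GCC
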