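import Pool.Agent.GCC.PvDef

/-!
# Finite direct sums (products) of graded right modules
-/

open MulOpposite DirectSum

namespace Pool.Agent.GCC

universe u

section Internal

variable {ι : Type*} [Fintype ι] {M : ι → Type*} [∀ i, AddCommGroup (M i)]

/-- The product of the homogeneous components. -/
def piGr (gr : ∀ i, ℤ → AddSubgroup (M i)) (n : ℤ) : AddSubgroup (∀ i, M i) where
  carrier := {m | ∀ i, m i ∈ gr i n}
  zero_mem' i := (gr i n).zero_mem
  add_mem' ha hb i := (gr i n).add_mem (ha i) (hb i)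
  neg_mem' ha i := (gr i n).neg_mem (ha i)

theorem mem_piGr {gr : ∀ i, ℤ → AddSubgroup (M i)} {n : ℤ} {m : ∀ i, M i} :
    m ∈ piGr gr n ↔ ∀ i, m i ∈ gr i n := Iff.rfl

theorem isInternal_pi {gr : ∀ i, ℤ → AddSubgroup (M i)} (h : ∀ i, DirectSum.IsInternal (gr i)) :
    DirectSum.IsInternal (piGr gr) := by
  classical
  simp only [isInternal_iff] at h ⊢
  constructor
  · intro m
    choose f hf hs using fun i => (h i).1 (m i)
    refine ⟨∑ i, (f i).mapRange (AddMonoidHom.single M i) (map_zero _), ?_, ?_⟩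
    · intro n i
      rw [Finsupp.finsetSum_apply, Finset.sum_apply]
      refine AddSubgroup.sum_mem _ fun j _ => ?_
      rw [Finsupp.mapRange_apply]
      by_cases hij : i = j
      · subst hij
        simpa using hf i n
      · simp [AddMonoidHom.single_apply, Pi.single_eq_of_ne hij, (gr i n).zero_mem]
    · rw [← Finsupp.sum_finset_sum_index (by simp) (by simp)]
      funext i
      have : ∀ j, ((f j).mapRange (AddMonoidHom.single M j) (map_zero _)).sum (fun _ x => x) =
          Pi.single j (m j) := by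
        intro j
        rw [Finsupp.sum_mapRange_index (by simp)]
        have h1 : ((f j).sum fun _ x => (AddMonoidHom.single M j) x) =
          AddMonoidHom.single M j ((f j).sum fun _ x => x) := by
          rw [map_finsuppSum]
        rw [h1, hs]
        rfl
      rw [Finset.sum_congr rfl (fun j _ => this j), Finset.univ_sum_single]
  · intro f hf hs
    ext n i
    have h1 : f.mapRange (Pi.evalAddMonoidHom M i) (map_zero _) = 0 := by
      apply (h i).2
      · intro j
        exact hf j i
      · rw [Finsupp.sum_mapRange_index (by simp)]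
        have : (f.sum fun _ x => (Pi.evalAddMonoidHom M i) x) =
          Pi.evalAddMonoidHom M i (f.sum fun _ x => x) := by
          rw [map_finsuppSum]
        rw [this, hs]; simp
    have := DFunLike.congr_fun h1 n
    simpa using this

end Internal

variable {R : GrRing.{u}}

/-- Finite direct sum of graded modules. -/
def GrMod.pi {ι : Type} [Fintype ι] (Q : ι → GrMod R) : GrMod R where
  M := ∀ i, (Q i).M
  gr := piGr fun i => (Q i).gr
  smul_mem i j m a hm ha k := (Q k).smul_mem i j (m k) a (hm k) ha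
  internal := isInternal_pi fun i => (Q i).internal

/-- Finite direct sum of finitely generated graded projective modules. -/
def FGProj.pi {ι : Type} [Fintype ι] (Q : ι → FGProj R) : FGProj R :=
  ⟨GrMod.pi fun i => (Q i).1, by
    classical
    have h1 : ∀ i, Module.Finite (R.A)ᵐᵒᵖ (Q i).1.M := fun i => (Q i).2.1
    have h2 : ∀ i, Module.Projective (R.A)ᵐᵒᵖ (Q i).1.M := fun i => (Q i).2.2
    refine ⟨inferInstanceAs (Module.Finite _ (∀ i, (Q i).1.M)), ?_⟩
    exact Module.Projective.of_equiv (DFinsupp.linearEquivFunOnFintype :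
      (Π₀ i, (Q i).1.M) ≃ₗ[(R.A)ᵐᵒᵖ] (∀ i, (Q i).1.M))⟩

theorem V.mk_pi_fin : ∀ (n : ℕ) (Q : Fin n → FGProj R), V.mk (FGProj.pi Q) = ∑ i, V.mk (Q i) := by
  intro n
  induction n with
  | zero =>
    intro Q
    rw [Finset.univ_eq_empty, Finset.sum_empty]
    apply Quotient.sound
    refine ⟨⟨⟨⟨fun _ => PUnit.unit, fun _ _ => rfl⟩, fun _ _ => rfl⟩, fun _ i => i.elim0,
      fun x => funext fun i => i.elim0, fun _ => rfl⟩, ?_⟩
    intro n m
    exact ⟨fun _ => trivial, fun _ i => i.elim0⟩
  | succ n ih =>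
    intro Q
    rw [Fin.sum_univ_succ, ← ih (fun i => Q i.succ), V.mk_add]
    apply Quotient.sound
    refine ⟨(Fin.consLinearEquiv (R.A)ᵐᵒᵖ (fun i => (Q i).1.M)).symm, ?_⟩
    intro k m
    constructor
    · intro h
      exact ⟨h 0, fun i => h i.succ⟩
    · rintro ⟨h0, h1⟩
      intro i
      refine Fin.cases ?_ ?_ i
      · exact h0
      · exact h1

theorem V.mk_pi {ι : Type} [Fintype ι] (Q : ι → FGProj R) :
    V.mk (FGProj.pi Q) = ∑ i, V.mk (Q i) := by
  let e : ι ≃ Fin (Fintype.card ι) := Fintype.equivFin ι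
  rw [← Equiv.sum_comp e.symm (fun i => V.mk (Q i)), ← V.mk_pi_fin]
  apply Quotient.sound
  refine ⟨LinearEquiv.piCongrLeft' (R.A)ᵐᵒᵖ (fun i => (Q i).1.M) e, ?_⟩
  intro n m
  constructor
  · intro h j
    exact h (e.symm j)
  · intro h i
    obtain ⟨j, rfl⟩ := e.symm.surjective i
    exact h j

theorem V.mk_eq_iff {P Q : FGProj R} : V.mk P = V.mk Q ↔ P.1.Iso Q.1 := Quotient.eq (r := FGProj.setoid R)

theorem V.mk_eq_sum {ι : Type} [Fintype ι] (P : FGProj R) (Q : ι → FGProj R)
    (h : P.1.Iso (GrMod.pi fun i => (Q i).1)) : V.mk P = ∑ i, V.mk (Q i) := by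
  rw [← V.mk_pi]
  exact Quotient.sound h

end Pool.Agent.GCC
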