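import Pool.Agent.GCC.RankEq

/-!
# Homogeneous dual bases of finitely generated graded projective modules
-/

open MulOpposite DirectSum

namespace Pool.Agent.GCC

universe u

section Proj

variable {M : Type*} [AddCommGroup M] {gr : ℤ → AddSubgroup M}

/-- The projection to the homogeneous component of degree `n`. -/
noncomputable def ipr (h : DirectSum.IsInternal gr) (n : ℤ) : M →+ M :=
  (gr n).subtype.comp ((DFinsupp.evalAddMonoidHom n).comp
    (AddEquiv.ofBijective (DirectSum.coeAddMonoidHom gr) h).symm.toAddMonoidHom)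

theorem symm_of_mem (h : DirectSum.IsInternal gr) {n : ℤ} {m : M} (hm : m ∈ gr n) :
    (AddEquiv.ofBijective (DirectSum.coeAddMonoidHom gr) h).symm m =
      DirectSum.of (fun i => gr i) n ⟨m, hm⟩ := by
  rw [AddEquiv.symm_apply_eq]
  exact (DirectSum.coeAddMonoidHom_of gr n ⟨m, hm⟩).symm

theorem ipr_mem (h : DirectSum.IsInternal gr) (n : ℤ) (m : M) : ipr h n m ∈ gr n :=
  Subtype.property _

theorem ipr_same (h : DirectSum.IsInternal gr) {n : ℤ} {m : M} (hm : m ∈ gr n) :
    ipr h n m = m := by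
  change (((AddEquiv.ofBijective (DirectSum.coeAddMonoidHom gr) h).symm m) n : M) = m
  rw [symm_of_mem h hm, DirectSum.of_eq_same]

theorem ipr_ne (h : DirectSum.IsInternal gr) {n k : ℤ} {m : M} (hm : m ∈ gr k) (hk : k ≠ n) :
    ipr h n m = 0 := by
  change (((AddEquiv.ofBijective (DirectSum.coeAddMonoidHom gr) h).symm m) n : M) = 0
  rw [symm_of_mem h hm, DirectSum.of_eq_of_ne _ _ _ hk.symm]
  rfl

theorem gr_induction (h : DirectSum.IsInternal gr) {p : M → Prop} (h0 : p 0)
    (hadd : ∀ a b, p a → p b → p (a + b)) (hgr : ∀ n, ∀ m ∈ gr n, p m) (m : M) : p m := by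
  obtain ⟨f, hf, rfl⟩ := ((isInternal_iff gr).mp h).1 m
  unfold Finsupp.sum
  exact Finset.sum_induction _ p hadd h0 fun i _ => hgr i _ (hf i)

end Proj

variable {R : GrRing.{u}}

theorem ipr_smul (Q : GrMod R) {k l : ℤ} {a : R.A} (ha : a ∈ R.gr l) (z : Q.M) :
    ipr Q.internal (k + l) (op a • z) = op a • ipr Q.internal k z := by
  refine gr_induction Q.internal (p := fun z => ipr Q.internal (k + l) (op a • z) =
    op a • ipr Q.internal k z) ?_ ?_ ?_ z
  · rw [smul_zero, map_zero, map_zero, smul_zero]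
  · intro x y hx hy
    rw [smul_add, map_add, map_add, smul_add, hx, hy]
  · intro s x hx
    by_cases hs : s = k
    · subst hs
      rw [ipr_same _ (Q.smul_mem s l x a hx ha), ipr_same _ hx]
    · rw [ipr_ne _ (Q.smul_mem s l x a hx ha) (by omega), ipr_ne _ hx hs, smul_zero]

/-- The degree zero part of a homomorphism. -/
theorem exists_degree_zero (P Q : GrMod R) (f : P.M →ₗ[(R.A)ᵐᵒᵖ] Q.M) :
    ∃ f0 : P.M →ₗ[(R.A)ᵐᵒᵖ] Q.M, ∀ n, ∀ m ∈ P.gr n, f0 m = ipr Q.internal n (f m) := by
  let F : P.M →+ Q.M := (DirectSum.toAddMonoid (fun k => ((ipr Q.internal k).comp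
      f.toAddMonoidHom).comp (P.gr k).subtype)).comp
    (AddEquiv.ofBijective (DirectSum.coeAddMonoidHom P.gr) P.internal).symm.toAddMonoidHom
  have hF : ∀ n, ∀ m ∈ P.gr n, F m = ipr Q.internal n (f m) := by
    intro n m hm
    change DirectSum.toAddMonoid (fun k => ((ipr Q.internal k).comp
      f.toAddMonoidHom).comp (P.gr k).subtype)
      ((AddEquiv.ofBijective (DirectSum.coeAddMonoidHom P.gr) P.internal).symm m) = _
    rw [symm_of_mem P.internal hm, DirectSum.toAddMonoid_of]
    rfl
  have hlin : ∀ (a : R.A) (m : P.M), F (op a • m) = op a • F m := by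
    intro a
    refine gr_induction R.internal (p := fun a => ∀ m : P.M, F (op a • m) = op a • F m)
      ?_ ?_ ?_ a
    · intro m
      rw [op_zero, zero_smul, zero_smul, map_zero]
    · intro x y hx hy m
      rw [op_add, add_smul, add_smul, map_add, hx, hy]
    · intro l x hx m
      refine gr_induction P.internal (p := fun m => F (op x • m) = op x • F m) ?_ ?_ ?_ m
      · rw [smul_zero, map_zero, smul_zero]
      · intro y z hy hz
        rw [smul_add, map_add, map_add, smul_add, hy, hz]
      · intro k y hy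
        rw [hF _ _ (P.smul_mem k l y x hy hx), hF _ _ hy, map_smul, ipr_smul Q hx]
  exact ⟨{ toFun := F, map_add' := map_add F, map_smul' := fun a m => hlin (unop a) m }, hF⟩

/-- Homogeneous generators. -/
theorem exists_homogeneous_generators (P : GrMod R) (hP : Module.Finite (R.A)ᵐᵒᵖ P.M) :
    ∃ (n : ℕ) (m : Fin n → P.M) (d : Fin n → ℤ), (∀ j, m j ∈ P.gr (d j)) ∧
      Submodule.span (R.A)ᵐᵒᵖ (Set.range m) = ⊤ := by
  classical
  obtain ⟨s, hs⟩ := hP.fg_top
  choose f hf hfs using ((isInternal_iff P.gr).mp P.internal).1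
  let ι := Σ x : s, (f x.1).support
  let e : ι ≃ Fin (Fintype.card ι) := Fintype.equivFin ι
  refine ⟨Fintype.card ι, fun j => f (e.symm j).1.1 (e.symm j).2.1, fun j => (e.symm j).2.1,
    fun j => hf _ _, ?_⟩
  rw [eq_top_iff, ← hs, Submodule.span_le]
  intro x hx
  have h1 : ∀ i, f x i ∈ Submodule.span (R.A)ᵐᵒᵖ (Set.range
      fun j => f (e.symm j).1.1 (e.symm j).2.1) := by
    intro i
    by_cases hi : i ∈ (f x).support
    · refine Submodule.subset_span ⟨e ⟨⟨x, hx⟩, ⟨i, hi⟩⟩, ?_⟩
      change (fun q : ι => f q.1.1 q.2.1) (e.symm (e ⟨⟨x, hx⟩, ⟨i, hi⟩⟩)) = _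
      rw [Equiv.symm_apply_apply]
    · rw [Finsupp.notMem_support_iff.mp hi]
      exact Submodule.zero_mem _
  have h2 := hfs x
  rw [SetLike.mem_coe, ← h2]
  exact Submodule.sum_mem _ fun i _ => h1 i

/-- Homogeneous dual bases. -/
theorem exists_dual_basis (P : FGProj R) :
    ∃ (n : ℕ) (m : Fin n → P.1.M) (d : Fin n → ℤ) (f : Fin n → (P.1.M →ₗ[(R.A)ᵐᵒᵖ] R.A)),
      (∀ j, m j ∈ P.1.gr (d j)) ∧ (∀ j k x, x ∈ P.1.gr k → f j x ∈ R.gr (k - d j)) ∧
      ∀ x, ∑ j, op (f j x) • m j = x := by
  obtain ⟨P, hfin, hproj⟩ := P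
  obtain ⟨n, m, d, hm, hspan⟩ := exists_homogeneous_generators P hfin
  refine ⟨n, m, d, ?_⟩
  let Q : GrMod R := GrMod.pi fun j : Fin n => (GrMod.self R).shift (-d j)
  let c : Q.M → Fin n → R.A := fun z => z
  let π : Q.M →ₗ[(R.A)ᵐᵒᵖ] P.M :=
    { toFun := fun z => ∑ j, op (c z j) • m j
      map_add' := by
        intro x y
        rw [← Finset.sum_add_distrib]
        refine Finset.sum_congr rfl fun j _ => ?_
        change op (c x j + c y j) • m j = _
        rw [op_add, add_smul]
      map_smul' := by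
        intro a x
        rw [Finset.smul_sum]
        refine Finset.sum_congr rfl fun j _ => ?_
        change op (c x j * unop a) • m j = _
        rw [op_mul, op_unop, mul_smul]
        rfl }
  have hπ : ∀ k, ∀ z ∈ Q.gr k, π z ∈ P.gr k := by
    intro k z hz
    change ∑ j, op (c z j) • m j ∈ P.gr k
    refine AddSubgroup.sum_mem _ fun j _ => ?_
    have h1 : c z j ∈ R.gr (k + -d j) := hz j
    have h2 := P.smul_mem (d j) (k + -d j) (m j) (c z j) (hm j) h1
    rwa [show d j + (k + -d j) = k by ring] at h2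
  have hsurj : Function.Surjective π := by
    rw [← LinearMap.range_eq_top, eq_top_iff, ← hspan, Submodule.span_le]
    rintro _ ⟨j, rfl⟩
    classical
    let w : Fin n → R.A := Pi.single j (1 : R.A)
    refine ⟨w, ?_⟩
    change ∑ i, op (w i) • m i = m j
    rw [Finset.sum_eq_single j]
    · rw [show w j = 1 from Pi.single_eq_same _ _, op_one, one_smul]
    · intro i _ hi
      rw [show w i = 0 from Pi.single_eq_of_ne hi _, op_zero, zero_smul]
    · intro h
      exact absurd (Finset.mem_univ j) h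
  obtain ⟨σ, hσ⟩ := Module.projective_lifting_property π LinearMap.id hsurj
  obtain ⟨σ0, hσ0⟩ := exists_degree_zero P Q σ
  have hpr : ∀ k (z : Q.M), π (ipr Q.internal k z) = ipr P.internal k (π z) := by
    intro k z
    refine gr_induction Q.internal
      (p := fun z => π (ipr Q.internal k z) = ipr P.internal k (π z)) ?_ ?_ ?_ z
    · rw [map_zero, map_zero, map_zero]
    · intro x y hx hy
      rw [map_add, map_add, map_add, map_add, hx, hy]
    · intro s x hx
      by_cases hs : s = k
      · subst hs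
        rw [ipr_same _ hx, ipr_same _ (hπ _ _ hx)]
      · rw [ipr_ne _ hx hs, ipr_ne _ (hπ _ _ hx) hs, map_zero]
  have hid : ∀ x, π (σ0 x) = x := by
    intro x
    refine gr_induction P.internal (p := fun x => π (σ0 x) = x) ?_ ?_ ?_ x
    · rw [map_zero, map_zero]
    · intro x y hx hy
      rw [map_add, map_add, hx, hy]
    · intro s x hx
      have h1 : π (σ x) = x := LinearMap.congr_fun hσ x
      rw [hσ0 _ _ hx, hpr, h1, ipr_same _ hx]
  refine ⟨fun j => { toFun := fun x => c (σ0 x) j
                     map_add' := fun x y => by rw [map_add]; rfl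
                     map_smul' := fun a x => by rw [map_smul]; rfl }, hm, ?_, hid⟩
  intro j k x hx
  have h1 : σ0 x ∈ Q.gr k := by
    rw [hσ0 _ _ hx]
    exact ipr_mem _ _ _
  have h2 : c (σ0 x) j ∈ R.gr (k + -d j) := h1 j
  rw [sub_eq_add_neg]
  exact h2

end Pool.Agent.GCC
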