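import Pool.Agent.GCC.ProjDual

/-!
# Every finitely generated graded projective module over a Leavitt path algebra is a finite direct
sum of modules `P_v(i)`
-/

open MulOpposite DirectSum

namespace Pool.Agent.GCC

universe u

/-- Rank factorization of an idempotent block matrix, compatible with the blocks. -/
theorem block_factor {K : Type*} [Field K] {κ S : Type*} [Fintype κ] [DecidableEq κ]
    [Fintype S] [DecidableEq S] (v : κ → S) (C : κ → κ → K)
    (hC0 : ∀ k k', v k ≠ v k' → C k k' = 0)
    (hC : ∀ k k', ∑ j, C k j * C j k' = C k k') :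
    ∃ (n : S → ℕ) (A : κ → (Σ s, Fin (n s)) → K) (B : (Σ s, Fin (n s)) → κ → K),
      (∀ k r, v k ≠ r.1 → A k r = 0) ∧ (∀ k r, v k ≠ r.1 → B r k = 0) ∧
      (∀ k k', ∑ r, A k r * B r k' = C k k') ∧
      (∀ r r', ∑ k, B r k * A k r' = if r = r' then 1 else 0) := by
  let T : S → ((κ → K) →ₗ[K] (κ → K)) := fun s =>
    { toFun := fun z k => if v k = s then ∑ j, C k j * z j else 0
      map_add' := by
        intro x y
        funext k
        by_cases h : v k = s
        · simp only [h, if_true, Pi.add_apply, mul_add, Finset.sum_add_distrib]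
        · simp only [h, if_false, Pi.add_apply, add_zero]
      map_smul' := by
        intro c x
        funext k
        by_cases h : v k = s
        · simp only [h, if_true, Pi.smul_apply, smul_eq_mul, RingHom.id_apply, Finset.mul_sum]
          exact Finset.sum_congr rfl fun j _ => by ring
        · simp only [h, if_false, Pi.smul_apply, smul_eq_mul, RingHom.id_apply, mul_zero] }
  have hT : ∀ s z k, T s z k = if v k = s then ∑ j, C k j * z j else 0 := fun s z k => rfl
  have hT0 : ∀ s (w : LinearMap.range (T s)) k, v k ≠ s → w.1 k = 0 := by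
    rintro s ⟨_, z, rfl⟩ k hk
    exact if_neg hk
  have hTe : ∀ s k k', T s (Pi.single k 1) k' = if v k' = s then C k' k else 0 := by
    intro s k k'
    rw [hT, Finset.sum_eq_single k]
    · rw [Pi.single_eq_same, mul_one]
    · intro j _ hj
      rw [Pi.single_eq_of_ne hj, mul_zero]
    · intro h
      exact absurd (Finset.mem_univ k) h
  have hTT : ∀ s z, T s (T s z) = T s z := by
    intro s z
    funext k
    rw [hT, hT]
    by_cases h : v k = s
    · rw [if_pos h, if_pos h]
      have h1 : ∀ j, C k j * T s z j = ∑ i, C k j * C j i * z i := by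
        intro j
        rw [hT]
        by_cases hj : v j = s
        · rw [if_pos hj, Finset.mul_sum]
          exact Finset.sum_congr rfl fun i _ => by ring
        · rw [if_neg hj, mul_zero, hC0 k j (fun e => hj (e.symm.trans h))]
          simp
      rw [Finset.sum_congr rfl (fun j _ => h1 j), Finset.sum_comm]
      refine Finset.sum_congr rfl fun i _ => ?_
      rw [← Finset.sum_mul, hC]
    · rw [if_neg h, if_neg h]
  have hTT' : ∀ s s' z, s ≠ s' → T s (T s' z) = 0 := by
    intro s s' z hs
    funext k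
    rw [hT]
    by_cases h : v k = s
    · rw [if_pos h]
      refine Finset.sum_eq_zero fun j _ => ?_
      rw [hT]
      by_cases hj : v j = s'
      · rw [hC0 k j (fun e => hs (by rw [← h, e, hj])), zero_mul]
      · rw [if_neg hj, mul_zero]
    · rw [if_neg h]
      rfl
  let b : ∀ s, Module.Basis (Fin (Module.finrank K (LinearMap.range (T s)))) K
    (LinearMap.range (T s)) := fun s => Module.finBasis K (LinearMap.range (T s))
  let te : ∀ s (z : κ → K), LinearMap.range (T s) := fun s z => ⟨T s z, z, rfl⟩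
  refine ⟨fun s => Module.finrank K (LinearMap.range (T s)), fun k r => (b r.1 r.2).1 k,
    fun r k => (b r.1).repr (te r.1 (Pi.single k 1)) r.2, ?_, ?_, ?_, ?_⟩
  · intro k r h
    exact hT0 r.1 _ k h
  · intro k r h
    have h1 : te r.1 (Pi.single k 1) = 0 := by
      apply Subtype.ext
      funext k'
      change T r.1 (Pi.single k 1) k' = 0
      rw [hTe]
      by_cases hk : v k' = r.1
      · rw [if_pos hk, hC0 k' k (fun e => h (by rw [← e, hk]))]
      · rw [if_neg hk]
    simp only [h1, map_zero, Finsupp.coe_zero, Pi.zero_apply]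
  · intro k k'
    rw [Fintype.sum_sigma]
    have h1 : ∀ s, ∑ i, (b s i).1 k * (b s).repr (te s (Pi.single k' 1)) i =
        if v k = s then C k k' else 0 := by
      intro s
      rw [← hTe s k' k]
      have h2 := congrArg (fun w : LinearMap.range (T s) => w.1 k)
        ((b s).sum_repr (te s (Pi.single k' 1)))
      simp only [AddSubmonoidClass.coe_finsetSum, Finset.sum_apply] at h2
      rw [show T s (Pi.single k' 1) k = (te s (Pi.single k' 1)).1 k from rfl, ← h2]
      refine Finset.sum_congr rfl fun i _ => ?_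
      rw [mul_comm]
      rfl
    rw [Finset.sum_congr rfl (fun s _ => h1 s), Finset.sum_ite_eq Finset.univ (v k)]
    simp
  · intro r r'
    let φ : (κ → K) →ₗ[K] K := (Finsupp.lapply r.2).comp
      ((b r.1).repr.toLinearMap.comp ((T r.1).rangeRestrict))
    have hφ : ∀ z, φ z = (b r.1).repr (te r.1 z) r.2 := fun z => rfl
    have h1 : ∀ z : κ → K, ∑ k, (b r.1).repr (te r.1 (Pi.single k 1)) r.2 * z k = φ z := by
      intro z
      conv_rhs => rw [← Finset.univ_sum_single z, map_sum]
      refine Finset.sum_congr rfl fun k _ => ?_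
      rw [← hφ, mul_comm, ← smul_eq_mul, ← map_smul, ← Pi.single_smul, smul_eq_mul, mul_one]
    rw [h1, hφ]
    obtain ⟨z, hz⟩ := (b r'.1 r'.2).2
    by_cases hs : r.1 = r'.1
    · obtain ⟨s, i⟩ := r
      obtain ⟨s', i'⟩ := r'
      simp only at hs
      subst hs
      have h2 : te s (b s i').1 = b s i' := by
        apply Subtype.ext
        change T s (b s i').1 = (b s i').1
        simp only at hz
        rw [← hz, hTT]
      simp only
      rw [h2, Module.Basis.repr_self, Finsupp.single_apply]
      by_cases hi : i' = i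
      · subst hi
        simp
      · rw [if_neg hi, if_neg]
        intro e
        apply hi
        simpa using e.symm
    · have h2 : te r.1 (b r'.1 r'.2).1 = 0 := by
        apply Subtype.ext
        change T r.1 (b r'.1 r'.2).1 = 0
        rw [← hz, hTT' _ _ _ hs]
      rw [h2, map_zero, if_neg (fun e => hs (by rw [e]))]
      rfl

namespace CKFamily

variable {G : FinGraph} {L : Type*} [Ring L] (F : CKFamily G L)
variable (K : Type*) [Field K] [Algebra K L]

theorem M_mul_P0 (a : ℕ) : F.M K a 0 * F.P0 K ≤ F.M K a 0 := by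
  rw [M_right_zero, mul_assoc, P0_mul_P0]

theorem P0_mul_M' (b : ℕ) : F.P0 K * F.M K 0 b ≤ F.M K 0 b := by
  unfold M
  rw [pow_zero, one_mul, ← mul_assoc, P0_mul_P0]

/-- `1 = ∑ a_t b_t` with `a_t` in the span of the paths of length `l` ending at `v_t` and `b_t` in
the span of the ghost paths. -/
theorem one_decomp (hs : G.NoSink) (l : ℕ) : ∃ (τ : Type) (_ : Fintype τ) (v : τ → Fin G.nV)
    (a b : τ → L), (∀ t, a t ∈ F.M K l 0 ∧ a t * F.p (v t) = a t) ∧
      (∀ t, b t ∈ F.M K 0 l ∧ F.p (v t) * b t = b t) ∧ ∑ t, a t * b t = 1 := by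
  have h1 : (1 : L) ∈ F.M K l 0 * F.M K 0 l := by
    have h := F.one_mem_lv K hs l
    unfold lv at h
    have e : F.M K l l = F.M K l 0 * F.M K 0 l := by
      unfold M
      rw [pow_zero, pow_zero, mul_one, one_mul]
      conv_lhs => rw [← F.P0_mul_P0 K]
      simp only [mul_assoc]
    rwa [e] at h
  refine Submodule.mul_induction_on h1 ?_ ?_
  · intro x hx y hy
    refine ⟨Fin G.nV, inferInstance, id, fun v => x * F.p v, fun v => F.p v * y, ?_, ?_, ?_⟩
    · intro v
      refine ⟨F.M_mul_P0 K l (Submodule.mul_mem_mul hx (F.p_mem K v)), ?_⟩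
      rw [mul_assoc, id, F.pp_self]
    · intro v
      refine ⟨F.P0_mul_M' K l (Submodule.mul_mem_mul (F.p_mem K v) hy), ?_⟩
      rw [← mul_assoc, id, F.pp_self]
    · have h2 : ∀ v, x * F.p v * (F.p v * y) = x * F.p v * y := by
        intro v
        rw [mul_assoc x, ← mul_assoc (F.p v), F.pp_self, ← mul_assoc]
      rw [Finset.sum_congr rfl (fun v _ => h2 v), ← Finset.sum_mul, ← Finset.mul_sum, F.sum_p,
        mul_one]
  · rintro x y ⟨τ, _, v, a, b, ha, hb, hx⟩ ⟨τ', _, v', a', b', ha', hb', hy⟩
    refine ⟨τ ⊕ τ', inferInstance, Sum.elim v v', Sum.elim a a', Sum.elim b b', ?_, ?_, ?_⟩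
    · rintro (t | t)
      · exact ha t
      · exact ha' t
    · rintro (t | t)
      · exact hb t
      · exact hb' t
    · rw [Fintype.sum_sum_type, ← hx, ← hy]
      rfl

end CKFamily

namespace LPA

variable {K : Type u} [Field K] {G : FinGraph}

/-- Left multiplication as a homomorphism of right modules. -/
def lmul {A : Type*} [Ring A] (a : A) : A →ₗ[Aᵐᵒᵖ] A where
  toFun x := a * x
  map_add' x y := mul_add a x y
  map_smul' c x := (mul_assoc a x (unop c)).symm

theorem lmul_apply {A : Type*} [Ring A] (a x : A) : lmul a x = a * x := rfl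

section Abstract

variable {M : Type*} [AddCommGroup M] [Module (LPA K G)ᵐᵒᵖ M] (grM : ℤ → AddSubgroup M)

/-- Refined dual basis: generators in one degree, functionals with scalar values on them. -/
theorem exists_refined (hs : G.NoSink)
    (hsm : ∀ (i j : ℤ) (m : M) (a : LPA K G), m ∈ grM i → a ∈ gr K G j → op a • m ∈ grM (i + j))
    (hdb : ∃ (n : ℕ) (m : Fin n → M) (d : Fin n → ℤ)
      (f : Fin n → (M →ₗ[(LPA K G)ᵐᵒᵖ] LPA K G)),
      (∀ j, m j ∈ grM (d j)) ∧ (∀ j k x, x ∈ grM k → f j x ∈ gr K G (k - d j)) ∧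
      ∀ x, ∑ j, op (f j x) • m j = x) :
    ∃ (κ : Type) (_ : Fintype κ) (v : κ → Fin G.nV) (N : ℤ) (x : κ → M)
      (g : κ → (M →ₗ[(LPA K G)ᵐᵒᵖ] LPA K G)) (c : κ → κ → K),
      (∀ k, x k ∈ grM N) ∧ (∀ k, op ((family K G).p (v k)) • x k = x k) ∧
      (∀ k n y, y ∈ grM n → g k y ∈ gr K G (n - N)) ∧
      (∀ k y, (family K G).p (v k) * g k y = g k y) ∧
      (∀ y, ∑ k, op (g k y) • x k = y) ∧
      (∀ k k', v k ≠ v k' → c k k' = 0) ∧
      (∀ k k', g k (x k') = c k k' • (family K G).p (v k)) := by
  obtain ⟨n, m, d, f, hm, hf, hmf⟩ := hdb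
  have hf' : ∀ j k, f j (m k) ∈ gr K G (d k - d j) := fun j k => hf j (d k) (m k) (hm k)
  choose N0 hN0 using fun j k => mem_M_of_mem_gr hs (hf' j k)
  obtain ⟨N, hN1, hN2⟩ : ∃ N : ℤ, (∀ j, d j ≤ N) ∧ ∀ j k, (N0 j k : ℤ) ≤ N - d k := by
    refine ⟨∑ j, |d j| + ∑ j, ∑ k, (N0 j k : ℤ), ?_, ?_⟩
    · intro j
      have h1 : |d j| ≤ ∑ j, |d j| :=
        Finset.single_le_sum (f := fun j => |d j|) (fun i _ => abs_nonneg _) (Finset.mem_univ j)
      have h2 : (0 : ℤ) ≤ ∑ j, ∑ k, (N0 j k : ℤ) :=
        Finset.sum_nonneg fun j _ => Finset.sum_nonneg fun k _ => by positivity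
      have h3 := le_abs_self (d j)
      linarith
    · intro j k
      have h1 : |d k| ≤ ∑ j, |d j| :=
        Finset.single_le_sum (f := fun j => |d j|) (fun i _ => abs_nonneg _) (Finset.mem_univ k)
      have h2 : (N0 j k : ℤ) ≤ ∑ j, ∑ k, (N0 j k : ℤ) := by
        refine le_trans ?_ (Finset.single_le_sum (f := fun j => ∑ k, (N0 j k : ℤ))
          (fun i _ => Finset.sum_nonneg fun k _ => by positivity) (Finset.mem_univ j))
        exact Finset.single_le_sum (f := fun k => (N0 j k : ℤ))
          (fun k _ => by positivity) (Finset.mem_univ k)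
      have h3 := le_abs_self (d k)
      linarith
  let l : Fin n → ℕ := fun j => (N - d j).toNat
  have hl : ∀ j, (l j : ℤ) = N - d j := fun j => Int.toNat_of_nonneg (by have := hN1 j; linarith)
  have hM : ∀ j k, f j (m k) ∈ (family K G).M K (l j) (l k) := by
    intro j k
    apply hN0 j k
    · rw [hl, hl]; ring
    · have := hN2 j k
      rw [← hl] at this
      exact_mod_cast this
  choose τ iτ v a b ha hb hab using fun j => (family K G).one_decomp K hs (l j)
  have key : ∀ k k' : Σ j, τ j, ∃ c : K, (v k.1 k.2 ≠ v k'.1 k'.2 → c = 0) ∧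
      b k.1 k.2 * (f k.1 (m k'.1) * a k'.1 k'.2) = c • (family K G).p (v k.1 k.2) := by
    intro k k'
    have h1 : b k.1 k.2 * (f k.1 (m k'.1) * a k'.1 k'.2) ∈
        (family K G).U K (v k.1 k.2) (v k'.1 k'.2) 0 := by
      refine ⟨?_, ?_, ?_⟩
      · have h2 := (family K G).M_mul_M_le K _ _ _
          (Submodule.mul_mem_mul (hM k.1 k'.1) (ha k'.1 k'.2).1)
        exact (family K G).M_mul_M_le K _ _ _ (Submodule.mul_mem_mul (hb k.1 k.2).1 h2)
      · rw [← mul_assoc, (hb k.1 k.2).2]
      · rw [mul_assoc, mul_assoc, (ha k'.1 k'.2).2]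
    by_cases hv : v k.1 k.2 = v k'.1 k'.2
    · rw [← hv, CKFamily.U_zero_self, Submodule.mem_span_singleton] at h1
      obtain ⟨c, hc⟩ := h1
      exact ⟨c, fun h => absurd hv h, hc.symm⟩
    · rw [CKFamily.U_zero_ne _ K hv, Submodule.mem_bot] at h1
      exact ⟨0, fun _ => rfl, by rw [h1, zero_smul]⟩
  choose c hc0 hc using key
  refine ⟨Σ j, τ j, inferInstance, fun k => v k.1 k.2, N, fun k => op (a k.1 k.2) • m k.1,
    fun k => (lmul (b k.1 k.2)).comp (f k.1), c, ?_, ?_, ?_, ?_, ?_, hc0, ?_⟩
  · intro k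
    have h1 : a k.1 k.2 ∈ gr K G (l k.1) := by
      have := M_le_gr (K := K) (G := G) (l k.1) 0 (ha k.1 k.2).1
      simpa using this
    have h2 := hsm (d k.1) (l k.1) (m k.1) (a k.1 k.2) (hm k.1) h1
    rwa [hl, add_sub_cancel] at h2
  · intro k
    rw [← mul_smul, ← op_mul, (ha k.1 k.2).2]
  · intro k n' y hy
    have h1 : b k.1 k.2 ∈ gr K G (-(l k.1 : ℤ)) := by
      have := M_le_gr (K := K) (G := G) 0 (l k.1) (hb k.1 k.2).1
      simpa using this
    have h2 : b k.1 k.2 * f k.1 y ∈ gr K G (-(l k.1 : ℤ) + (n' - d k.1)) :=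
      mul_mem_gr h1 (hf k.1 n' y hy)
    rw [hl] at h2
    rwa [show -(N - d k.1) + (n' - d k.1) = n' - N by ring] at h2
  · intro k y
    change (family K G).p (v k.1 k.2) * (b k.1 k.2 * f k.1 y) = b k.1 k.2 * f k.1 y
    rw [← mul_assoc, (hb k.1 k.2).2]
  · intro y
    rw [Fintype.sum_sigma]
    conv_rhs => rw [← hmf y]
    refine Finset.sum_congr rfl fun j _ => ?_
    have h1 : ∀ t, op (b j t * f j y) • op (a j t) • m j = op (a j t * b j t * f j y) • m j := by
      intro t
      rw [← mul_smul, ← op_mul, mul_assoc]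
    change ∑ t, op (b j t * f j y) • op (a j t) • m j = op (f j y) • m j
    rw [Finset.sum_congr rfl (fun t _ => h1 t), ← Finset.sum_smul]
    congr 1
    have h2 : ∑ t, op (a j t * b j t * f j y) = op (∑ t, a j t * b j t * f j y) :=
      (map_sum (opAddEquiv (α := LPA K G)) (fun t => a j t * b j t * f j y) Finset.univ).symm
    rw [h2, ← Finset.sum_mul, hab, one_mul]
  · intro k k'
    change b k.1 k.2 * f k.1 (op (a k'.1 k'.2) • m k'.1) = _
    rw [map_smul]
    exact hc k k'

/-- The decomposition for the abstract data. -/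
theorem exists_equiv (hs : G.NoSink)
    (hsm : ∀ (i j : ℤ) (m : M) (a : LPA K G), m ∈ grM i → a ∈ gr K G j → op a • m ∈ grM (i + j))
    (hdb : ∃ (n : ℕ) (m : Fin n → M) (d : Fin n → ℤ)
      (f : Fin n → (M →ₗ[(LPA K G)ᵐᵒᵖ] LPA K G)),
      (∀ j, m j ∈ grM (d j)) ∧ (∀ j k x, x ∈ grM k → f j x ∈ gr K G (k - d j)) ∧
      ∀ x, ∑ j, op (f j x) • m j = x) :
    ∃ (ρ : Type) (_ : Fintype ρ) (v : ρ → Fin G.nV) (N : ℤ)
      (e : M ≃ₗ[(LPA K G)ᵐᵒᵖ] (∀ r, fixSub ((family K G).p (v r)))),
      ∀ n y, y ∈ grM n ↔ ∀ r, (e y r).1 ∈ gr K G (n + -N) := by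
  classical
  obtain ⟨κ, iκ, v, N, x, g, c, hx, hxp, hg, hpg, hdual, hc0, hgx⟩ := exists_refined grM hs hsm hdb
  have hp : ∀ v, (family K G).p v ≠ 0 := family_p_ne_zero K hs
  have hself : ∀ k', x k' = ∑ k, op (c k k' • (1 : LPA K G)) • x k := by
    intro k'
    conv_lhs => rw [← hdual (x k')]
    refine Finset.sum_congr rfl fun k _ => ?_
    rw [hgx]
    conv_rhs => rw [← hxp k]
    rw [← mul_smul, ← op_mul, mul_smul_comm, mul_one]
  have hC : ∀ k k', ∑ j, c k j * c j k' = c k k' := by
    intro k k'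
    have h1 := hgx k k'
    conv_lhs at h1 => rw [hself k', map_sum]
    have h2 : ∀ j, g k (op (c j k' • (1 : LPA K G)) • x j) =
        (c k j * c j k') • (family K G).p (v k) := by
      intro j
      rw [map_smul, hgx]
      change c k j • (family K G).p (v k) * (c j k' • (1 : LPA K G)) = _
      rw [smul_mul_smul_comm, mul_one]
    rw [Finset.sum_congr rfl (fun j _ => h2 j), ← Finset.sum_smul] at h1
    exact smul_left_injective K (hp (v k)) h1
  obtain ⟨n, A, B, hA, hB, hAB, hBA⟩ := block_factor v c hc0 hC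
  let y : (Σ s, Fin (n s)) → M := fun r => ∑ k, op (A k r • (1 : LPA K G)) • x k
  let h : (Σ s, Fin (n s)) → (M →ₗ[(LPA K G)ᵐᵒᵖ] LPA K G) := fun r =>
    ∑ k, (lmul (B r k • (1 : LPA K G))).comp (g k)
  have happ : ∀ r m, h r m = ∑ k, B r k • g k m := by
    intro r m
    change (∑ k, (lmul (B r k • (1 : LPA K G))).comp (g k)) m = _
    rw [LinearMap.sum_apply]
    refine Finset.sum_congr rfl fun k _ => ?_
    rw [LinearMap.comp_apply, lmul_apply, smul_mul_assoc, one_mul]
  have hph : ∀ r m, (family K G).p r.1 * h r m = h r m := by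
    intro r m
    rw [happ, Finset.mul_sum]
    refine Finset.sum_congr rfl fun k _ => ?_
    rw [mul_smul_comm]
    by_cases hk : v k = r.1
    · rw [← hk, hpg]
    · rw [hB k r hk, zero_smul, zero_smul]
  have hgy : ∀ k r, g k (y r) = (∑ k', c k k' * A k' r) • (family K G).p (v k) := by
    intro k r
    change g k (∑ k', op (A k' r • (1 : LPA K G)) • x k') = _
    rw [map_sum, Finset.sum_smul]
    refine Finset.sum_congr rfl fun k' _ => ?_
    rw [map_smul, hgx]
    change c k k' • (family K G).p (v k) * (A k' r • (1 : LPA K G)) = _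
    rw [smul_mul_smul_comm, mul_one]
  have hCA : ∀ k r, ∑ k', c k k' * A k' r = A k r := by
    intro k r
    have h1 : ∀ k', c k k' * A k' r = ∑ r', A k r' * (B r' k' * A k' r) := by
      intro k'
      rw [← hAB, Finset.sum_mul]
      exact Finset.sum_congr rfl fun r' _ => by ring
    rw [Finset.sum_congr rfl (fun k' _ => h1 k'), Finset.sum_comm]
    have h2 : ∀ r', ∑ k', A k r' * (B r' k' * A k' r) = if r' = r then A k r' else 0 := by
      intro r'
      rw [← Finset.mul_sum, hBA, mul_ite, mul_one, mul_zero]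
    rw [Finset.sum_congr rfl (fun r' _ => h2 r'), Finset.sum_ite_eq' Finset.univ r]
    simp
  have hhy : ∀ r r', h r (y r') = if r = r' then (family K G).p r.1 else 0 := by
    intro r r'
    rw [happ]
    have h1 : ∀ k, B r k • g k (y r') = (B r k * A k r') • (family K G).p r.1 := by
      intro k
      rw [hgy, hCA, smul_smul]
      by_cases hk : v k = r.1
      · rw [hk]
      · rw [hB k r hk, zero_mul, zero_smul, zero_smul]
    rw [Finset.sum_congr rfl (fun k _ => h1 k), ← Finset.sum_smul, hBA]
    split_ifs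
    · rw [one_smul]
    · rw [zero_smul]
  have hyp : ∀ r, op ((family K G).p r.1) • y r = y r := by
    intro r
    change op ((family K G).p r.1) • ∑ k, op (A k r • (1 : LPA K G)) • x k =
      ∑ k, op (A k r • (1 : LPA K G)) • x k
    rw [Finset.smul_sum]
    refine Finset.sum_congr rfl fun k _ => ?_
    by_cases hk : v k = r.1
    · conv_rhs => rw [← hxp k]
      rw [← mul_smul, ← mul_smul, ← op_mul, ← op_mul, hk, smul_mul_assoc, one_mul,
        mul_smul_comm, mul_one]
    · rw [hA k r hk, zero_smul, op_zero, zero_smul, smul_zero]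
  have hid : ∀ m, ∑ r, op (h r m) • y r = m := by
    intro m
    have h1 : ∀ r, op (h r m) • y r = ∑ k', ∑ k, op ((A k' r * B r k) • g k m) • x k' := by
      intro r
      change op (h r m) • ∑ k', op (A k' r • (1 : LPA K G)) • x k' = _
      rw [Finset.smul_sum]
      refine Finset.sum_congr rfl fun k' _ => ?_
      rw [← mul_smul, ← op_mul, smul_mul_assoc, one_mul, happ, Finset.smul_sum]
      have h2 : op (∑ k, A k' r • B r k • g k m) = ∑ k, op ((A k' r * B r k) • g k m) := by
        have h4 : ∀ k, (A k' r * B r k) • g k m = A k' r • B r k • g k m := fun k =>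
          mul_smul _ _ _
        simp only [h4]
        exact map_sum (opAddEquiv (α := LPA K G)) (fun k => A k' r • B r k • g k m) Finset.univ
      rw [h2, Finset.sum_smul]
    rw [Finset.sum_congr rfl (fun r _ => h1 r), Finset.sum_comm]
    conv_rhs => rw [← hdual m]
    have h3 : ∀ k', ∑ r, ∑ k, op ((A k' r * B r k) • g k m) • x k' =
        ∑ k, op (c k' k • g k m) • x k' := by
      intro k'
      rw [Finset.sum_comm]
      refine Finset.sum_congr rfl fun k _ => ?_
      rw [← Finset.sum_smul]
      congr 1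
      rw [← hAB, Finset.sum_smul]
      exact (map_sum (opAddEquiv (α := LPA K G)) (fun r => (A k' r * B r k) • g k m)
        Finset.univ).symm
    rw [Finset.sum_congr rfl (fun k' _ => h3 k'), Finset.sum_comm]
    refine Finset.sum_congr rfl fun k _ => ?_
    conv_rhs => rw [hself k, Finset.smul_sum]
    refine Finset.sum_congr rfl fun k' _ => ?_
    rw [← mul_smul, ← op_mul, smul_mul_assoc, one_mul]
  have hyN : ∀ r, y r ∈ grM N := by
    intro r
    refine AddSubgroup.sum_mem _ fun k _ => ?_
    have h1 : A k r • (1 : LPA K G) ∈ gr K G 0 := Submodule.smul_mem _ _ one_mem_gr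
    have h2 := hsm N 0 (x k) _ (hx k) h1
    rwa [add_zero] at h2
  let e : M ≃ₗ[(LPA K G)ᵐᵒᵖ] (∀ r : (Σ s, Fin (n s)), fixSub ((family K G).p r.1)) :=
    { toFun := fun m r => ⟨h r m, hph r m⟩
      map_add' := by
        intro m m'
        funext r
        apply Subtype.ext
        exact map_add (h r) m m'
      map_smul' := by
        intro a m
        funext r
        apply Subtype.ext
        exact map_smul (h r) a m
      invFun := fun z => ∑ r, op (z r).1 • y r
      left_inv := hid
      right_inv := by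
        intro z
        funext r
        apply Subtype.ext
        change h r (∑ r', op (z r').1 • y r') = (z r).1
        rw [map_sum, Finset.sum_eq_single r]
        · rw [map_smul, hhy, if_pos rfl]
          exact (z r).2
        · intro r' _ hr
          rw [map_smul, hhy, if_neg (Ne.symm hr), smul_zero]
        · intro h
          exact absurd (Finset.mem_univ r) h }
  refine ⟨Σ s, Fin (n s), inferInstance, fun r => r.1, N, e, ?_⟩
  intro n' m
  constructor
  · intro hm r
    change h r m ∈ gr K G (n' + -N)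
    rw [happ, ← sub_eq_add_neg]
    exact Submodule.sum_mem _ fun k _ => Submodule.smul_mem _ _ (hg k n' m hm)
  · intro hm
    rw [← hid m]
    refine AddSubgroup.sum_mem _ fun r _ => ?_
    have h1 := hsm N (n' + -N) (y r) (h r m) (hyN r) (hm r)
    rwa [show N + (n' + -N) = n' by ring] at h1

end Abstract

end LPA

variable (K : Type u) [Field K] (G : FinGraph)

/-- M6a. Every finitely generated graded projective right module is graded isomorphic to a
finite direct sum of modules `P_v(i)`. -/
theorem LPA.exists_list (hs : G.NoSink) (P : FGProj (LPA.grRing K G)) :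
    ∃ l : List (Fin G.nV × ℤ),
      V.mk P = (l.map (fun q => V.mk ((LPA.Pv K G q.1).shift q.2))).sum := by
  classical
  let _ : Module (LPA K G)ᵐᵒᵖ P.1.M := P.1.mod
  obtain ⟨ρ, iρ, v, N, e, he⟩ := LPA.exists_equiv (K := K) (G := G) P.1.gr hs P.1.smul_mem
    (exists_dual_basis P)
  refine ⟨(Finset.univ : Finset ρ).toList.map (fun r => (v r, -N)), ?_⟩
  have h1 : V.mk P = ∑ r, V.mk ((LPA.Pv K G (v r)).shift (-N)) :=
    V.mk_eq_sum P (fun r => (LPA.Pv K G (v r)).shift (-N)) ⟨e, he⟩
  rw [h1, List.map_map, ← Finset.sum_map_toList]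
  rfl

end Pool.Agent.GCC
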