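import Pool.Agent.GCC.LPAFacts

/-!
# The graded right modules `p L` for a homogeneous idempotent, in particular `P_v = v L`
-/

open MulOpposite DirectSum

namespace Pool.Agent.GCC

universe u

/-- The right ideal `{x | c x = x}`. -/
def fixSub {A : Type*} [Ring A] (c : A) : Submodule Aᵐᵒᵖ A where
  carrier := {x | c * x = x}
  zero_mem' := by simp
  add_mem' := by
    intro a b ha hb
    change c * (a + b) = a + b
    rw [mul_add, ha, hb]
  smul_mem' := by
    intro a x hx
    change c * (x * unop a) = x * unop a
    rw [← mul_assoc, hx]

theorem mem_fixSub {A : Type*} [Ring A] {c x : A} : x ∈ fixSub c ↔ c * x = x := Iff.rfl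

theorem fixSub_projective {A : Type*} [Ring A] {c : A} (hc : c * c = c) :
    Module.Finite Aᵐᵒᵖ (fixSub c) ∧ Module.Projective Aᵐᵒᵖ (fixSub c) := by
  let i : fixSub c →ₗ[Aᵐᵒᵖ] A := (fixSub c).subtype
  let s : A →ₗ[Aᵐᵒᵖ] fixSub c :=
    { toFun := fun x => ⟨c * x, by rw [mem_fixSub, ← mul_assoc, hc]⟩
      map_add' := fun x y => Subtype.ext (mul_add c x y)
      map_smul' := fun a x => Subtype.ext (mul_assoc c x (unop a)).symm }
  have hs : s.comp i = LinearMap.id := by
    ext x
    exact x.2
  have : Module.Finite Aᵐᵒᵖ A := Module.Finite.equiv (opEquiv A)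
  have : Module.Projective Aᵐᵒᵖ A := Module.Projective.of_equiv (opEquiv A)
  refine ⟨?_, Module.Projective.of_split i s hs⟩
  apply Module.Finite.of_surjective s
  intro x
  exact ⟨i x, LinearMap.congr_fun hs x⟩

/-- The graded module `c A` for a homogeneous idempotent `c` of degree `0`. -/
def GrMod.fix (R : GrRing.{u}) (c : R.A) (hc : c * c = c) (hc0 : c ∈ R.gr 0) : GrMod R where
  M := fixSub c
  gr n := (R.gr n).comap (fixSub c).subtype.toAddMonoidHom
  smul_mem i j m a hm ha := R.mul_mem i j _ a hm ha
  internal := by
    classical
    have hR := R.internal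
    rw [isInternal_iff] at hR ⊢
    constructor
    · intro m
      obtain ⟨f, hf, hs⟩ := hR.1 m.1
      have hfix : ∀ i, c * f i = f i := by
        have h0 := hR.2 (f.mapRange (fun x => c * x - x) (by simp)) ?_ ?_
        · intro i
          have := DFunLike.congr_fun h0 i
          simp only [Finsupp.mapRange_apply, Finsupp.coe_zero, Pi.zero_apply] at this
          exact sub_eq_zero.mp this
        · intro i
          rw [Finsupp.mapRange_apply]
          have h1 := R.mul_mem 0 i c (f i) hc0 (hf i)
          rw [zero_add] at h1
          exact AddSubgroup.sub_mem _ h1 (hf i)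
        · rw [Finsupp.sum_mapRange_index (by simp)]
          simp only [Finsupp.sum] at hs ⊢
          rw [Finset.sum_sub_distrib, ← Finset.mul_sum, hs, m.2, sub_self]
      refine ⟨f.mapRange (fun x => (⟨c * x, by rw [mem_fixSub, ← mul_assoc, hc]⟩ : fixSub c))
        (Subtype.ext (mul_zero c)), ?_, ?_⟩
      · intro i
        rw [Finsupp.mapRange_apply]
        change c * f i ∈ R.gr i
        rw [hfix]
        exact hf i
      · apply Subtype.ext
        rw [Finsupp.sum_mapRange_index (fun _ => rfl)]
        simp only [Finsupp.sum] at hs ⊢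
        rw [AddSubmonoidClass.coe_finsetSum]
        simp only
        rw [← Finset.mul_sum, hs, m.2]
    · intro f hf hs
      have h0 := hR.2 (f.mapRange (fixSub c).subtype (map_zero _)) ?_ ?_
      · ext i
        have := DFunLike.congr_fun h0 i
        simpa using this
      · intro i
        exact hf i
      · rw [Finsupp.sum_mapRange_index (by simp)]
        have := congrArg (fixSub c).subtype hs
        rw [map_finsuppSum] at this
        simpa using this

namespace LPA

variable (K : Type u) [Field K] (G : FinGraph)

/-- The graded right module `P_v = v L`. -/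
noncomputable def Pv (v : Fin G.nV) : FGProj (grRing K G) :=
  ⟨GrMod.fix (grRing K G) ((family K G).p v) ((family K G).pp_self v) (gen_mem_gr (.v v)),
    fixSub_projective ((family K G).pp_self v)⟩

end LPA

end Pool.Agent.GCC
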