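import Pool.Agent.GCC.SgcDef
import Pool.Agent.GCC.ChainDef

/-!
# Sign-gyration expression: definitions and the triangle identity
-/

set_option autoImplicit false

open Matrix

namespace Pool.Agent.GCC

/-- `x (x - 1) / 2` modulo 2 -/
def c2 (x : ℤ) : ZMod 2 := ((x * (x - 1) / 2 : ℤ) : ZMod 2)

lemma exists_c2 (x : ℤ) : ∃ t : ℤ, x * (x - 1) = 2 * t ∧ x * (x - 1) / 2 = t := by
  obtain ⟨t, ht⟩ := Int.even_mul_pred_self x
  exact ⟨t, by omega, by omega⟩

lemma c2_add (x y : ℤ) : c2 (x + y) = c2 x + c2 y + x * y := by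
  obtain ⟨p, hp, hp'⟩ := exists_c2 x
  obtain ⟨q, hq, hq'⟩ := exists_c2 y
  unfold c2
  have h : (x + y) * (x + y - 1) = 2 * (p + q + x * y) := by linear_combination hp + hq
  rw [hp', hq', h, Int.mul_ediv_cancel_left _ (by norm_num)]
  push_cast
  ring

lemma zmod2_sq (x : ZMod 2) : x * x = x := by
  revert x; decide

lemma zmod2_add_self (x : ZMod 2) : x + x = 0 := by
  revert x; decide

lemma c2_mul (x y : ℤ) : c2 (x * y) = x * c2 y + y * c2 x := by
  obtain ⟨p, hp, hp'⟩ := exists_c2 x
  obtain ⟨q, hq, hq'⟩ := exists_c2 y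
  unfold c2
  have h : (x * y) * (x * y - 1) = 2 * (x * q + y * y * p) := by
    linear_combination x * hq + y * y * hp
  rw [hp', hq', h, Int.mul_ediv_cancel_left _ (by norm_num)]
  push_cast
  rw [zmod2_sq]

lemma c2_zero : c2 0 = 0 := by decide

lemma c2_one : c2 1 = 0 := by decide

lemma c2_sum {n : ℕ} (x : Fin n → ℤ) :
    c2 (∑ i, x i) = ∑ i, c2 (x i) + ∑ i, ∑ j, if i < j then (x i : ZMod 2) * x j else 0 := by
  induction n with
  | zero => simp [c2_zero]
  | succ n ih =>
    rw [Fin.sum_univ_castSucc, c2_add, ih, Fin.sum_univ_castSucc (fun i => c2 (x i)),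
      Fin.sum_univ_castSucc (fun i => ∑ j, if i < j then (x i : ZMod 2) * x j else 0)]
    have h1 : ∀ i : Fin n, (∑ j, if i.castSucc < j then (x i.castSucc : ZMod 2) * x j else 0) =
        (∑ j : Fin n, if i < j then (x i.castSucc : ZMod 2) * x j.castSucc else 0) +
          (x i.castSucc : ZMod 2) * x (Fin.last n) := by
      intro i
      rw [Fin.sum_univ_castSucc]
      simp [Fin.castSucc_lt_last]
    have h2 : (∑ j, if Fin.last n < j then (x (Fin.last n) : ZMod 2) * x j else 0) = 0 := by
      refine Finset.sum_eq_zero fun j _ => ?_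
      rw [if_neg (not_lt.2 (Fin.le_last j))]
    rw [Finset.sum_congr rfl fun i _ => h1 i, h2, Finset.sum_add_distrib]
    push_cast
    rw [Finset.sum_mul]
    ring

/-- `sgc` with everything pushed to `ZMod 2` -/
lemma sgc_eq {a b : ℕ} (R : Matrix (Fin a) (Fin b) ℤ) (S : Matrix (Fin b) (Fin a) ℤ) :
    sgc R S = (∑ i, ∑ j, ∑ k, ∑ l, if i < j ∧ l < k then
      (R i k : ZMod 2) * R j l * (S k i * S l j + S k j * S l i) else 0) +
      (∑ i, ∑ k, (R i k : ZMod 2) * c2 (S k i)) + ∑ k, c2 ((S * R) k k) := by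
  unfold sgc c2
  push_cast
  rfl

/-- the identity for one fixed middle index -/
lemma triangle_core {a c : ℕ} (x : Fin a → ℤ) (y : Fin c → ℤ) (s : Fin c → Fin a → ℤ) :
    (∑ i, ∑ j, ∑ m, ∑ m', if i < j ∧ m' < m then
      (x i : ZMod 2) * x j * y m * y m' * (s m i * s m' j + s m j * s m' i) else 0) +
    (∑ i, (x i : ZMod 2) * c2 (∑ m, y m * s m i)) + c2 (∑ i, ∑ m, x i * y m * s m i) +
    (∑ m, (y m : ZMod 2) * c2 (∑ i, s m i * x i)) +
    (∑ i, ∑ m, (x i : ZMod 2) * y m * c2 (s m i)) = 0 := by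
  set z : Fin a → Fin c → ZMod 2 := fun i m => (x i : ZMod 2) * y m * s m i with hz
  -- expansions
  have h1 : (∑ i, (x i : ZMod 2) * c2 (∑ m, y m * s m i)) =
      (∑ i, ∑ m, (x i : ZMod 2) * c2 (y m * s m i)) +
        ∑ i, ∑ m, ∑ m', if m < m' then z i m * z i m' else 0 := by
    rw [← Finset.sum_add_distrib]
    refine Finset.sum_congr rfl fun i _ => ?_
    rw [c2_sum, mul_add, Finset.mul_sum, Finset.mul_sum]
    congr 1
    refine Finset.sum_congr rfl fun m _ => ?_
    rw [Finset.mul_sum]
    refine Finset.sum_congr rfl fun m' _ => ?_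
    split_ifs
    · simp only [hz]
      push_cast
      have := zmod2_sq (x i : ZMod 2)
      linear_combination -(y m : ZMod 2) * s m i * (y m' * s m' i) * this
    · rw [mul_zero]
  have h2 : c2 (∑ i, ∑ m, x i * y m * s m i) =
      (∑ i, ∑ m, c2 (x i * y m * s m i)) +
        (∑ i, ∑ m, ∑ m', if m < m' then z i m * z i m' else 0) +
        ∑ i, ∑ j, if i < j then ∑ m, ∑ m', z i m * z j m' else 0 := by
    rw [c2_sum]
    refine congrArg₂ (· + ·) ?_ ?_
    · rw [← Finset.sum_add_distrib]
      refine Finset.sum_congr rfl fun i _ => ?_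
      rw [c2_sum]
      refine congrArg₂ (· + ·) rfl ?_
      refine Finset.sum_congr rfl fun m _ => Finset.sum_congr rfl fun m' _ => ?_
      split_ifs
      · simp only [hz]; push_cast; ring
      · rfl
    · refine Finset.sum_congr rfl fun i _ => Finset.sum_congr rfl fun j _ => ?_
      split_ifs
      · simp only [hz]
        push_cast
        rw [Finset.sum_mul_sum]
      · rfl
  have h3 : (∑ m, (y m : ZMod 2) * c2 (∑ i, s m i * x i)) =
      (∑ i, ∑ m, (y m : ZMod 2) * c2 (s m i * x i)) +
        ∑ i, ∑ j, if i < j then ∑ m, z i m * z j m else 0 := by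
    have h31 : ∀ m, (y m : ZMod 2) * c2 (∑ i, s m i * x i) =
        (∑ i, (y m : ZMod 2) * c2 (s m i * x i)) +
          ∑ i, ∑ j, if i < j then z i m * z j m else 0 := by
      intro m
      rw [c2_sum, mul_add, Finset.mul_sum, Finset.mul_sum]
      congr 1
      refine Finset.sum_congr rfl fun i _ => ?_
      rw [Finset.mul_sum]
      refine Finset.sum_congr rfl fun j _ => ?_
      split_ifs
      · simp only [hz]
        push_cast
        have := zmod2_sq (y m : ZMod 2)
        linear_combination -(x i : ZMod 2) * s m i * (x j * s m j) * this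
      · rw [mul_zero]
    rw [Finset.sum_congr rfl fun m _ => h31 m, Finset.sum_add_distrib]
    congr 1
    · exact Finset.sum_comm
    · rw [Finset.sum_comm]
      refine Finset.sum_congr rfl fun i _ => ?_
      rw [Finset.sum_comm]
      refine Finset.sum_congr rfl fun j _ => ?_
      split_ifs
      · rfl
      · simp
  -- the pair sum
  have h4 : (∑ i, ∑ j, if i < j then ∑ m, ∑ m', z i m * z j m' else 0) =
      (∑ i, ∑ j, ∑ m, ∑ m', if i < j ∧ m' < m then
        (x i : ZMod 2) * x j * y m * y m' * (s m i * s m' j + s m j * s m' i) else 0) +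
      ∑ i, ∑ j, if i < j then ∑ m, z i m * z j m else 0 := by
    rw [← Finset.sum_add_distrib]
    refine Finset.sum_congr rfl fun i _ => ?_
    rw [← Finset.sum_add_distrib]
    refine Finset.sum_congr rfl fun j _ => ?_
    by_cases hij : i < j
    · simp only [hij, if_true, true_and]
      have h41 : ∀ m m', z i m * z j m' = (if m' < m then z i m * z j m' else 0) +
          (if m < m' then z i m * z j m' else 0) + (if m = m' then z i m * z j m' else 0) := by
        intro m m'
        rcases lt_trichotomy m m' with h | h | h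
        · rw [if_neg (not_lt.2 h.le), if_pos h, if_neg h.ne]; ring
        · subst h; simp
        · rw [if_pos h, if_neg (not_lt.2 h.le), if_neg h.ne']; ring
      have h42 : (∑ m, ∑ m', if m < m' then z i m * z j m' else 0) =
          ∑ m, ∑ m', if m' < m then z i m' * z j m else 0 := Finset.sum_comm
      have h43 : (∑ m, ∑ m', if m = m' then z i m * z j m' else 0) = ∑ m, z i m * z j m := by
        refine Finset.sum_congr rfl fun m _ => ?_
        simp
      have h44 : (∑ m, ∑ m', z i m * z j m') =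
          (∑ m, ∑ m', if m' < m then z i m * z j m' else 0) +
          (∑ m, ∑ m', if m < m' then z i m * z j m' else 0) +
          ∑ m, ∑ m', if m = m' then z i m * z j m' else 0 := by
        rw [← Finset.sum_add_distrib, ← Finset.sum_add_distrib]
        refine Finset.sum_congr rfl fun m _ => ?_
        rw [← Finset.sum_add_distrib, ← Finset.sum_add_distrib]
        exact Finset.sum_congr rfl fun m' _ => h41 m m'
      rw [h44, h42, h43, ← Finset.sum_add_distrib]
      congr 1
      refine Finset.sum_congr rfl fun m _ => ?_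
      rw [← Finset.sum_add_distrib]
      refine Finset.sum_congr rfl fun m' _ => ?_
      split_ifs
      · simp only [hz]; ring
      · ring
    · simp [hij]
  have h5 : (∑ i, ∑ m, (x i : ZMod 2) * c2 (y m * s m i)) +
      (∑ i, ∑ m, c2 (x i * y m * s m i)) + (∑ i, ∑ m, (y m : ZMod 2) * c2 (s m i * x i)) +
      (∑ i, ∑ m, (x i : ZMod 2) * y m * c2 (s m i)) = 0 := by
    rw [← Finset.sum_add_distrib, ← Finset.sum_add_distrib, ← Finset.sum_add_distrib]
    refine Finset.sum_eq_zero fun i _ => ?_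
    rw [← Finset.sum_add_distrib, ← Finset.sum_add_distrib, ← Finset.sum_add_distrib]
    refine Finset.sum_eq_zero fun m _ => ?_
    rw [c2_mul (y m), c2_mul (x i * y m), c2_mul (x i) (y m), c2_mul (s m i) (x i)]
    push_cast
    generalize c2 (x i) = u
    generalize c2 (y m) = v
    generalize c2 (s m i) = w
    generalize (x i : ZMod 2) = x'
    generalize (y m : ZMod 2) = y'
    generalize (s m i : ZMod 2) = s'
    revert u v w x' y' s'
    decide
  rw [h1, h2, h3, h4]
  generalize (∑ i, ∑ j, ∑ m, ∑ m', if i < j ∧ m' < m then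
        (x i : ZMod 2) * x j * y m * y m' * (s m i * s m' j + s m j * s m' i) else 0) = A at *
  generalize (∑ i, ∑ m, ∑ m', if m < m' then z i m * z i m' else 0) = B at *
  generalize (∑ i, ∑ j, if i < j then ∑ m, z i m * z j m else 0) = D at *
  have hA := zmod2_add_self A
  have hB := zmod2_add_self B
  have hD := zmod2_add_self D
  linear_combination h5 + hA + hB + hD

/-- six-fold sum -/
def sum6 {a b c : ℕ} (F : Fin a → Fin a → Fin b → Fin b → Fin c → Fin c → ZMod 2) : ZMod 2 :=
  ∑ i, ∑ j, ∑ k, ∑ l, ∑ m, ∑ m', F i j k l m m'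

section sum6

variable {a b c : ℕ} (F G : Fin a → Fin a → Fin b → Fin b → Fin c → Fin c → ZMod 2)

lemma sum6_add : sum6 (fun i j k l m m' => F i j k l m m' + G i j k l m m') =
    sum6 F + sum6 G := by
  simp only [sum6, Finset.sum_add_distrib]

lemma sum6_eq_zero (h : ∀ i j k l m m', F i j k l m m' = 0) : sum6 F = 0 := by
  simp [sum6, h]

lemma sum6_swap : sum6 (fun i j k l m m' => F j i l k m' m) = sum6 F := by
  unfold sum6
  rw [Finset.sum_comm]
  refine Finset.sum_congr rfl fun i _ => Finset.sum_congr rfl fun j _ => ?_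
  rw [Finset.sum_comm]
  refine Finset.sum_congr rfl fun k _ => Finset.sum_congr rfl fun l _ => ?_
  rw [Finset.sum_comm]

lemma sum6_rot : (∑ k, ∑ l, ∑ m, ∑ m', ∑ i, ∑ j, F i j k l m m') = sum6 F := by
  have h1 : (∑ k, ∑ l, ∑ m, ∑ m', ∑ i, ∑ j, F i j k l m m') =
      ∑ p : (Fin b × Fin b) × (Fin c × Fin c), ∑ q : Fin a × Fin a,
        F q.1 q.2 p.1.1 p.1.2 p.2.1 p.2.2 := by
    simp only [Fintype.sum_prod_type]
  have h2 : sum6 F = ∑ q : Fin a × Fin a, ∑ p : (Fin b × Fin b) × (Fin c × Fin c),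
        F q.1 q.2 p.1.1 p.1.2 p.2.1 p.2.2 := by
    simp only [Fintype.sum_prod_type, sum6]
  rw [h1, h2, Finset.sum_comm]

lemma sum6_mid : (∑ i, ∑ j, ∑ m, ∑ m', ∑ k, ∑ l, F i j k l m m') = sum6 F := by
  unfold sum6
  refine Finset.sum_congr rfl fun i _ => Finset.sum_congr rfl fun j _ => ?_
  have h1 : (∑ m, ∑ m', ∑ k, ∑ l, F i j k l m m') =
      ∑ p : Fin c × Fin c, ∑ q : Fin b × Fin b, F i j q.1 q.2 p.1 p.2 := by
    simp only [Fintype.sum_prod_type]
  have h2 : (∑ k, ∑ l, ∑ m, ∑ m', F i j k l m m') =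
      ∑ q : Fin b × Fin b, ∑ p : Fin c × Fin c, F i j q.1 q.2 p.1 p.2 := by
    simp only [Fintype.sum_prod_type]
  rw [h1, h2, Finset.sum_comm]

lemma sum6_diag : (∑ k, ∑ i, ∑ j, ∑ m, ∑ m', F i j k k m m') =
    sum6 (fun i j k l m m' => if k = l then F i j k l m m' else 0) := by
  unfold sum6
  have h1 : ∀ i j, (∑ k, ∑ l, ∑ m, ∑ m', if k = l then F i j k l m m' else 0) =
      ∑ k, ∑ m, ∑ m', F i j k k m m' := by
    intro i j
    refine Finset.sum_congr rfl fun k _ => ?_
    rw [Finset.sum_eq_single k]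
    · simp
    · intro l _ hl
      simp [hl.symm]
    · intro h; exact absurd (Finset.mem_univ _) h
  rw [Finset.sum_comm]
  refine Finset.sum_congr rfl fun i _ => ?_
  rw [Finset.sum_comm]
  refine Finset.sum_congr rfl fun j _ => ?_
  rw [h1]

end sum6

theorem sgc_triangle {a b c : ℕ} (R1 : Matrix (Fin a) (Fin b) ℤ) (R2 : Matrix (Fin b) (Fin c) ℤ)
    (S3 : Matrix (Fin c) (Fin a) ℤ) :
    sgc R1 (R2 * S3) + sgc R2 (S3 * R1) = sgc (R1 * R2) S3 := by
  set e : Fin a → Fin a → Fin b → Fin b → Fin c → Fin c → ZMod 2 := fun i j k l m m' =>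
    (R1 i k : ZMod 2) * R1 j l * (R2 k m) * (R2 l m') * (S3 m i * S3 m' j + S3 m j * S3 m' i)
    with he
  rw [sgc_eq, sgc_eq, sgc_eq]
  -- the four bilinear sums
  have hN1 : (∑ i, ∑ j, ∑ k, ∑ l, if i < j ∧ l < k then
      (R1 i k : ZMod 2) * R1 j l * ((R2 * S3) k i * (R2 * S3) l j + (R2 * S3) k j * (R2 * S3) l i)
      else 0) = sum6 (fun i j k l m m' => if i < j ∧ l < k then e i j k l m m' else 0) := by
    unfold sum6
    refine Finset.sum_congr rfl fun i _ => Finset.sum_congr rfl fun j _ =>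
      Finset.sum_congr rfl fun k _ => Finset.sum_congr rfl fun l _ => ?_
    by_cases hc : i < j ∧ l < k
    · simp only [if_pos hc]
      rw [Matrix.mul_apply, Matrix.mul_apply, Matrix.mul_apply, Matrix.mul_apply]
      push_cast
      rw [Finset.sum_mul_sum, Finset.sum_mul_sum, ← Finset.sum_add_distrib, Finset.mul_sum]
      refine Finset.sum_congr rfl fun m _ => ?_
      rw [← Finset.sum_add_distrib, Finset.mul_sum]
      refine Finset.sum_congr rfl fun m' _ => ?_
      simp only [he]
      ring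
    · simp only [if_neg hc]
      simp
  have hN2 : (∑ k, ∑ l, ∑ m, ∑ m', if k < l ∧ m' < m then
      (R2 k m : ZMod 2) * R2 l m' * ((S3 * R1) m k * (S3 * R1) m' l + (S3 * R1) m l * (S3 * R1) m' k)
      else 0) = sum6 (fun i j k l m m' => if k < l ∧ m' < m then e i j k l m m' else 0) := by
    rw [← sum6_rot]
    refine Finset.sum_congr rfl fun k _ => Finset.sum_congr rfl fun l _ =>
      Finset.sum_congr rfl fun m _ => Finset.sum_congr rfl fun m' _ => ?_
    by_cases hc : k < l ∧ m' < m
    · simp only [if_pos hc]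
      rw [Matrix.mul_apply, Matrix.mul_apply, Matrix.mul_apply, Matrix.mul_apply]
      push_cast
      have h1 : (∑ j, (S3 m j : ZMod 2) * R1 j l) * (∑ j, (S3 m' j : ZMod 2) * R1 j k) =
          ∑ i, ∑ j, (S3 m' i : ZMod 2) * R1 i k * (S3 m j * R1 j l) := by
        rw [mul_comm, Finset.sum_mul_sum]
      rw [h1, Finset.sum_mul_sum, ← Finset.sum_add_distrib, Finset.mul_sum]
      refine Finset.sum_congr rfl fun i _ => ?_
      rw [← Finset.sum_add_distrib, Finset.mul_sum]
      refine Finset.sum_congr rfl fun j _ => ?_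
      simp only [he]
      ring
    · simp only [if_neg hc]
      simp
  have hN3 : (∑ i, ∑ j, ∑ m, ∑ m', if i < j ∧ m' < m then
      ((R1 * R2) i m : ZMod 2) * (R1 * R2) j m' * (S3 m i * S3 m' j + S3 m j * S3 m' i)
      else 0) = sum6 (fun i j k l m m' => if i < j ∧ m' < m then e i j k l m m' else 0) := by
    rw [← sum6_mid]
    refine Finset.sum_congr rfl fun i _ => Finset.sum_congr rfl fun j _ =>
      Finset.sum_congr rfl fun m _ => Finset.sum_congr rfl fun m' _ => ?_
    by_cases hc : i < j ∧ m' < m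
    · simp only [if_pos hc]
      rw [Matrix.mul_apply, Matrix.mul_apply]
      push_cast
      rw [Finset.sum_mul_sum, Finset.sum_mul]
      refine Finset.sum_congr rfl fun k _ => ?_
      rw [Finset.sum_mul]
      refine Finset.sum_congr rfl fun l _ => ?_
      simp only [he]
      ring
    · simp only [if_neg hc]
      simp
  have hT : (∑ k, ∑ i, ∑ j, ∑ m, ∑ m', if i < j ∧ m' < m then
      (R1 i k : ZMod 2) * R1 j k * R2 k m * R2 k m' * (S3 m i * S3 m' j + S3 m j * S3 m' i)
      else 0) = sum6 (fun i j k l m m' => if k = l then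
        (if i < j ∧ m' < m then e i j k l m m' else 0) else 0) := by
    rw [← sum6_diag]
  -- the combination of the four sums vanishes
  have hsum : sum6 (fun i j k l m m' => if i < j ∧ l < k then e i j k l m m' else 0) +
      sum6 (fun i j k l m m' => if k < l ∧ m' < m then e i j k l m m' else 0) +
      sum6 (fun i j k l m m' => if i < j ∧ m' < m then e i j k l m m' else 0) +
      sum6 (fun i j k l m m' => if k = l then
        (if i < j ∧ m' < m then e i j k l m m' else 0) else 0) = 0 := by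
    set f : Fin a → Fin a → Fin b → Fin b → Fin c → Fin c → ZMod 2 := fun i j k l m m' =>
      if i < j ∧ l < k ∧ m < m' then e i j k l m m' else 0 with hf
    have h1 : sum6 (fun i j k l m m' => f j i l k m' m) = sum6 f := sum6_swap f
    have h2 : sum6 f + sum6 (fun i j k l m m' => f j i l k m' m) = 0 := by
      rw [h1]; exact zmod2_add_self _
    refine Eq.trans ?_ h2
    rw [← sum6_add, ← sum6_add, ← sum6_add, ← sum6_add]
    unfold sum6
    refine Finset.sum_congr rfl fun i _ => Finset.sum_congr rfl fun j _ =>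
      Finset.sum_congr rfl fun k _ => Finset.sum_congr rfl fun l _ =>
      Finset.sum_congr rfl fun m _ => Finset.sum_congr rfl fun m' _ => ?_
    have hsym : e j i l k m' m = e i j k l m m' := by
      simp only [he]; ring
    have hi : i = j → e i j k l m m' = 0 := by
      rintro rfl
      simp only [he]
      have := zmod2_add_self ((S3 m i : ZMod 2) * S3 m' i)
      linear_combination ((R1 i k : ZMod 2) * R1 i l * (R2 k m) * (R2 l m')) * this
    have hm : m = m' → e i j k l m m' = 0 := by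
      rintro rfl
      simp only [he]
      have := zmod2_add_self ((S3 m i : ZMod 2) * S3 m j)
      linear_combination ((R1 i k : ZMod 2) * R1 j l * (R2 k m) * (R2 l m)) * this
    simp only [hf, hsym]
    have h22 := zmod2_add_self (e i j k l m m')
    rcases lt_trichotomy i j with h | h | h
    · rcases lt_trichotomy k l with h' | h' | h'
      · rcases lt_trichotomy m m' with h'' | h'' | h''
        · simp [h, h', h'', h.not_gt, h'.not_gt, h''.not_gt, h.ne, h'.ne, h''.ne]
        · simp [h, h', h'', h.not_gt, h'.not_gt, h.ne, h'.ne]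
        · simp [h, h', h'', h.not_gt, h'.not_gt, h''.not_gt, h.ne, h'.ne, h22]
      · rcases lt_trichotomy m m' with h'' | h'' | h''
        · simp [h, h', h'', h.not_gt, h''.not_gt, h.ne, h''.ne]
        · simp [h, h', h'', h.not_gt, h.ne]
        · subst h'
          simp [h, h'', h.not_gt, h''.not_gt, h22]
      · rcases lt_trichotomy m m' with h'' | h'' | h''
        · simp [h, h', h'', h.not_gt, h'.not_gt, h''.not_gt, h.ne, h'.ne', h''.ne]
        · rw [hm h'']; simp
        · simp [h, h', h'', h.not_gt, h'.not_gt, h''.not_gt, h.ne, h'.ne', h22]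
    · rw [hi h]; simp
    · rcases lt_trichotomy k l with h' | h' | h'
      · rcases lt_trichotomy m m' with h'' | h'' | h''
        · simp [h, h', h'', h.not_gt, h'.not_gt, h''.not_gt, h.ne', h'.ne, h''.ne]
        · simp [h, h', h'', h.not_gt, h'.not_gt, h.ne', h'.ne]
        · simp [h, h', h'', h.not_gt, h'.not_gt, h''.not_gt, h.ne', h'.ne]
      · rcases lt_trichotomy m m' with h'' | h'' | h''
        · simp [h, h', h'', h.not_gt, h''.not_gt, h.ne']
        · simp [h, h', h'', h.not_gt, h.ne']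
        · simp [h, h', h'', h.not_gt, h''.not_gt, h.ne']
      · rcases lt_trichotomy m m' with h'' | h'' | h''
        · simp [h, h', h'', h.not_gt, h'.not_gt, h''.not_gt, h.ne', h'.ne']
        · simp [h, h', h'', h.not_gt, h'.not_gt, h.ne', h'.ne']
        · simp [h, h', h'', h.not_gt, h'.not_gt, h''.not_gt, h.ne', h'.ne']
  -- the diagonal identity
  have hcore : ∑ k, ((∑ i, ∑ j, ∑ m, ∑ m', if i < j ∧ m' < m then
      (R1 i k : ZMod 2) * R1 j k * R2 k m * R2 k m' * (S3 m i * S3 m' j + S3 m j * S3 m' i)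
      else 0) + (∑ i, (R1 i k : ZMod 2) * c2 (∑ m, R2 k m * S3 m i)) +
      c2 (∑ i, ∑ m, R1 i k * R2 k m * S3 m i) +
      (∑ m, (R2 k m : ZMod 2) * c2 (∑ i, S3 m i * R1 i k)) +
      (∑ i, ∑ m, (R1 i k : ZMod 2) * R2 k m * c2 (S3 m i))) = 0 :=
    Finset.sum_eq_zero fun k _ => triangle_core (fun i => R1 i k) (fun m => R2 k m) S3
  rw [Finset.sum_add_distrib, Finset.sum_add_distrib, Finset.sum_add_distrib,
    Finset.sum_add_distrib, hT] at hcore
  have hB1 : (∑ i, ∑ k, (R1 i k : ZMod 2) * c2 ((R2 * S3) k i)) =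
      ∑ k, ∑ i, (R1 i k : ZMod 2) * c2 (∑ m, R2 k m * S3 m i) := by
    rw [Finset.sum_comm]
    rfl
  have hC2 : (∑ k, c2 ((R2 * S3 * R1) k k)) = ∑ k, c2 (∑ i, ∑ m, R1 i k * R2 k m * S3 m i) := by
    refine Finset.sum_congr rfl fun k _ => congrArg c2 ?_
    rw [Matrix.mul_apply]
    refine Finset.sum_congr rfl fun i _ => ?_
    rw [Matrix.mul_apply, Finset.sum_mul]
    refine Finset.sum_congr rfl fun m _ => ?_
    ring
  have hB3 : (∑ k, ∑ m, (R2 k m : ZMod 2) * c2 ((S3 * R1) m k)) =
      ∑ k, ∑ m, (R2 k m : ZMod 2) * c2 (∑ i, S3 m i * R1 i k) := rfl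
  have hB4 : (∑ i, ∑ m, ((R1 * R2) i m : ZMod 2) * c2 (S3 m i)) =
      ∑ k, ∑ i, ∑ m, (R1 i k : ZMod 2) * R2 k m * c2 (S3 m i) := by
    have h1 : ∀ i m, ((R1 * R2) i m : ZMod 2) * c2 (S3 m i) =
        ∑ k, (R1 i k : ZMod 2) * R2 k m * c2 (S3 m i) := by
      intro i m
      rw [Matrix.mul_apply]
      push_cast
      rw [Finset.sum_mul]
    rw [Finset.sum_congr rfl fun i _ => Finset.sum_congr rfl fun m _ => h1 i m]
    have h2 : ∀ i, (∑ m, ∑ k, (R1 i k : ZMod 2) * R2 k m * c2 (S3 m i)) =
        ∑ k, ∑ m, (R1 i k : ZMod 2) * R2 k m * c2 (S3 m i) := fun i => Finset.sum_comm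
    rw [Finset.sum_congr rfl fun i _ => h2 i, Finset.sum_comm]
  rw [hN1, hN2, hN3, hB1, hC2, hB3, hB4, Matrix.mul_assoc S3 R1 R2]
  generalize sum6 (fun i j k l m m' => if i < j ∧ l < k then e i j k l m m' else 0) = N1 at *
  generalize sum6 (fun i j k l m m' => if k < l ∧ m' < m then e i j k l m m' else 0) = N2 at *
  generalize sum6 (fun i j k l m m' => if i < j ∧ m' < m then e i j k l m m' else 0) = N3 at *
  generalize sum6 (fun i j k l m m' => if k = l then
        (if i < j ∧ m' < m then e i j k l m m' else 0) else 0) = T at *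
  have hT2 := zmod2_add_self T
  have hN32 := zmod2_add_self N3
  have hB42 := zmod2_add_self (∑ k, ∑ i, ∑ m, (R1 i k : ZMod 2) * R2 k m * c2 (S3 m i))
  linear_combination hsum + hcore - hT2 - hN32 - hB42

theorem sgc_one {a : ℕ} (A : Matrix (Fin a) (Fin a) ℤ) : sgc 1 A = 0 := by
  rw [sgc_eq]
  have h1 : (∑ i, ∑ j, ∑ k, ∑ l, if i < j ∧ l < k then
      (((1 : Matrix (Fin a) (Fin a) ℤ) i k : ℤ) : ZMod 2) * ((1 : Matrix (Fin a) (Fin a) ℤ) j l : ℤ) *
        (A k i * A l j + A k j * A l i) else 0) = 0 := by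
    refine Finset.sum_eq_zero fun i _ => Finset.sum_eq_zero fun j _ =>
      Finset.sum_eq_zero fun k _ => Finset.sum_eq_zero fun l _ => ?_
    split_ifs with h
    · by_cases hik : i = k
      · by_cases hjl : j = l
        · subst hik; subst hjl
          exact absurd h.1 h.2.not_gt
        · rw [Matrix.one_apply_ne hjl]; simp
      · rw [Matrix.one_apply_ne hik]; simp
    · rfl
  have h2 : (∑ i, ∑ k, (((1 : Matrix (Fin a) (Fin a) ℤ) i k : ℤ) : ZMod 2) * c2 (A k i)) =
      ∑ i, c2 (A i i) := by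
    refine Finset.sum_congr rfl fun i _ => ?_
    rw [Finset.sum_eq_single i]
    · simp
    · intro k _ hk
      rw [Matrix.one_apply_ne hk.symm]; simp
    · intro h; exact absurd (Finset.mem_univ _) h
  rw [h1, h2, Matrix.mul_one, zero_add]
  exact zmod2_add_self _

theorem sgc_nonneg {a b : ℕ} (R : Matrix (Fin a) (Fin b) ℤ) (S : Matrix (Fin b) (Fin a) ℤ)
    (hR : ∀ i j, 0 ≤ R i j) (hS : ∀ i j, 0 ≤ S i j) (h1 : (R * S).trace = 0)
    (h2 : (R * S * (R * S)).trace = 0) : sgc R S = 0 := by
  have hRS : ∀ i k, R i k * S k i = 0 := by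
    have h3 : (R * S).trace = ∑ i, ∑ k, R i k * S k i := by
      simp only [Matrix.trace, Matrix.diag, Matrix.mul_apply]
    rw [h3, Finset.sum_eq_zero_iff_of_nonneg (fun i _ => Finset.sum_nonneg fun k _ =>
      mul_nonneg (hR i k) (hS k i))] at h1
    intro i k
    have h4 := h1 i (Finset.mem_univ _)
    rw [Finset.sum_eq_zero_iff_of_nonneg (fun k _ => mul_nonneg (hR i k) (hS k i))] at h4
    exact h4 k (Finset.mem_univ _)
  have hP : ∀ i j, 0 ≤ (R * S) i j := by
    intro i j
    rw [Matrix.mul_apply]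
    exact Finset.sum_nonneg fun k _ => mul_nonneg (hR i k) (hS k j)
  have h22 : ∀ i j, (R * S) i j * (R * S) j i = 0 := by
    have h3 : (R * S * (R * S)).trace = ∑ i, ∑ j, (R * S) i j * (R * S) j i := by
      rw [Matrix.trace]
      refine Finset.sum_congr rfl fun i _ => ?_
      rw [Matrix.diag, Matrix.mul_apply]
    rw [h3, Finset.sum_eq_zero_iff_of_nonneg (fun i _ => Finset.sum_nonneg fun j _ =>
      mul_nonneg (hP i j) (hP j i))] at h2
    intro i j
    have h4 := h2 i (Finset.mem_univ _)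
    rw [Finset.sum_eq_zero_iff_of_nonneg (fun j _ => mul_nonneg (hP i j) (hP j i))] at h4
    exact h4 j (Finset.mem_univ _)
  have h4 : ∀ i j k l, R i k * S k j * (R j l * S l i) = 0 := by
    intro i j k l
    have h5 : R i k * S k j ≤ (R * S) i j := by
      rw [Matrix.mul_apply]
      exact Finset.single_le_sum (f := fun k => R i k * S k j)
        (fun k _ => mul_nonneg (hR i k) (hS k j)) (Finset.mem_univ k)
    have h6 : R j l * S l i ≤ (R * S) j i := by
      rw [Matrix.mul_apply]
      exact Finset.single_le_sum (f := fun l => R j l * S l i)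
        (fun l _ => mul_nonneg (hR j l) (hS l i)) (Finset.mem_univ l)
    have h7 := mul_le_mul h5 h6 (mul_nonneg (hR j l) (hS l i)) (hP i j)
    rw [h22] at h7
    exact le_antisymm h7 (mul_nonneg (mul_nonneg (hR i k) (hS k j)) (mul_nonneg (hR j l) (hS l i)))
  rw [sgc_eq]
  have e1 : (∑ i, ∑ j, ∑ k, ∑ l, if i < j ∧ l < k then
      (R i k : ZMod 2) * R j l * (S k i * S l j + S k j * S l i) else 0) = 0 := by
    refine Finset.sum_eq_zero fun i _ => Finset.sum_eq_zero fun j _ =>
      Finset.sum_eq_zero fun k _ => Finset.sum_eq_zero fun l _ => ?_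
    split_ifs with h
    · have h5 : R i k * R j l * (S k i * S l j + S k j * S l i) = 0 := by
        linear_combination (R j l * S l j) * hRS i k + h4 i j k l
      have h6 := congrArg (Int.cast : ℤ → ZMod 2) h5
      push_cast at h6
      exact h6
    · rfl
  have e2 : (∑ i, ∑ k, (R i k : ZMod 2) * c2 (S k i)) = 0 := by
    refine Finset.sum_eq_zero fun i _ => Finset.sum_eq_zero fun k _ => ?_
    rcases mul_eq_zero.1 (hRS i k) with h | h
    · rw [h]; simp
    · rw [h, c2_zero, mul_zero]
  have e3 : (∑ k, c2 ((S * R) k k)) = 0 := by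
    refine Finset.sum_eq_zero fun k _ => ?_
    have h5 : (S * R) k k = 0 := by
      rw [Matrix.mul_apply]
      exact Finset.sum_eq_zero fun i _ => by rw [mul_comm]; exact hRS i k
    rw [h5, c2_zero]
  rw [e1, e2, e3]
  simp

end Pool.Agent.GCC
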