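import Pool.Agent.GCC.SgcNil

/-!
# The sign-gyration obstruction along closed chains of strong shift equivalences
-/

set_option autoImplicit false

open Matrix

namespace Pool.Agent.GCC

/-- horizontal concatenation -/
def hc {a b c : ℕ} (X : Matrix (Fin a) (Fin b) ℤ) (Y : Matrix (Fin a) (Fin c) ℤ) :
    Matrix (Fin a) (Fin (b + c)) ℤ := Matrix.of fun i j => Fin.addCases (X i) (Y i) j

/-- vertical concatenation -/
def vc {a b c : ℕ} (X : Matrix (Fin b) (Fin a) ℤ) (Y : Matrix (Fin c) (Fin a) ℤ) :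
    Matrix (Fin (b + c)) (Fin a) ℤ := Matrix.of fun i j => Fin.addCases (fun k => X k j) (fun k => Y k j) i

section api

variable {a b c d e : ℕ}

@[simp] lemma hc_left (X : Matrix (Fin a) (Fin b) ℤ) (Y : Matrix (Fin a) (Fin c) ℤ) (i : Fin a) (j : Fin b) :
    hc X Y i (Fin.castAdd c j) = X i j := by simp [hc]

@[simp] lemma hc_right (X : Matrix (Fin a) (Fin b) ℤ) (Y : Matrix (Fin a) (Fin c) ℤ) (i : Fin a) (j : Fin c) :
    hc X Y i (Fin.natAdd b j) = Y i j := by simp [hc]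

@[simp] lemma vc_left (X : Matrix (Fin b) (Fin a) ℤ) (Y : Matrix (Fin c) (Fin a) ℤ) (i : Fin b) (j : Fin a) :
    vc X Y (Fin.castAdd c i) j = X i j := by simp [vc]

@[simp] lemma vc_right (X : Matrix (Fin b) (Fin a) ℤ) (Y : Matrix (Fin c) (Fin a) ℤ) (i : Fin c) (j : Fin a) :
    vc X Y (Fin.natAdd b i) j = Y i j := by simp [vc]

lemma hc_ext {M N : Matrix (Fin a) (Fin (b + c)) ℤ}
    (h1 : ∀ i j, M i (Fin.castAdd c j) = N i (Fin.castAdd c j))
    (h2 : ∀ i j, M i (Fin.natAdd b j) = N i (Fin.natAdd b j)) : M = N := by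
  ext i j
  refine Fin.addCases (fun k => h1 i k) (fun k => h2 i k) j

lemma vc_ext {M N : Matrix (Fin (b + c)) (Fin a) ℤ}
    (h1 : ∀ i j, M (Fin.castAdd c i) j = N (Fin.castAdd c i) j)
    (h2 : ∀ i j, M (Fin.natAdd b i) j = N (Fin.natAdd b i) j) : M = N := by
  ext i j
  refine Fin.addCases (fun k => h1 k j) (fun k => h2 k j) i

lemma hc_mul_vc (X : Matrix (Fin a) (Fin b) ℤ) (Y : Matrix (Fin a) (Fin c) ℤ)
    (Z : Matrix (Fin b) (Fin d) ℤ) (W : Matrix (Fin c) (Fin d) ℤ) :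
    hc X Y * vc Z W = X * Z + Y * W := by
  ext i j
  rw [Matrix.mul_apply, Fin.sum_univ_add, Matrix.add_apply, Matrix.mul_apply, Matrix.mul_apply]
  simp

lemma mul_hc (M : Matrix (Fin d) (Fin a) ℤ) (X : Matrix (Fin a) (Fin b) ℤ) (Y : Matrix (Fin a) (Fin c) ℤ) :
    M * hc X Y = hc (M * X) (M * Y) := by
  apply hc_ext
  · intro i j; rw [hc_left, Matrix.mul_apply, Matrix.mul_apply]; simp
  · intro i j; rw [hc_right, Matrix.mul_apply, Matrix.mul_apply]; simp

lemma vc_mul (X : Matrix (Fin b) (Fin a) ℤ) (Y : Matrix (Fin c) (Fin a) ℤ) (M : Matrix (Fin a) (Fin d) ℤ) :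
    vc X Y * M = vc (X * M) (Y * M) := by
  apply vc_ext
  · intro i j; rw [vc_left, Matrix.mul_apply, Matrix.mul_apply]; simp
  · intro i j; rw [vc_right, Matrix.mul_apply, Matrix.mul_apply]; simp

lemma vc_hc (X : Matrix (Fin a) (Fin c) ℤ) (Y : Matrix (Fin a) (Fin d) ℤ) (Z : Matrix (Fin b) (Fin c) ℤ)
    (W : Matrix (Fin b) (Fin d) ℤ) : vc (hc X Y) (hc Z W) = hc (vc X Z) (vc Y W) := by
  apply vc_ext
  · intro i j
    refine Fin.addCases (fun k => ?_) (fun k => ?_) j <;> simp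
  · intro i j
    refine Fin.addCases (fun k => ?_) (fun k => ?_) j <;> simp

lemma hc_add (X X' : Matrix (Fin a) (Fin b) ℤ) (Y Y' : Matrix (Fin a) (Fin c) ℤ) :
    hc X Y + hc X' Y' = hc (X + X') (Y + Y') := by
  apply hc_ext <;> intro i j <;> simp

lemma vc_add (X X' : Matrix (Fin b) (Fin a) ℤ) (Y Y' : Matrix (Fin c) (Fin a) ℤ) :
    vc X Y + vc X' Y' = vc (X + X') (Y + Y') := by
  apply vc_ext <;> intro i j <;> simp

lemma hc_zero : hc (0 : Matrix (Fin a) (Fin b) ℤ) (0 : Matrix (Fin a) (Fin c) ℤ) = 0 := by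
  apply hc_ext <;> intro i j <;> simp

lemma vc_zero : vc (0 : Matrix (Fin b) (Fin a) ℤ) (0 : Matrix (Fin c) (Fin a) ℤ) = 0 := by
  apply vc_ext <;> intro i j <;> simp

end api

/-- `sgc` of horizontally concatenated pairs -/
lemma sgc_hc {a b c : ℕ} (X1 : Matrix (Fin a) (Fin b) ℤ) (X2 : Matrix (Fin a) (Fin c) ℤ)
    (Y1 : Matrix (Fin b) (Fin a) ℤ) (Y2 : Matrix (Fin c) (Fin a) ℤ)
    (h : ∀ i j, i < j → ∀ k l, X2 i k * X1 j l = 0) :
    sgc (hc X1 X2) (vc Y1 Y2) = sgc X1 Y1 + sgc X2 Y2 := by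
  rw [sgc_eq, sgc_eq, sgc_eq]
  have e1 : (∑ i, ∑ j, ∑ k, ∑ l, if i < j ∧ l < k then
      ((hc X1 X2) i k : ZMod 2) * (hc X1 X2) j l * ((vc Y1 Y2) k i * (vc Y1 Y2) l j +
        (vc Y1 Y2) k j * (vc Y1 Y2) l i) else 0) =
      (∑ i, ∑ j, ∑ k, ∑ l, if i < j ∧ l < k then
      (X1 i k : ZMod 2) * X1 j l * (Y1 k i * Y1 l j + Y1 k j * Y1 l i) else 0) +
      (∑ i, ∑ j, ∑ k, ∑ l, if i < j ∧ l < k then
      (X2 i k : ZMod 2) * X2 j l * (Y2 k i * Y2 l j + Y2 k j * Y2 l i) else 0) := by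
    rw [← Finset.sum_add_distrib]
    refine Finset.sum_congr rfl fun i _ => ?_
    rw [← Finset.sum_add_distrib]
    refine Finset.sum_congr rfl fun j _ => ?_
    by_cases hij : i < j
    · simp only [hij, true_and]
      rw [Fin.sum_univ_add]
      congr 1
      · refine Finset.sum_congr rfl fun k _ => ?_
        rw [Fin.sum_univ_add]
        have z : (∑ l : Fin c, if Fin.natAdd b l < Fin.castAdd c k then
            ((hc X1 X2) i (Fin.castAdd c k) : ZMod 2) * (hc X1 X2) j (Fin.natAdd b l) *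
            ((vc Y1 Y2) (Fin.castAdd c k) i * (vc Y1 Y2) (Fin.natAdd b l) j +
            (vc Y1 Y2) (Fin.castAdd c k) j * (vc Y1 Y2) (Fin.natAdd b l) i) else 0) = 0 := by
          refine Finset.sum_eq_zero fun l _ => ?_
          rw [if_neg]
          rw [Fin.lt_def]
          simp only [Fin.val_natAdd, Fin.val_castAdd]
          omega
        rw [z, add_zero]
        refine Finset.sum_congr rfl fun l _ => ?_
        simp only [hc_left, vc_left, Fin.lt_def, Fin.val_castAdd]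
      · refine Finset.sum_congr rfl fun k _ => ?_
        rw [Fin.sum_univ_add]
        have z : (∑ l : Fin b, if Fin.castAdd c l < Fin.natAdd b k then
            ((hc X1 X2) i (Fin.natAdd b k) : ZMod 2) * (hc X1 X2) j (Fin.castAdd c l) *
            ((vc Y1 Y2) (Fin.natAdd b k) i * (vc Y1 Y2) (Fin.castAdd c l) j +
            (vc Y1 Y2) (Fin.natAdd b k) j * (vc Y1 Y2) (Fin.castAdd c l) i) else 0) = 0 := by
          refine Finset.sum_eq_zero fun l _ => ?_
          split_ifs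
          · rw [hc_right, hc_left]
            have h1 := congrArg (Int.cast : ℤ → ZMod 2) (h i j hij k l)
            push_cast at h1
            rw [h1, zero_mul]
          · rfl
        rw [z, zero_add]
        refine Finset.sum_congr rfl fun l _ => ?_
        simp only [hc_right, vc_right, Fin.lt_def, Fin.val_natAdd, add_lt_add_iff_left]
    · simp [hij]
  have e2 : (∑ i, ∑ k, ((hc X1 X2) i k : ZMod 2) * c2 ((vc Y1 Y2) k i)) =
      (∑ i, ∑ k, (X1 i k : ZMod 2) * c2 (Y1 k i)) + ∑ i, ∑ k, (X2 i k : ZMod 2) * c2 (Y2 k i) := by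
    rw [← Finset.sum_add_distrib]
    refine Finset.sum_congr rfl fun i _ => ?_
    rw [Fin.sum_univ_add]
    simp
  have e3 : (∑ k, c2 ((vc Y1 Y2 * hc X1 X2) k k)) =
      (∑ k, c2 ((Y1 * X1) k k)) + ∑ k, c2 ((Y2 * X2) k k) := by
    rw [Fin.sum_univ_add]
    congr 1
    · refine Finset.sum_congr rfl fun k _ => ?_
      rw [Matrix.mul_apply, Matrix.mul_apply]; simp
    · refine Finset.sum_congr rfl fun k _ => ?_
      rw [Matrix.mul_apply, Matrix.mul_apply]; simp
  rw [e1, e2, e3]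
  ring

/-- zero rows at the bottom -/
lemma sgc_bot {a b c : ℕ} (X : Matrix (Fin a) (Fin b) ℤ) (Y : Matrix (Fin b) (Fin a) ℤ) :
    sgc (vc X (0 : Matrix (Fin c) (Fin b) ℤ)) (hc Y (0 : Matrix (Fin b) (Fin c) ℤ)) = sgc X Y := by
  rw [sgc_eq, sgc_eq, hc_mul_vc, Matrix.mul_zero, add_zero]
  congr 2
  · rw [Fin.sum_univ_add]
    have z : (∑ i : Fin c, ∑ j, ∑ k, ∑ l, if Fin.natAdd a i < j ∧ l < k then
        ((vc X (0 : Matrix (Fin c) (Fin b) ℤ)) (Fin.natAdd a i) k : ZMod 2) * (vc X 0) j l *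
        ((hc Y 0) k (Fin.natAdd a i) * (hc Y 0) l j + (hc Y 0) k j * (hc Y 0) l (Fin.natAdd a i))
        else 0) = 0 := by
      refine Finset.sum_eq_zero fun i _ => Finset.sum_eq_zero fun j _ => Finset.sum_eq_zero fun k _ =>
        Finset.sum_eq_zero fun l _ => ?_
      simp
    rw [z, add_zero]
    refine Finset.sum_congr rfl fun i _ => ?_
    rw [Fin.sum_univ_add]
    have z' : (∑ j : Fin c, ∑ k, ∑ l, if Fin.castAdd c i < Fin.natAdd a j ∧ l < k then
        ((vc X (0 : Matrix (Fin c) (Fin b) ℤ)) (Fin.castAdd c i) k : ZMod 2) * (vc X 0) (Fin.natAdd a j) l *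
        ((hc Y 0) k (Fin.castAdd c i) * (hc Y 0) l (Fin.natAdd a j) +
          (hc Y 0) k (Fin.natAdd a j) * (hc Y 0) l (Fin.castAdd c i)) else 0) = 0 := by
      refine Finset.sum_eq_zero fun j _ => Finset.sum_eq_zero fun k _ =>
        Finset.sum_eq_zero fun l _ => ?_
      simp
    rw [z', add_zero]
    refine Finset.sum_congr rfl fun j _ => Finset.sum_congr rfl fun k _ =>
        Finset.sum_congr rfl fun l _ => ?_
    simp only [hc_left, vc_left, Fin.lt_def, Fin.val_castAdd]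
  · rw [Fin.sum_univ_add]
    simp

/-- zero rows at the top -/
lemma sgc_top {a b c : ℕ} (X : Matrix (Fin a) (Fin b) ℤ) (Y : Matrix (Fin b) (Fin a) ℤ) :
    sgc (vc (0 : Matrix (Fin c) (Fin b) ℤ) X) (hc (0 : Matrix (Fin b) (Fin c) ℤ) Y) = sgc X Y := by
  rw [sgc_eq, sgc_eq, hc_mul_vc, Matrix.mul_zero, zero_add]
  congr 2
  · rw [Fin.sum_univ_add]
    have z : (∑ i : Fin c, ∑ j, ∑ k, ∑ l, if Fin.castAdd a i < j ∧ l < k then
        ((vc (0 : Matrix (Fin c) (Fin b) ℤ) X) (Fin.castAdd a i) k : ZMod 2) * (vc 0 X) j l *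
        ((hc 0 Y) k (Fin.castAdd a i) * (hc 0 Y) l j + (hc 0 Y) k j * (hc 0 Y) l (Fin.castAdd a i))
        else 0) = 0 := by
      refine Finset.sum_eq_zero fun i _ => Finset.sum_eq_zero fun j _ => Finset.sum_eq_zero fun k _ =>
        Finset.sum_eq_zero fun l _ => ?_
      simp
    rw [z, zero_add]
    refine Finset.sum_congr rfl fun i _ => ?_
    rw [Fin.sum_univ_add]
    have z' : (∑ j : Fin c, ∑ k, ∑ l, if Fin.natAdd c i < Fin.castAdd a j ∧ l < k then
        ((vc (0 : Matrix (Fin c) (Fin b) ℤ) X) (Fin.natAdd c i) k : ZMod 2) * (vc 0 X) (Fin.castAdd a j) l *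
        ((hc 0 Y) k (Fin.natAdd c i) * (hc 0 Y) l (Fin.castAdd a j) +
          (hc 0 Y) k (Fin.castAdd a j) * (hc 0 Y) l (Fin.natAdd c i)) else 0) = 0 := by
      refine Finset.sum_eq_zero fun j _ => Finset.sum_eq_zero fun k _ =>
        Finset.sum_eq_zero fun l _ => ?_
      simp
    rw [z', zero_add]
    refine Finset.sum_congr rfl fun j _ => Finset.sum_congr rfl fun k _ =>
        Finset.sum_congr rfl fun l _ => ?_
    simp only [hc_right, vc_right, Fin.lt_def, Fin.val_natAdd, add_lt_add_iff_left]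
  · rw [Fin.sum_univ_add]
    simp

lemma sgc_zero {a b : ℕ} : sgc (0 : Matrix (Fin a) (Fin b) ℤ) (0 : Matrix (Fin b) (Fin a) ℤ) = 0 := by
  rw [sgc_eq]
  simp [c2_zero]

lemma add_self_zmod (x : ZMod 2) : x + x = 0 := by revert x; decide

lemma sgc_idem {a : ℕ} (e B : Matrix (Fin a) (Fin a) ℤ) (he : e * e = e) (hB : e * B = B * e) :
    sgc e (e * B) = 0 := by
  have h := sgc_triangle e e (e * B)
  have e1 : e * (e * B) = e * B := by rw [← Matrix.mul_assoc, he]
  have e2 : e * B * e = e * B := by rw [Matrix.mul_assoc, ← hB, e1]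
  rw [e1, e2, he, add_self_zmod] at h
  exact h.symm

lemma sgc_e {a b : ℕ} (R : Matrix (Fin a) (Fin b) ℤ) (S : Matrix (Fin b) (Fin a) ℤ)
    (e : Matrix (Fin a) (Fin a) ℤ) (e' : Matrix (Fin b) (Fin b) ℤ) (he : e * e = e) (he' : e' * e' = e')
    (h1 : e * R = R * e') (h2 : e' * S = S * e) :
    sgc R (e' * S) = sgc (e * R) (e' * S) := by
  have h := sgc_triangle e R (e' * S)
  have e1 : R * (e' * S) = e * (R * S) := by
    rw [← Matrix.mul_assoc, ← h1, Matrix.mul_assoc]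
  have e2 : e' * S * e = e' * S := by rw [Matrix.mul_assoc, ← h2, ← Matrix.mul_assoc, he']
  have e3 : e * (R * S) = R * S * e := by
    rw [← Matrix.mul_assoc, h1, Matrix.mul_assoc, h2, Matrix.mul_assoc]
  rw [e1, e2, sgc_idem e (R * S) he e3, zero_add] at h
  exact h

lemma sgc_diag {a b c d : ℕ} (X : Matrix (Fin a) (Fin b) ℤ) (X' : Matrix (Fin c) (Fin d) ℤ)
    (Y : Matrix (Fin b) (Fin a) ℤ) (Y' : Matrix (Fin d) (Fin c) ℤ) :
    sgc (vc (hc X 0) (hc 0 X')) (vc (hc Y 0) (hc 0 Y')) = sgc X Y + sgc X' Y' := by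
  rw [vc_hc, sgc_hc, sgc_bot, sgc_top]
  intro i j hij k l
  revert hij
  refine Fin.addCases (fun i' => ?_) (fun i' => ?_) i
  · simp
  · refine Fin.addCases (fun j' => ?_) (fun j' => ?_) j
    · intro hij
      rw [Fin.lt_def] at hij
      simp only [Fin.val_natAdd, Fin.val_castAdd] at hij
      omega
    · simp

lemma sgc_split {a b : ℕ} (R : Matrix (Fin a) (Fin b) ℤ) (S : Matrix (Fin b) (Fin a) ℤ)
    (e f : Matrix (Fin a) (Fin a) ℤ) (e' f' : Matrix (Fin b) (Fin b) ℤ)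
    (hef : e + f = 1) (hef' : e' + f' = 1) (he : e * e = e) (he' : e' * e' = e')
    (h1 : e * R = R * e') (h2 : e' * S = S * e) :
    sgc R S + sgc (hc e' f') (vc (e' * (S * R)) (f' * (S * R))) =
      sgc (hc e f) (vc (e * (R * S)) (f * (R * S))) + sgc (e * R) (e' * S) + sgc (f * R) (f' * S) := by
  have hf : f = 1 - e := by rw [← hef]; abel
  have hf' : f' = 1 - e' := by rw [← hef']; abel
  have hff : f * f = f := by
    rw [hf]; simp only [Matrix.mul_sub, Matrix.sub_mul, Matrix.one_mul, Matrix.mul_one, he]; abel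
  have hff' : f' * f' = f' := by
    rw [hf']; simp only [Matrix.mul_sub, Matrix.sub_mul, Matrix.one_mul, Matrix.mul_one, he']; abel
  have g1 : f * R = R * f' := by
    rw [hf, hf', Matrix.sub_mul, Matrix.mul_sub, Matrix.one_mul, Matrix.mul_one, h1]
  have g2 : f' * S = S * f := by
    rw [hf, hf', Matrix.sub_mul, Matrix.mul_sub, Matrix.one_mul, Matrix.mul_one, h2]
  have hef0 : e * f = 0 := by rw [hf, Matrix.mul_sub, Matrix.mul_one, he, sub_self]
  have hfe0 : f * e = 0 := by rw [hf, Matrix.sub_mul, Matrix.one_mul, he, sub_self]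
  have T1 := sgc_triangle (hc e f) (vc (hc (e * R) 0) (hc 0 (f * R))) (vc (e' * S) (f' * S))
  have T2 := sgc_triangle R (hc e' f') (vc (e' * S) (f' * S))
  have a1 : hc e f * vc (hc (e * R) 0) (hc 0 (f * R)) = R * hc e' f' := by
    rw [hc_mul_vc, mul_hc, mul_hc, hc_add, mul_hc, Matrix.mul_zero, Matrix.mul_zero, add_zero, zero_add,
      ← Matrix.mul_assoc, he, ← Matrix.mul_assoc, hff, h1, g1]
  have a2 : vc (hc (e * R) 0) (hc 0 (f * R)) * vc (e' * S) (f' * S) =
      vc (e * (R * S)) (f * (R * S)) := by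
    rw [vc_mul, hc_mul_vc, hc_mul_vc, Matrix.zero_mul, Matrix.zero_mul, add_zero, zero_add]
    congr 1
    · calc e * R * (e' * S) = e * (R * e') * S := by simp only [Matrix.mul_assoc]
        _ = e * (R * S) := by rw [← h1, ← Matrix.mul_assoc, he, Matrix.mul_assoc]
    · calc f * R * (f' * S) = f * (R * f') * S := by simp only [Matrix.mul_assoc]
        _ = f * (R * S) := by rw [← g1, ← Matrix.mul_assoc, hff, Matrix.mul_assoc]
  have a3 : vc (e' * S) (f' * S) * hc e f = vc (hc (e' * S) 0) (hc 0 (f' * S)) := by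
    rw [vc_mul, mul_hc, mul_hc]
    have b1 : e' * S * e = e' * S := by rw [Matrix.mul_assoc, ← h2, ← Matrix.mul_assoc, he']
    have b2 : e' * S * f = 0 := by rw [h2, Matrix.mul_assoc, hef0, Matrix.mul_zero]
    have b3 : f' * S * e = 0 := by rw [g2, Matrix.mul_assoc, hfe0, Matrix.mul_zero]
    have b4 : f' * S * f = f' * S := by rw [Matrix.mul_assoc, ← g2, ← Matrix.mul_assoc, hff']
    rw [b1, b2, b3, b4]
  have a4 : hc e' f' * vc (e' * S) (f' * S) = S := by
    rw [hc_mul_vc, ← Matrix.mul_assoc, he', ← Matrix.mul_assoc, hff', ← Matrix.add_mul, hef',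
      Matrix.one_mul]
  have a5 : vc (e' * S) (f' * S) * R = vc (e' * (S * R)) (f' * (S * R)) := by
    rw [vc_mul, Matrix.mul_assoc, Matrix.mul_assoc]
  rw [a1, a2, a3, sgc_diag] at T1
  rw [a4, a5] at T2
  rw [T2, ← T1]
  ring

lemma sgc_last {N k l : ℕ} (U1 : Matrix (Fin N) (Fin (N + k)) ℤ) (V1 : Matrix (Fin (N + k)) (Fin N) ℤ)
    (W : Matrix (Fin k) (Fin l) ℤ) (Z : Matrix (Fin l) (Fin k) ℤ) :
    sgc (vc (hc (vc U1 0) (vc 0 W)) (0 : Matrix (Fin l) (Fin (N + k + l)) ℤ))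
      (hc (vc (hc V1 0) (hc 0 Z)) 0) = sgc (vc U1 (0 : Matrix (Fin k) (Fin (N + k)) ℤ)) (hc V1 0) + sgc W Z := by
  rw [sgc_bot, sgc_hc, sgc_top]
  intro i j hij k' l'
  revert hij
  refine Fin.addCases (fun i' => ?_) (fun i' => ?_) i
  · simp
  · refine Fin.addCases (fun j' => ?_) (fun j' => ?_) j
    · intro hij
      rw [Fin.lt_def] at hij
      simp only [Fin.val_natAdd, Fin.val_castAdd] at hij
      omega
    · simp

lemma nil_up {a b : ℕ} (U : Matrix (Fin a) (Fin a) ℤ) (W : Matrix (Fin a) (Fin b) ℤ)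
    (hU : IsNilpotent U) : IsNilpotent (vc (hc U W) (0 : Matrix (Fin b) (Fin (a + b)) ℤ)) := by
  have h : ∀ n : ℕ, (vc (hc U W) (0 : Matrix (Fin b) (Fin (a + b)) ℤ)) ^ (n + 1) =
      vc (hc (U ^ (n + 1)) (U ^ n * W)) 0 := by
    intro n
    induction n with
    | zero => rw [pow_one, pow_zero, zero_add, pow_one, Matrix.one_mul]
    | succ n ih =>
      rw [pow_succ, ih, vc_mul, hc_mul_vc, Matrix.mul_zero, Matrix.zero_mul, add_zero, mul_hc,
        ← pow_succ]
  obtain ⟨r, hr⟩ := hU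
  refine ⟨r + 1, ?_⟩
  rw [h, pow_succ, hr, Matrix.zero_mul, Matrix.zero_mul, hc_zero, vc_zero]

lemma nil_dn {a b : ℕ} (V : Matrix (Fin a) (Fin a) ℤ) (Z : Matrix (Fin b) (Fin a) ℤ)
    (hV : IsNilpotent V) : IsNilpotent (hc (vc V Z) (0 : Matrix (Fin (a + b)) (Fin b) ℤ)) := by
  have h : ∀ n : ℕ, (hc (vc V Z) (0 : Matrix (Fin (a + b)) (Fin b) ℤ)) ^ (n + 1) =
      hc (vc (V ^ (n + 1)) (Z * V ^ n)) 0 := by
    intro n
    induction n with
    | zero => rw [pow_one, pow_zero, zero_add, pow_one, Matrix.mul_one]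
    | succ n ih =>
      rw [pow_succ', ih, mul_hc, hc_mul_vc, Matrix.mul_zero, Matrix.zero_mul, add_zero, vc_mul,
        ← pow_succ']
  obtain ⟨r, hr⟩ := hV
  refine ⟨r + 1, ?_⟩
  rw [h, pow_succ, hr, Matrix.zero_mul, Matrix.mul_zero, vc_zero, hc_zero]

theorem chain_inv {n : ℕ} (A : Matrix (Fin n) (Fin n) ℤ) (hA : IsUnit A.det)
    (h1 : A.trace = 0) (h2 : (A * A).trace = 0) {k : ℕ} {B : Matrix (Fin k) (Fin k) ℤ}
    {P : Matrix (Fin n) (Fin k) ℤ} (h : Chain A k B P) :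
    ∃ (Q : Matrix (Fin k) (Fin n) ℤ) (N : ℕ) (U1 : Matrix (Fin N) (Fin (N + k)) ℤ)
      (V1 : Matrix (Fin (N + k)) (Fin N) ℤ),
      P * Q = 1 ∧ B * Q = Q * A ∧ A * P = P * B ∧ B.trace = 0 ∧ (B * B).trace = 0 ∧
      hc V1 0 * vc U1 0 = vc U1 0 * hc V1 0 + vc 0 (hc 0 ((1 - Q * P) * B)) ∧
      IsNilpotent (vc U1 (0 : Matrix (Fin k) (Fin (N + k)) ℤ)) ∧
      IsNilpotent (hc V1 (0 : Matrix (Fin (N + k)) (Fin k) ℤ)) ∧
      sgc (hc (Q * P) (1 - Q * P)) (vc (Q * P * B) ((1 - Q * P) * B)) + sgc P (Q * A) +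
        sgc (vc U1 (0 : Matrix (Fin k) (Fin (N + k)) ℤ)) (hc V1 (0 : Matrix (Fin (N + k)) (Fin k) ℤ)) = 0 := by
  induction h with
  | refl =>
    refine ⟨1, 0, 0, 0, by simp, by simp, by simp, h1, h2, ?_, ?_, ?_, ?_⟩
    · rw [hc_zero, vc_zero, Matrix.mul_zero, Matrix.one_mul, sub_self, Matrix.zero_mul, hc_zero,
        vc_zero, add_zero]
    · rw [vc_zero]; exact ⟨1, by simp⟩
    · rw [hc_zero]; exact ⟨1, by simp⟩
    · rw [hc_zero, vc_zero, sgc_zero, Matrix.one_mul, sub_self, Matrix.zero_mul, Matrix.one_mul,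
        sgc_one, add_zero, add_zero, sgc_hc, sgc_one, sgc_zero, add_zero]
      intro i j _ k l
      simp
  | @step k l B P R S hR hS hB h ih =>
    obtain ⟨Q, N, U1, V1, hPQ, hBQ, hAP, ht1, ht2, hcom, hnU, hnV, hs⟩ := ih
    have hAi : A * A⁻¹ = 1 := Matrix.mul_nonsing_inv A hA
    have hAi' : A⁻¹ * A = 1 := Matrix.nonsing_inv_mul A hA
    set Q' : Matrix (Fin l) (Fin n) ℤ := S * Q * A⁻¹ with hQ'
    have hQA : Q' * A = S * Q := by rw [hQ', Matrix.mul_assoc, hAi', Matrix.mul_one]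
    have c1 : P * R * Q' = 1 := by
      calc P * R * Q' = P * (R * S) * Q * A⁻¹ := by rw [hQ']; simp only [Matrix.mul_assoc]
        _ = P * (B * Q) * A⁻¹ := by rw [← hB]; simp only [Matrix.mul_assoc]
        _ = (P * Q) * (A * A⁻¹) := by rw [hBQ]; simp only [Matrix.mul_assoc]
        _ = 1 := by rw [hPQ, hAi, Matrix.one_mul]
    have c2 : S * R * Q' = Q' * A := by
      calc S * R * Q' = S * (R * S) * Q * A⁻¹ := by rw [hQ']; simp only [Matrix.mul_assoc]
        _ = S * (B * Q) * A⁻¹ := by rw [← hB]; simp only [Matrix.mul_assoc]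
        _ = (S * Q) * (A * A⁻¹) := by rw [hBQ]; simp only [Matrix.mul_assoc]
        _ = Q' * A := by rw [hAi, Matrix.mul_one, hQA]
    have c3 : A * (P * R) = P * R * (S * R) := by
      calc A * (P * R) = P * B * R := by rw [← Matrix.mul_assoc, hAP]
        _ = P * R * (S * R) := by rw [hB]; simp only [Matrix.mul_assoc]
    have c4 : (S * R).trace = 0 := by rw [Matrix.trace_mul_comm, ← hB]; exact ht1
    have c5 : (S * R * (S * R)).trace = 0 := by
      have e1 : S * R * (S * R) = S * (B * R) := by rw [hB]; simp only [Matrix.mul_assoc]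
      have e2 : B * R * S = B * B := by rw [Matrix.mul_assoc, ← hB]
      rw [e1, Matrix.trace_mul_comm, e2]; exact ht2
    set e := Q * P with he
    set e' := Q' * (P * R) with he'
    have hee : e * e = e := by
      calc e * e = Q * (P * Q) * P := by rw [he]; simp only [Matrix.mul_assoc]
        _ = e := by rw [hPQ, Matrix.mul_one]
    have hee' : e' * e' = e' := by
      calc e' * e' = Q' * (P * R * Q') * (P * R) := by rw [he']; simp only [Matrix.mul_assoc]
        _ = e' := by rw [c1, Matrix.mul_one]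
    have heR : e * R = R * e' := by
      calc e * R = Q * (A * A⁻¹) * (P * R) := by
            rw [he, hAi, Matrix.mul_one, Matrix.mul_assoc]
        _ = (Q * A) * A⁻¹ * (P * R) := by simp only [Matrix.mul_assoc]
        _ = R * e' := by rw [← hBQ, hB, he', hQ']; simp only [Matrix.mul_assoc]
    have heS : e' * S = S * e := by
      calc e' * S = S * Q * A⁻¹ * (P * (R * S)) := by rw [he', hQ']; simp only [Matrix.mul_assoc]
        _ = S * Q * (A⁻¹ * (A * P)) := by rw [← hB, ← hAP]; simp only [Matrix.mul_assoc]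
        _ = S * e := by rw [← Matrix.mul_assoc A⁻¹, hAi', Matrix.one_mul, Matrix.mul_assoc]
    set f := 1 - e with hf
    set f' := 1 - e' with hf'
    have hef : e + f = 1 := by rw [hf]; abel
    have hef' : e' + f' = 1 := by rw [hf']; abel
    have hff : f * f = f := by
      rw [hf]; simp only [Matrix.mul_sub, Matrix.sub_mul, Matrix.one_mul, Matrix.mul_one, hee]; abel
    have hff' : f' * f' = f' := by
      rw [hf']; simp only [Matrix.mul_sub, Matrix.sub_mul, Matrix.one_mul, Matrix.mul_one, hee']; abel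
    have hfR : f * R = R * f' := by
      rw [hf, hf', Matrix.sub_mul, Matrix.mul_sub, Matrix.one_mul, Matrix.mul_one, heR]
    have hfS : f' * S = S * f := by
      rw [hf, hf', Matrix.sub_mul, Matrix.mul_sub, Matrix.one_mul, Matrix.mul_one, heS]
    have hRS : f * R * (f' * S) = f * B := by
      calc f * R * (f' * S) = f * (R * f') * S := by simp only [Matrix.mul_assoc]
        _ = f * B := by rw [← hfR, ← Matrix.mul_assoc, hff, hB, Matrix.mul_assoc]
    have hSR : f' * S * (f * R) = f' * (S * R) := by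
      calc f' * S * (f * R) = f' * (S * f) * R := by simp only [Matrix.mul_assoc]
        _ = f' * (S * R) := by rw [← hfS, ← Matrix.mul_assoc, hff', Matrix.mul_assoc]
    refine ⟨Q', N + k, hc (vc U1 0) (vc 0 (f * R)), vc (hc V1 0) (hc 0 (f' * S)), c1, c2, c3, c4, c5,
      ?_, ?_, ?_, ?_⟩
    · -- commutation
      have u1 : vc (hc (vc U1 0) (vc 0 (f * R))) (0 : Matrix (Fin l) (Fin (N + k + l)) ℤ) *
          hc (vc (hc V1 0) (hc 0 (f' * S))) (0 : Matrix (Fin (N + k + l)) (Fin l) ℤ) =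
          vc (hc (hc V1 0 * vc U1 0) (0 : Matrix (Fin (N + k)) (Fin l) ℤ)) 0 := by
        rw [vc_mul, Matrix.zero_mul, mul_hc, Matrix.mul_zero, hc_mul_vc, vc_mul (0 : Matrix (Fin N) (Fin l) ℤ),
          Matrix.zero_mul, mul_hc (f * R), Matrix.mul_zero, hRS, hcom]
      have u2 : hc (vc (hc V1 0) (hc 0 (f' * S))) (0 : Matrix (Fin (N + k + l)) (Fin l) ℤ) *
          vc (hc (vc U1 0) (vc 0 (f * R))) 0 = vc (hc (hc V1 0 * vc U1 0) 0) (hc 0 (f' * (S * R))) := by
        rw [hc_mul_vc, Matrix.zero_mul, add_zero, vc_mul, mul_hc, mul_hc]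
        have v1 : hc V1 (0 : Matrix (Fin (N + k)) (Fin k) ℤ) * vc (0 : Matrix (Fin N) (Fin l) ℤ) (f * R) = 0 := by
          rw [hc_mul_vc, Matrix.mul_zero, Matrix.zero_mul, add_zero]
        have v2 : hc (0 : Matrix (Fin l) (Fin N) ℤ) (f' * S) * vc U1 (0 : Matrix (Fin k) (Fin (N + k)) ℤ) = 0 := by
          rw [hc_mul_vc, Matrix.mul_zero, Matrix.zero_mul, add_zero]
        have v3 : hc (0 : Matrix (Fin l) (Fin N) ℤ) (f' * S) * vc (0 : Matrix (Fin N) (Fin l) ℤ) (f * R) =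
            f' * (S * R) := by
          rw [hc_mul_vc, Matrix.mul_zero, zero_add, hSR]
        rw [v1, v2, v3]
      rw [u1, u2, vc_add, add_zero, zero_add]
    · exact nil_up _ _ hnU
    · exact nil_dn _ _ hnV
    · -- the sign
      have t1 := sgc_split R S e f e' f' hef hef' hee hee' heR heS
      have t0 : sgc R S = 0 := sgc_nonneg R S hR hS (by rw [← hB]; exact ht1) (by rw [← hB]; exact ht2)
      have t2 := sgc_last U1 V1 (f * R) (f' * S)
      have t3 := sgc_triangle P R (Q' * A)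
      have t4 : R * (Q' * A) = Q * A := by
        rw [hQA, ← Matrix.mul_assoc, ← hB, hBQ]
      have t5 : Q' * A * P = e' * S := by
        rw [hQA, Matrix.mul_assoc, ← he, heS]
      have t6 := sgc_e R S e e' hee hee' heR heS
      rw [t4, t5, t6] at t3
      rw [t0, zero_add, ← hB] at t1
      change sgc (hc e' f') (vc (e' * (S * R)) (f' * (S * R))) + sgc (P * R) (Q' * A) + _ = 0
      rw [t2, ← t3, t1]
      have key : ∀ x y z u v : ZMod 2, x + y + z = 0 → x + u + v + (y + u) + (z + v) = 0 := by decide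
      exact key _ _ _ _ _ hs

/-- Main theorem of the module: closed nonnegative chains have trivial sign-gyration obstruction. -/
theorem sgc_chain {n : ℕ} (A : Matrix (Fin n) (Fin n) ℤ) (hA : IsUnit A.det)
    (h1 : A.trace = 0) (h2 : (A * A).trace = 0)
    (P : Matrix (Fin n) (Fin n) ℤ) (h : Chain A n A P) :
    IsUnit P.det ∧ A * P = P * A ∧ sgc P (P⁻¹ * A) = 0 := by
  obtain ⟨Q, N, U1, V1, hPQ, hAQ, hAP, _, _, hcom, hnU, hnV, hs⟩ := chain_inv A hA h1 h2 h
  have hQP : Q * P = 1 := mul_eq_one_comm.1 hPQ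
  refine ⟨Matrix.isUnit_det_of_right_inverse hPQ, hAP, ?_⟩
  rw [Matrix.inv_eq_right_inv hPQ]
  rw [hQP, sub_self, Matrix.zero_mul, hc_zero, vc_zero, add_zero] at hcom
  rw [hQP, sub_self, Matrix.zero_mul, Matrix.one_mul, sgc_nilpotent _ _ hcom.symm hnU hnV, add_zero,
    sgc_hc, sgc_one, sgc_zero, zero_add, zero_add] at hs
  · exact hs
  · intro i j _ k l
    simp

end Pool.Agent.GCC
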