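import Mathlib

/-! The sign-gyration expression of a pair of integer matrices. -/

open Matrix

namespace Pool.Agent.GCC

/-- Sign-gyration expression (Kim-Roush-Wagoner) of a pair of integer matrices. -/
def sgc {a b : ℕ} (R : Matrix (Fin a) (Fin b) ℤ) (S : Matrix (Fin b) (Fin a) ℤ) : ZMod 2 :=
  (((∑ i, ∑ j, ∑ k, ∑ l, if i < j ∧ l < k then
      R i k * R j l * (S k i * S l j + S k j * S l i) else 0) +
    (∑ i, ∑ k, R i k * (S k i * (S k i - 1) / 2)) +
    (∑ k, ((S * R) k k * ((S * R) k k - 1) / 2)) : ℤ) : ZMod 2)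

end Pool.Agent.GCC
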