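import Pool.Agent.GCC.SgcBase

/-! The sign-gyration expression vanishes on commuting nilpotent pairs. -/

open Matrix

namespace Pool.Agent.GCC

/-- change of basis -/
theorem sgc_conj {a : ℕ} (P Q U V : Matrix (Fin a) (Fin a) ℤ) (hPQ : P * Q = 1) (hQP : Q * P = 1)
    (h : U * V = V * U) : sgc (P * U * Q) (P * V * Q) = sgc U V := by
  -- first triangle: P U, Q
  have h1 := sgc_triangle (P * U) Q (P * V * Q)
  have h2 := sgc_triangle P U (V * Q)
  have h3 := sgc_triangle P Q (P * (U * V) * Q)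
  rw [hPQ, sgc_one] at h3
  have e1 : Q * (P * V * Q) = V * Q := by
    rw [← Matrix.mul_assoc, ← Matrix.mul_assoc, hQP, Matrix.one_mul]
  have e2 : P * V * Q * (P * U) = P * (V * U) := by
    calc P * V * Q * (P * U) = P * V * (Q * P) * U := by simp only [Matrix.mul_assoc]
      _ = P * (V * U) := by rw [hQP, Matrix.mul_one, Matrix.mul_assoc]
  have e3 : V * Q * P = V := by rw [Matrix.mul_assoc, hQP, Matrix.mul_one]
  have e4 : Q * (P * (U * V) * Q) = U * (V * Q) := by
    rw [← Matrix.mul_assoc, ← Matrix.mul_assoc, hQP, Matrix.one_mul, Matrix.mul_assoc]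
  have e5 : P * (U * V) * Q * P = P * (V * U) := by
    rw [Matrix.mul_assoc, hQP, Matrix.mul_one, h]
  rw [e1, e2] at h1
  rw [e3] at h2
  rw [e4, e5] at h3
  rw [← h1, ← h2]
  have e6 : ∀ x y z : ZMod 2, x + z = 0 → x + y + z = y := by decide
  exact e6 _ _ _ h3

/-- if the rows `0` vanish, pass to the lower right block -/
theorem sgc_succ {a : ℕ} (U V : Matrix (Fin (a + 1)) (Fin (a + 1)) ℤ) (hU : ∀ j, U 0 j = 0)
    (hV : ∀ j, V 0 j = 0) :
    sgc U V = sgc (U.submatrix Fin.succ Fin.succ) (V.submatrix Fin.succ Fin.succ) := by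
  unfold sgc
  congr 1
  have hmul : ∀ k : Fin a, (V * U) k.succ k.succ =
      (V.submatrix Fin.succ Fin.succ * U.submatrix Fin.succ Fin.succ) k k := by
    intro k
    rw [Matrix.mul_apply, Fin.sum_univ_succ, hU, mul_zero, zero_add, Matrix.mul_apply]
    rfl
  have hmul0 : (V * U) 0 0 = 0 := by
    rw [Matrix.mul_apply]
    apply Finset.sum_eq_zero
    intro j _
    rw [hV, zero_mul]
  have t3 : ∑ k, ((V * U) k k * ((V * U) k k - 1) / 2) =
      ∑ k : Fin a, ((V.submatrix Fin.succ Fin.succ * U.submatrix Fin.succ Fin.succ) k k *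
        ((V.submatrix Fin.succ Fin.succ * U.submatrix Fin.succ Fin.succ) k k - 1) / 2) := by
    rw [Fin.sum_univ_succ, hmul0]
    simp only [zero_mul, Int.zero_ediv, zero_add]
    apply Finset.sum_congr rfl
    intro k _
    rw [hmul k]
  have t2 : ∑ i, ∑ k, U i k * (V k i * (V k i - 1) / 2) =
      ∑ i : Fin a, ∑ k : Fin a, (U.submatrix Fin.succ Fin.succ) i k *
        ((V.submatrix Fin.succ Fin.succ) k i * ((V.submatrix Fin.succ Fin.succ) k i - 1) / 2) := by
    rw [Fin.sum_univ_succ]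
    have z : ∑ k, U 0 k * (V k 0 * (V k 0 - 1) / 2) = 0 := by
      apply Finset.sum_eq_zero
      intro k _
      rw [hU, zero_mul]
    rw [z, zero_add]
    apply Finset.sum_congr rfl
    intro i _
    rw [Fin.sum_univ_succ, hV]
    simp
  have t1 : (∑ i, ∑ j, ∑ k, ∑ l, if i < j ∧ l < k then
      U i k * U j l * (V k i * V l j + V k j * V l i) else 0) =
      ∑ i : Fin a, ∑ j : Fin a, ∑ k : Fin a, ∑ l : Fin a, if i < j ∧ l < k then
        (U.submatrix Fin.succ Fin.succ) i k * (U.submatrix Fin.succ Fin.succ) j l *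
        ((V.submatrix Fin.succ Fin.succ) k i * (V.submatrix Fin.succ Fin.succ) l j +
          (V.submatrix Fin.succ Fin.succ) k j * (V.submatrix Fin.succ Fin.succ) l i) else 0 := by
    rw [Fin.sum_univ_succ]
    have z : (∑ j, ∑ k, ∑ l, if (0 : Fin (a + 1)) < j ∧ l < k then
      U 0 k * U j l * (V k 0 * V l j + V k j * V l 0) else 0) = 0 := by
      apply Finset.sum_eq_zero; intro j _
      apply Finset.sum_eq_zero; intro k _
      apply Finset.sum_eq_zero; intro l _
      rw [hU]; simp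
    rw [z, zero_add]
    apply Finset.sum_congr rfl; intro i _
    rw [Fin.sum_univ_succ]
    have z2 : (∑ k, ∑ l, if i.succ < (0 : Fin (a + 1)) ∧ l < k then
      U i.succ k * U 0 l * (V k i.succ * V l 0 + V k 0 * V l i.succ) else 0) = 0 := by
      apply Finset.sum_eq_zero; intro k _
      apply Finset.sum_eq_zero; intro l _
      simp
    rw [z2, zero_add]
    apply Finset.sum_congr rfl; intro j _
    rw [Fin.sum_univ_succ]
    have z3 : (∑ l, if i.succ < j.succ ∧ l < (0 : Fin (a + 1)) then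
      U i.succ 0 * U j.succ l * (V 0 i.succ * V l j.succ + V 0 j.succ * V l i.succ) else 0)
        = 0 := by
      apply Finset.sum_eq_zero; intro l _
      simp
    rw [z3, zero_add]
    apply Finset.sum_congr rfl; intro k _
    rw [Fin.sum_univ_succ, hV, hV]
    simp
  rw [t1, t2, t3]

/-- a nonzero row vector killed by two commuting nilpotent matrices -/
theorem exists_common_null {a : ℕ} (U V : Matrix (Fin (a + 1)) (Fin (a + 1)) ℤ)
    (h : U * V = V * U) (hU : IsNilpotent U) (hV : IsNilpotent V) :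
    ∃ v : Fin (a + 1) → ℤ, v ≠ 0 ∧ v ᵥ* U = 0 ∧ v ᵥ* V = 0 := by
  classical
  -- general step: from a nonzero vector, find a nonzero `v ᵥ* W ^ k` killed by `W`
  have key : ∀ (W : Matrix (Fin (a + 1)) (Fin (a + 1)) ℤ), IsNilpotent W →
      ∀ v : Fin (a + 1) → ℤ, v ≠ 0 → ∃ k : ℕ, v ᵥ* (W ^ k) ≠ 0 ∧ v ᵥ* (W ^ k) ᵥ* W = 0 := by
    intro W hW v hv
    obtain ⟨N, hN⟩ := hW
    have hex : ∃ k : ℕ, v ᵥ* (W ^ k) = 0 := ⟨N, by rw [hN, Matrix.vecMul_zero]⟩
    set k := Nat.find hex with hk
    have hk0 : k ≠ 0 := by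
      intro h0
      have := Nat.find_spec hex
      rw [← hk, h0, pow_zero, Matrix.vecMul_one] at this
      exact hv this
    obtain ⟨m, hm⟩ := Nat.exists_eq_succ_of_ne_zero hk0
    refine ⟨m, ?_, ?_⟩
    · exact Nat.find_min hex (by omega)
    · rw [Matrix.vecMul_vecMul, ← pow_succ]
      have := Nat.find_spec hex
      rw [← hk, hm] at this
      exact this
  obtain ⟨k, hk1, hk2⟩ := key U hU (fun _ => 1) (by
    intro h0
    have := congrFun h0 0
    simp at this)
  obtain ⟨l, hl1, hl2⟩ := key V hV _ hk1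
  refine ⟨_, hl1, ?_, hl2⟩
  have hcomm : V ^ l * U = U * V ^ l := (Commute.pow_right (show Commute U V from h) l).symm
  rw [Matrix.vecMul_vecMul _ (V ^ l) U, hcomm, ← Matrix.vecMul_vecMul, hk2, Matrix.zero_vecMul]

/-- there is an invertible integer matrix whose row `0` is killed by both matrices -/
theorem exists_change {a : ℕ} (U V : Matrix (Fin (a + 1)) (Fin (a + 1)) ℤ)
    (v : Fin (a + 1) → ℤ) (hv : v ≠ 0) (hvU : v ᵥ* U = 0) (hvV : v ᵥ* V = 0) :
    ∃ P Q : Matrix (Fin (a + 1)) (Fin (a + 1)) ℤ, P * Q = 1 ∧ Q * P = 1 ∧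
      P 0 ᵥ* U = 0 ∧ P 0 ᵥ* V = 0 := by
  classical
  let K : Submodule ℤ (Fin (a + 1) → ℤ) :=
    LinearMap.ker (Matrix.vecMulLinear U) ⊓ LinearMap.ker (Matrix.vecMulLinear V)
  have hmem : ∀ x : Fin (a + 1) → ℤ, x ∈ K ↔ x ᵥ* U = 0 ∧ x ᵥ* V = 0 := by
    intro x
    simp only [K, Submodule.mem_inf, LinearMap.mem_ker, Matrix.vecMulLinear_apply]
  obtain ⟨N, bM, bN, f, c, snf⟩ := Submodule.smithNormalForm (Pi.basisFun ℤ (Fin (a + 1))) K
  have hN : 0 < N := by
    rcases Nat.eq_zero_or_pos N with h0 | h0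
    · exfalso
      subst h0
      have : (⟨v, (hmem v).mpr ⟨hvU, hvV⟩⟩ : K) = 0 := by
        rw [← bN.sum_repr ⟨v, (hmem v).mpr ⟨hvU, hvV⟩⟩]
        simp
      apply hv
      exact congrArg Subtype.val this
    · exact h0
  have hc : c ⟨0, hN⟩ ≠ 0 := by
    intro h0
    have h1 := snf ⟨0, hN⟩
    rw [h0, zero_smul] at h1
    have h2 := bN.ne_zero ⟨0, hN⟩
    apply h2
    exact Subtype.ext h1
  set i0 := f ⟨0, hN⟩ with hi0
  have hb : bM i0 ∈ K := by
    rw [hmem]
    have h1 := (bN ⟨0, hN⟩).2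
    rw [snf ⟨0, hN⟩, hmem] at h1
    constructor
    · have h2 := h1.1
      rw [Matrix.smul_vecMul] at h2
      exact (smul_eq_zero.mp h2).resolve_left hc
    · have h2 := h1.2
      rw [Matrix.smul_vecMul] at h2
      exact (smul_eq_zero.mp h2).resolve_left hc
  -- reindex so that `i0` becomes `0`
  let b := bM.reindex (Equiv.swap i0 0)
  have hb0 : b 0 = bM i0 := by
    simp [b]
  let e := Pi.basisFun ℤ (Fin (a + 1))
  refine ⟨(e.toMatrix b)ᵀ, (b.toMatrix e)ᵀ, ?_, ?_, ?_, ?_⟩
  · rw [← Matrix.transpose_mul, b.toMatrix_mul_toMatrix_flip, Matrix.transpose_one]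
  · rw [← Matrix.transpose_mul, e.toMatrix_mul_toMatrix_flip, Matrix.transpose_one]
  · have : (e.toMatrix b)ᵀ 0 = bM i0 := by
      funext j
      rw [Matrix.transpose_apply, Module.Basis.toMatrix_apply, hb0]
      simp [e]
    rw [this]; exact ((hmem _).mp hb).1
  · have : (e.toMatrix b)ᵀ 0 = bM i0 := by
      funext j
      rw [Matrix.transpose_apply, Module.Basis.toMatrix_apply, hb0]
      simp [e]
    rw [this]; exact ((hmem _).mp hb).2

/-- block multiplicativity -/
theorem submatrix_mul_of_row {a : ℕ} (U V : Matrix (Fin (a + 1)) (Fin (a + 1)) ℤ)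
    (hV : ∀ j, V 0 j = 0) :
    (U * V).submatrix Fin.succ Fin.succ =
      U.submatrix Fin.succ Fin.succ * V.submatrix Fin.succ Fin.succ := by
  ext i j
  rw [Matrix.submatrix_apply, Matrix.mul_apply, Fin.sum_univ_succ, hV, mul_zero, zero_add,
    Matrix.mul_apply]
  rfl

theorem submatrix_nilpotent {a : ℕ} (U : Matrix (Fin (a + 1)) (Fin (a + 1)) ℤ)
    (hU : ∀ j, U 0 j = 0) (h : IsNilpotent U) : IsNilpotent (U.submatrix Fin.succ Fin.succ) := by
  obtain ⟨k, hk⟩ := h
  have key : ∀ m : ℕ, (U ^ (m + 1)).submatrix Fin.succ Fin.succ =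
      (U.submatrix Fin.succ Fin.succ) ^ (m + 1) := by
    intro m
    induction m with
    | zero => simp
    | succ m ih =>
      rw [pow_succ U (m + 1), submatrix_mul_of_row _ _ hU, ih, ← pow_succ]
  refine ⟨k + 1, ?_⟩
  rw [← key k, pow_succ, hk, Matrix.zero_mul]
  rfl

/-- Commuting nilpotent pairs. -/
theorem sgc_nilpotent {a : ℕ} (U V : Matrix (Fin a) (Fin a) ℤ) (h : U * V = V * U)
    (hU : IsNilpotent U) (hV : IsNilpotent V) : sgc U V = 0 := by
  induction a with
  | zero => simp [sgc]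
  | succ a ih =>
    obtain ⟨v, hv, hvU, hvV⟩ := exists_common_null U V h hU hV
    obtain ⟨P, Q, hPQ, hQP, hPU, hPV⟩ := exists_change U V v hv hvU hvV
    rw [← sgc_conj P Q U V hPQ hQP h]
    have r1 : ∀ j, (P * U * Q) 0 j = 0 := by
      intro j
      have : (P * U) 0 = P 0 ᵥ* U := by
        funext k
        rw [Matrix.mul_apply]
        rfl
      rw [Matrix.mul_apply]
      apply Finset.sum_eq_zero
      intro k _
      rw [this, hPU]
      simp
    have r2 : ∀ j, (P * V * Q) 0 j = 0 := by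
      intro j
      have : (P * V) 0 = P 0 ᵥ* V := by
        funext k
        rw [Matrix.mul_apply]
        rfl
      rw [Matrix.mul_apply]
      apply Finset.sum_eq_zero
      intro k _
      rw [this, hPV]
      simp
    rw [sgc_succ _ _ r1 r2]
    have hcomm : (P * U * Q) * (P * V * Q) = (P * V * Q) * (P * U * Q) := by
      calc (P * U * Q) * (P * V * Q) = P * U * (Q * P) * V * Q := by simp only [Matrix.mul_assoc]
        _ = P * (U * V) * Q := by rw [hQP, Matrix.mul_one]; simp only [Matrix.mul_assoc]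
        _ = P * (V * U) * Q := by rw [h]
        _ = P * V * (Q * P) * U * Q := by rw [hQP, Matrix.mul_one]; simp only [Matrix.mul_assoc]
        _ = (P * V * Q) * (P * U * Q) := by simp only [Matrix.mul_assoc]
    have hnil : ∀ W : Matrix (Fin (a + 1)) (Fin (a + 1)) ℤ, IsNilpotent W →
        IsNilpotent (P * W * Q) := by
      rintro W ⟨k, hk⟩
      refine ⟨k, ?_⟩
      have : ∀ m : ℕ, (P * W * Q) ^ m = P * W ^ m * Q := by
        intro m
        induction m with
        | zero => simp [hPQ]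
        | succ m ihm =>
          rw [pow_succ, ihm, pow_succ]
          calc P * W ^ m * Q * (P * W * Q) = P * W ^ m * (Q * P) * W * Q := by
                simp only [Matrix.mul_assoc]
            _ = P * (W ^ m * W) * Q := by rw [hQP, Matrix.mul_one]; simp only [Matrix.mul_assoc]
      rw [this, hk, Matrix.mul_zero, Matrix.zero_mul]
    apply ih
    · rw [← submatrix_mul_of_row _ _ r2, ← submatrix_mul_of_row _ _ r1, hcomm]
    · exact submatrix_nilpotent _ r1 (hnil U hU)
    · exact submatrix_nilpotent _ r2 (hnil V hV)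

end Pool.Agent.GCC
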