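import Pool.Agent.GCC.PiMod

/-!
# The relations `[L] = ∑ [P_v]` and `[P_v(1)] = ∑ [P_{r x}]`
-/

open MulOpposite DirectSum

namespace Pool.Agent.GCC

universe u

section Equivs

variable {G : FinGraph} {L : Type*} [Ring L] (F : CKFamily G L)

/-- `L` is the direct sum of the right ideals `v L`. -/
def CKFamily.unitEquiv : L ≃ₗ[Lᵐᵒᵖ] (∀ v, fixSub (F.p v)) where
  toFun x v := ⟨F.p v * x, by rw [mem_fixSub, ← mul_assoc, F.pp_self]⟩
  map_add' x y := by
    funext v
    exact Subtype.ext (mul_add _ _ _)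
  map_smul' a x := by
    funext v
    exact Subtype.ext (mul_assoc (F.p v) x (unop a)).symm
  invFun y := ∑ v, (y v).1
  left_inv x := by
    change ∑ v, F.p v * x = x
    rw [← Finset.sum_mul, F.sum_p, one_mul]
  right_inv y := by
    funext v
    apply Subtype.ext
    change F.p v * ∑ w, (y w).1 = (y v).1
    rw [Finset.mul_sum, Finset.sum_eq_single v]
    · exact (y v).2
    · intro w _ hw
      have h1 : F.p w * (y w).1 = (y w).1 := (y w).2
      rw [← h1, ← mul_assoc, F.pp_ne v w (Ne.symm hw), zero_mul]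
    · intro h
      exact absurd (Finset.mem_univ v) h

theorem CKFamily.expand (v : Fin G.nV) (hv : ∃ x, G.s x = v) (z : L) (hz : F.p v * z = z) :
    ∑ x ∈ Finset.univ.filter (fun x => G.s x = v), F.e x * (F.g x * z) = z := by
  conv_rhs => rw [← hz]
  rw [F.ck2 v hv, Finset.sum_mul]
  refine Finset.sum_congr rfl fun x _ => ?_
  rw [mul_assoc]

/-- `v L` is the direct sum of the `(e x) (g x) L`, isomorphic to `(r x) L`. -/
def CKFamily.shiftEquiv (v : Fin G.nV) (hv : ∃ x, G.s x = v) :
    fixSub (F.p v) ≃ₗ[Lᵐᵒᵖ] (∀ x : {x : Fin G.nE // G.s x = v}, fixSub (F.p (G.r x.1))) where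
  toFun m x := ⟨F.g x.1 * m.1, by rw [mem_fixSub, ← mul_assoc, F.rg]⟩
  map_add' x y := by
    funext v
    exact Subtype.ext (mul_add _ _ _)
  map_smul' a x := by
    funext w
    exact Subtype.ext (mul_assoc (F.g w.1) x.1 (unop a)).symm
  invFun y := ⟨∑ x, F.e x.1 * (y x).1, by
    rw [mem_fixSub, Finset.mul_sum]
    refine Finset.sum_congr rfl fun x _ => ?_
    rw [← mul_assoc]
    congr 1
    rw [F.pe, if_pos x.2]⟩
  left_inv m := by
    apply Subtype.ext
    change ∑ x : {x : Fin G.nE // G.s x = v}, F.e x.1 * (F.g x.1 * m.1) = m.1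
    rw [← Finset.sum_subtype (Finset.univ.filter (fun x => G.s x = v)) (by simp)
      (fun x => F.e x * (F.g x * m.1))]
    exact F.expand v hv m.1 m.2
  right_inv y := by
    funext x
    apply Subtype.ext
    change F.g x.1 * ∑ w : {x : Fin G.nE // G.s x = v}, F.e w.1 * (y w).1 = (y x).1
    rw [Finset.mul_sum, Finset.sum_eq_single x]
    · rw [← mul_assoc, F.ge_self]
      exact (y x).2
    · intro w _ hw
      rw [← mul_assoc, F.ge_ne x.1 w.1 (fun h => hw (Subtype.ext h.symm)), zero_mul]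
    · intro h
      exact absurd (Finset.mem_univ x) h

end Equivs

variable (K : Type u) [Field K] (G : FinGraph)

/-- M6b. The unit. -/
theorem LPA.unit_eq : K0.unit (LPA.grRing K G) = ∑ v, K0.cls (LPA.Pv K G v) := by
  have key : V.mk (FGProj.self (LPA.grRing K G)) = ∑ v, V.mk (LPA.Pv K G v) := by
    apply V.mk_eq_sum
    refine ⟨(LPA.family K G).unitEquiv, ?_⟩
    intro n (m : LPA K G)
    constructor
    · intro (h : m ∈ LPA.gr K G n) v
      change (LPA.family K G).p v * m ∈ LPA.gr K G n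
      have := LPA.mul_mem_gr (LPA.gen_mem_gr (K := K) (G := G) (.v v)) h
      rw [show Gen.deg (Gen.v v : Gen G) = 0 from rfl, zero_add] at this
      exact this
    · intro h
      have h1 : m = ∑ v, (LPA.family K G).p v * m := by
        rw [← Finset.sum_mul, (LPA.family K G).sum_p, one_mul]
      change m ∈ LPA.gr K G n
      rw [h1]
      exact Submodule.sum_mem _ fun v _ => h v
  unfold K0.unit K0.cls
  rw [key, map_sum]

/-- M6b. `P_v(1) ≅ ⊕_{s x = v} P_{r x}` in the monoid `V`. -/
theorem LPA.shift_Pv (v : Fin G.nV) (hv : ∃ x, G.s x = v) :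
    V.shift (V.mk (LPA.Pv K G v)) =
      ∑ x ∈ Finset.univ.filter (fun x => G.s x = v), V.mk (LPA.Pv K G (G.r x)) := by
  have key : V.mk ((LPA.Pv K G v).shift 1) =
      ∑ x : {x : Fin G.nE // G.s x = v}, V.mk (LPA.Pv K G (G.r x.1)) := by
    apply V.mk_eq_sum
    refine ⟨(LPA.family K G).shiftEquiv v hv, ?_⟩
    intro n (m : fixSub ((LPA.family K G).p v))
    constructor
    · intro (h : m.1 ∈ LPA.gr K G (n + 1)) x
      change (LPA.family K G).g x.1 * m.1 ∈ LPA.gr K G n
      have := LPA.mul_mem_gr (LPA.gen_mem_gr (K := K) (G := G) (.g x.1)) h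
      rw [show Gen.deg (Gen.g x.1 : Gen G) = -1 from rfl, show (-1 : ℤ) + (n + 1) = n by ring]
        at this
      exact this
    · intro h
      change m.1 ∈ LPA.gr K G (n + 1)
      rw [← (LPA.family K G).expand v hv m.1 m.2]
      refine Submodule.sum_mem _ fun x hx => ?_
      rw [add_comm n 1]
      have hx' : (LPA.family K G).g x * m.1 ∈ LPA.gr K G n := h ⟨x, (Finset.mem_filter.mp hx).2⟩
      exact LPA.mul_mem_gr (LPA.gen_mem_gr (K := K) (G := G) (.e x)) hx'
  change V.mk ((LPA.Pv K G v).shift 1) = _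
  rw [key]
  exact (Finset.sum_subtype (Finset.univ.filter (fun x => G.s x = v)) (by simp)
    (fun x => V.mk (LPA.Pv K G (G.r x)))).symm

end Pool.Agent.GCC
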