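import Pool.Agent.GCC.Omega

/-!
# Inverse Morita maps, natural bases of characters, elementary steps
-/

open Matrix

namespace Pool.Agent.GCC

variable {K : Type*} [Field K] {G : FinGraph} {L : Type*} [Ring L] [Algebra K L]
  {x : CKFamily G L} {D D' : Subalgebra K L}

/-- A functional on a subalgebra with the trace property, on elements of `L`. -/
theorem Ch.tr' {τ : D →ₗ[K] K} (hτ : τ ∈ Ch K D) (a b : L) (ha : a ∈ D) (hb : b ∈ D)
    (hab : a * b ∈ D) (hba : b * a ∈ D) :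
    τ ⟨a * b, hab⟩ = τ ⟨b * a, hba⟩ := Ch.tr hτ ⟨a, ha⟩ ⟨b, hb⟩

theorem Sh.p_mem (h : Sh x D D') (hG : G.NoSource) (v : Fin G.nV) : x.p v ∈ D := by
  obtain ⟨e, rfl⟩ := hG v
  have := h.down 1 D'.one_mem e e
  rwa [mul_one, x.ge_self] at this

theorem Sh.eg_mem (h : Sh x D D') (e e' : Fin G.nE) : x.e e * x.g e' ∈ D' := by
  have := h.up 1 D.one_mem e e'
  rwa [mul_one] at this

theorem Sh.om'_om (h : Sh x D D') (sec : Fin G.nV → Fin G.nE) (hsec : ∀ v, G.r (sec v) = v)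
    {τ : D →ₗ[K] K} (hτ : τ ∈ Ch K D) : h.om' sec (h.om τ) = τ := by
  classical
  ext d
  have hG : G.NoSource := fun v => ⟨sec v, hsec v⟩
  rw [h.om'_apply]
  have h1 : ∀ v, h.om τ ⟨x.e (sec v) * d.1 * x.g (sec v), h.up d.1 d.2 (sec v) (sec v)⟩ =
      τ ⟨d.1 * x.p v, D.mul_mem d.2 (h.p_mem hG v)⟩ := by
    intro v
    rw [h.om_apply, Finset.sum_eq_single (sec v)]
    · have hv : x.g (sec v) * x.e (sec v) = x.p v := by rw [x.ge_self, hsec]
      have e1 : x.g (sec v) * (x.e (sec v) * d.1 * x.g (sec v)) * x.e (sec v) =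
          x.p v * (d.1 * x.p v) := by
        rw [← hv]; simp only [mul_assoc]
      have hm : x.p v * (d.1 * x.p v) ∈ D :=
        D.mul_mem (h.p_mem hG v) (D.mul_mem d.2 (h.p_mem hG v))
      have e2 : τ ⟨_, h.down _ (h.up d.1 d.2 (sec v) (sec v)) (sec v) (sec v)⟩ =
          τ ⟨x.p v * (d.1 * x.p v), hm⟩ := congrArg τ (Subtype.ext e1)
      rw [e2]
      have e3 := Ch.tr' hτ (x.p v) (d.1 * x.p v) (h.p_mem hG v)
        (D.mul_mem d.2 (h.p_mem hG v)) hm
        (D.mul_mem (D.mul_mem d.2 (h.p_mem hG v)) (h.p_mem hG v))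
      rw [e3]
      congr 1
      apply Subtype.ext
      change d.1 * x.p v * x.p v = d.1 * x.p v
      rw [mul_assoc, x.pp_self]
    · intro e _ he
      have : x.g e * (x.e (sec v) * d.1 * x.g (sec v)) * x.e e = 0 := by
        rw [← mul_assoc, ← mul_assoc, x.ge_ne e (sec v) he]; simp
      have e2 : (⟨_, h.down _ (h.up d.1 d.2 (sec v) (sec v)) e e⟩ : D) = 0 := Subtype.ext this
      rw [e2, map_zero]
    · intro h'; exact absurd (Finset.mem_univ _) h'
  rw [Finset.sum_congr rfl (fun v _ => h1 v), ← map_sum]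
  congr 1
  apply Subtype.ext
  rw [AddSubmonoidClass.coe_finsetSum]
  simp only
  rw [← Finset.mul_sum, x.sum_p, mul_one]

theorem Sh.om_om' (h : Sh x D D') (hs : G.NoSink) (sec : Fin G.nV → Fin G.nE)
    (hsec : ∀ v, G.r (sec v) = v)
    {σ : D' →ₗ[K] K} (hσ : σ ∈ Ch K D') : h.om (h.om' sec σ) = σ := by
  classical
  ext a
  have hG : G.NoSource := fun v => ⟨sec v, hsec v⟩
  rw [h.om_apply]
  have h1 : ∀ e, h.om' sec σ ⟨x.g e * a.1 * x.e e, h.down a.1 a.2 e e⟩ =
      σ ⟨a.1 * (x.e e * x.g e), D'.mul_mem a.2 (h.eg_mem e e)⟩ := by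
    intro e
    rw [h.om'_apply, Finset.sum_eq_single (G.r e)]
    · set f := sec (G.r e) with hf
      have hfr : G.r f = G.r e := hsec _
      have e1 : x.e f * (x.g e * a.1 * x.e e) * x.g f =
          (x.e f * x.g e) * (a.1 * (x.e e * x.g f)) := by
        simp only [mul_assoc]
      have hm : (x.e f * x.g e) * (a.1 * (x.e e * x.g f)) ∈ D' :=
        D'.mul_mem (h.eg_mem _ _) (D'.mul_mem a.2 (h.eg_mem _ _))
      have e2 : σ ⟨_, h.up _ (h.down a.1 a.2 e e) f f⟩ =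
          σ ⟨(x.e f * x.g e) * (a.1 * (x.e e * x.g f)), hm⟩ := congrArg σ (Subtype.ext e1)
      rw [e2]
      have hm2 : (a.1 * (x.e e * x.g f)) * (x.e f * x.g e) ∈ D' :=
        D'.mul_mem (D'.mul_mem a.2 (h.eg_mem _ _)) (h.eg_mem _ _)
      rw [Ch.tr' hσ (x.e f * x.g e) (a.1 * (x.e e * x.g f)) (h.eg_mem _ _)
        (D'.mul_mem a.2 (h.eg_mem _ _)) hm hm2]
      congr 1
      apply Subtype.ext
      change a.1 * (x.e e * x.g f) * (x.e f * x.g e) = a.1 * (x.e e * x.g e)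
      have : (x.e e * x.g f) * (x.e f * x.g e) = x.e e * x.g e := by
        calc (x.e e * x.g f) * (x.e f * x.g e) = x.e e * (x.g f * x.e f) * x.g e := by
              simp only [mul_assoc]
          _ = _ := by rw [x.ge_self, hfr, x.er]
      rw [mul_assoc, this]
    · intro v _ hv
      have : x.e (sec v) * (x.g e * a.1 * x.e e) * x.g (sec v) = 0 := by
        have h0 : x.e (sec v) * x.g e = 0 := by
          rw [← x.er (sec v), hsec, mul_assoc, x.pg]
          rw [if_neg (fun h => hv h.symm), mul_zero]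
        calc _ = (x.e (sec v) * x.g e) * (a.1 * x.e e * x.g (sec v)) := by
              simp only [mul_assoc]
          _ = 0 := by rw [h0, zero_mul]
      have e2 : (⟨_, h.up _ (h.down a.1 a.2 e e) (sec v) (sec v)⟩ : D') = 0 := Subtype.ext this
      rw [e2, map_zero]
    · intro h'; exact absurd (Finset.mem_univ _) h'
  rw [Finset.sum_congr rfl (fun v _ => h1 v), ← map_sum]
  congr 1
  apply Subtype.ext
  rw [AddSubmonoidClass.coe_finsetSum]
  simp only
  rw [← Finset.mul_sum, x.sum_eg hs, mul_one]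

/-- Restriction of functionals. -/
def res (h : D ≤ D') (σ : D' →ₗ[K] K) : D →ₗ[K] K := σ.comp (Subalgebra.inclusion h).toLinearMap

theorem res_apply (h : D ≤ D') (σ : D' →ₗ[K] K) (d : D) : res h σ d = σ ⟨d.1, h d.2⟩ := rfl

theorem res_mem (h : D ≤ D') {σ : D' →ₗ[K] K} (hσ : σ ∈ Ch K D') : res h σ ∈ Ch K D :=
  Ch.comp hσ _ fun _ _ => rfl

theorem res_sum (h : D ≤ D') {ι : Type*} (s : Finset ι) (f : ι → D' →ₗ[K] K) :
    res h (∑ i ∈ s, f i) = ∑ i ∈ s, res h (f i) := by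
  ext d; simp [res_apply]

theorem res_smul (h : D ≤ D') (c : K) (f : D' →ₗ[K] K) : res h (c • f) = c • res h f := rfl

/-- A basis over the natural numbers of the monoid of characters. -/
structure NB (K : Type*) [Field K] (D : Type*) [Ring D] [Algebra K D] {n : ℕ}
    (b : Fin n → (D →ₗ[K] K)) : Prop where
  mem : ∀ i, b i ∈ Ch K D
  li : LinearIndependent K b
  span : ∀ τ ∈ Ch K D, ∃ c : Fin n → ℕ, τ = ∑ i, (c i : K) • b i

theorem NB.uniq [CharZero K] {D : Type*} [Ring D] [Algebra K D] {n : ℕ}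
    {b : Fin n → (D →ₗ[K] K)} (hb : NB K D b) {c c' : Fin n → ℤ}
    (h : ∑ i, (c i : K) • b i = ∑ i, (c' i : K) • b i) : c = c' := by
  have h1 : ∑ i, ((c i : K) - (c' i : K)) • b i = 0 := by
    have h0 := sub_eq_zero.mpr h
    rw [← Finset.sum_sub_distrib] at h0
    rw [← h0]
    exact Finset.sum_congr rfl fun i _ => by ext d; simp [sub_mul]
  have h2 := (Fintype.linearIndependent_iff.mp hb.li) _ h1
  funext i
  have := h2 i
  rw [sub_eq_zero] at this
  exact_mod_cast this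

/-- The matrix of `restriction ∘ om` in a given basis. -/
def IsZ (h : Sh x D D') (hD : D ≤ D') {n : ℕ} (b : Fin n → (D →ₗ[K] K))
    (Z : Matrix (Fin n) (Fin n) ℤ) : Prop :=
  ∀ a, res hD (h.om (b a)) = ∑ c, (Z c a : K) • b c

theorem exists_isZ (hG : G.NoSink) (h : Sh x D D') (hD : D ≤ D') {n : ℕ}
    {b : Fin n → (D →ₗ[K] K)} (hb : NB K D b) : ∃ Z, IsZ h hD b Z := by
  have h1 : ∀ a, ∃ c : Fin n → ℕ, res hD (h.om (b a)) = ∑ i, (c i : K) • b i := fun a =>
    hb.span _ (res_mem hD (h.om_mem hG (hb.mem a)))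
  choose c hc using h1
  exact ⟨fun i a => (c a i : ℤ), fun a => by simp [hc]⟩

/-- One elementary step. -/
theorem step_lemma [CharZero K] (hG : G.NoSink) {D1 D1' D2 D2' : Subalgebra K L} (h12 : D1 ≤ D2)
    (h21 : D2 ≤ D1') (h12' : D1' ≤ D2') (h1 : Sh x D1 D1') (h2 : Sh x D2 D2')
    {n1 n2 : ℕ} {b1 : Fin n1 → (D1 →ₗ[K] K)} {b2 : Fin n2 → (D2 →ₗ[K] K)}
    (hb1 : NB K D1 b1) (hb2 : NB K D2 b2) {Z1 : Matrix (Fin n1) (Fin n1) ℤ}
    {Z2 : Matrix (Fin n2) (Fin n2) ℤ} (hZ1 : IsZ h1 (h12.trans h21) b1 Z1)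
    (hZ2 : IsZ h2 (h21.trans h12') b2 Z2) :
    ∃ (R : Matrix (Fin n1) (Fin n2) ℤ) (S : Matrix (Fin n2) (Fin n1) ℤ),
      (∀ i j, 0 ≤ R i j) ∧ (∀ i j, 0 ≤ S i j) ∧ Z1 = R * S ∧ Z2 = S * R ∧
      ∀ j, res h12 (b2 j) = ∑ a, (R a j : K) • b1 a := by
  have hR : ∀ j, ∃ c : Fin n1 → ℕ, res h12 (b2 j) = ∑ i, (c i : K) • b1 i := fun j =>
    hb1.span _ (res_mem h12 (hb2.mem j))
  have hS : ∀ a, ∃ c : Fin n2 → ℕ, res h21 (h1.om (b1 a)) = ∑ i, (c i : K) • b2 i := fun a =>
    hb2.span _ (res_mem h21 (h1.om_mem hG (hb1.mem a)))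
  choose r hr using hR
  choose s hs using hS
  refine ⟨fun a j => (r j a : ℤ), fun j a => (s a j : ℤ), fun _ _ => Int.natCast_nonneg _,
    fun _ _ => Int.natCast_nonneg _, ?_, ?_, fun j => by simp [hr]⟩
  · -- Z1 = R S
    ext c a
    have e1 : res (h12.trans h21) (h1.om (b1 a)) = res h12 (res h21 (h1.om (b1 a))) := rfl
    have e2 := hZ1 a
    rw [e1, hs, res_sum] at e2
    simp only [res_smul, hr] at e2
    have e3 : ∑ j, (s a j : K) • ∑ i, (r j i : K) • b1 i =
        ∑ i, (((∑ j, (r j i : ℤ) * (s a j : ℤ) : ℤ)) : K) • b1 i := by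
      simp only [Finset.smul_sum]
      rw [Finset.sum_comm]
      refine Finset.sum_congr rfl fun i _ => ?_
      push_cast
      rw [Finset.sum_smul]
      refine Finset.sum_congr rfl fun j _ => ?_
      rw [smul_smul, mul_comm]
    rw [e3] at e2
    have e4 := congrFun (hb1.uniq e2) c
    rw [Matrix.mul_apply]
    exact e4.symm
  · -- Z2 = S R
    ext c j
    have e1 : res (h21.trans h12') (h2.om (b2 j)) = res h21 (h1.om (res h12 (b2 j))) := by
      ext d
      simp only [res_apply, Sh.om_apply]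
    have e2 := hZ2 j
    rw [e1, hr, h1.om_sum, res_sum] at e2
    simp only [h1.om_smul, res_smul, hs] at e2
    have e3 : ∑ a, (r j a : K) • ∑ i, (s a i : K) • b2 i =
        ∑ i, (((∑ a, (s a i : ℤ) * (r j a : ℤ) : ℤ)) : K) • b2 i := by
      simp only [Finset.smul_sum]
      rw [Finset.sum_comm]
      refine Finset.sum_congr rfl fun i _ => ?_
      push_cast
      rw [Finset.sum_smul]
      refine Finset.sum_congr rfl fun a _ => ?_
      rw [smul_smul, mul_comm]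
    rw [e3] at e2
    have e4 := congrFun (hb2.uniq e2) c
    rw [Matrix.mul_apply]
    exact e4.symm

end Pool.Agent.GCC
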