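import Pool.Agent.GCC.StepLemma

/-!
# The canonical basis of the characters of `lv k`
-/

open Matrix

namespace Pool.Agent.GCC

section general

variable {K : Type*} [Field K]

theorem trace_idem {n : ℕ} (E : Matrix (Fin n) (Fin n) K) (h : E * E = E) :
    ∃ m : ℕ, E.trace = m := by
  have h1 : IsIdempotentElem (Matrix.toLin' E) := by
    unfold IsIdempotentElem
    rw [Module.End.mul_eq_comp, ← Matrix.toLin'_mul, h]
  have h2 := LinearMap.IsProj.trace (LinearMap.IsIdempotentElem.isProj_range _ h1)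
  rw [Matrix.trace_toLin'_eq] at h2
  exact ⟨_, h2⟩

variable {G : FinGraph} {L : Type*} [Ring L] [Algebra K L]
  {x : CKFamily G L} {D D' : Subalgebra K L}

theorem Sh.om'_smul (h : Sh x D D') (sec : Fin G.nV → Fin G.nE) (c : K) (τ : D' →ₗ[K] K) :
    h.om' sec (c • τ) = c • h.om' sec τ := by
  ext a; simp [Sh.om'_apply, Finset.mul_sum]

theorem Sh.om'_sum (h : Sh x D D') (sec : Fin G.nV → Fin G.nE) {ι : Type*} (s : Finset ι)
    (f : ι → D' →ₗ[K] K) :
    h.om' sec (∑ i ∈ s, f i) = ∑ i ∈ s, h.om' sec (f i) := by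
  ext a
  simp only [Sh.om'_apply, LinearMap.sum_apply]
  exact Finset.sum_comm

theorem NB.om (h : Sh x D D') (hs : G.NoSink) (hr : G.NoSource) {n : ℕ}
    {b : Fin n → (D →ₗ[K] K)} (hb : NB K D b) : NB K D' (fun i => h.om (b i)) := by
  choose sec hsec using hr
  refine ⟨fun i => h.om_mem hs (hb.mem i), ?_, ?_⟩
  · rw [Fintype.linearIndependent_iff]
    intro c hc
    apply Fintype.linearIndependent_iff.mp hb.li
    have h1 := congrArg (h.om' sec) hc
    rw [h.om'_sum] at h1
    simp only [h.om'_smul, h.om'_om sec hsec (hb.mem _)] at h1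
    rw [h1]
    ext d
    simp [h.om'_apply]
  · intro σ hσ
    obtain ⟨c, hc⟩ := hb.span _ (h.om'_mem sec hsec hσ)
    refine ⟨c, ?_⟩
    rw [← h.om_om' hs sec hsec hσ, hc, h.om_sum]
    simp only [h.om_smul]

end general

section tower

variable {K : Type*} [Field K] {G : FinGraph} {L : Type*} [Ring L] [Algebra K L]
  (x : CKFamily G L)

theorem sh_tower (hs : G.NoSink) (k : ℕ) :
    Sh x (x.lvAlg K hs k) (x.lvAlg K hs (k + 1)) where
  up d hd e e' := by
    rw [CKFamily.mem_lvAlg, CKFamily.lv_succ]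
    exact Submodule.mul_mem_mul (Submodule.mul_mem_mul (x.e_mem K e) hd) (x.g_mem K e')
  down a ha e e' := by
    rw [CKFamily.mem_lvAlg, CKFamily.lv_succ] at ha
    rw [CKFamily.mem_lvAlg]
    have h1 : x.g e * a * x.e e' ∈ x.Xs K * (x.X K * x.lv K k * x.Xs K) * x.X K :=
      Submodule.mul_mem_mul (Submodule.mul_mem_mul (x.g_mem K e) ha) (x.e_mem K e')
    have h2 : x.Xs K * (x.X K * x.lv K k * x.Xs K) * x.X K ≤ x.lv K k := by
      calc x.Xs K * (x.X K * x.lv K k * x.Xs K) * x.X K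
          = (x.Xs K * x.X K) * x.lv K k * (x.Xs K * x.X K) := by simp only [mul_assoc]
        _ ≤ x.lv K k * x.lv K k * x.lv K k :=
            mul_le_mul' (mul_le_mul' ((x.Xs_mul_X_le K).trans (x.P0_le_lv K hs k)) le_rfl)
              ((x.Xs_mul_X_le K).trans (x.P0_le_lv K hs k))
        _ ≤ x.lv K k * x.lv K k := mul_le_mul' (x.lv_mul_lv_le K k) le_rfl
        _ ≤ _ := x.lv_mul_lv_le K k
    exact h2 h1

theorem lvAlg_mono (hs : G.NoSink) {k l : ℕ} (h : k ≤ l) : x.lvAlg K hs k ≤ x.lvAlg K hs l :=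
  fun _ hd => x.lv_mono K hs h hd

theorem lvAlg_finite (hs : G.NoSink) (k : ℕ) : FiniteDimensional K (x.lvAlg K hs k) := by
  have h := x.M_fg K k k
  exact Module.Finite.of_fg h

theorem p_li (hp : ∀ v, x.p v ≠ 0) : LinearIndependent K x.p := by
  rw [Fintype.linearIndependent_iff]
  intro c hc v
  have h1 := congrArg (fun z => x.p v * z) hc
  simp only [Finset.mul_sum, mul_smul_comm, mul_zero] at h1
  rw [Finset.sum_eq_single v] at h1
  · rw [x.pp_self] at h1
    exact (smul_eq_zero.mp h1).resolve_right (hp v)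
  · intro w _ hw
    rw [x.pp_ne v w (Ne.symm hw), smul_zero]
  · intro h; exact absurd (Finset.mem_univ _) h

theorem mem_lvAlg_zero (hs : G.NoSink) {d : L} (hd : d ∈ x.lvAlg K hs 0) :
    ∃ c : Fin G.nV → K, d = ∑ v, c v • x.p v := by
  rw [CKFamily.mem_lvAlg, CKFamily.lv_zero, CKFamily.P0, Submodule.mem_span_range_iff_exists_fun]
    at hd
  obtain ⟨c, hc⟩ := hd
  exact ⟨c, hc.symm⟩

theorem p_mul_mem (hs : G.NoSink) {d : L} (hd : d ∈ x.lvAlg K hs 0) (v : Fin G.nV) :
    ∃ c : K, x.p v * d = c • x.p v := by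
  obtain ⟨c, rfl⟩ := mem_lvAlg_zero x hs hd
  refine ⟨c v, ?_⟩
  simp only [Finset.mul_sum, mul_smul_comm]
  rw [Finset.sum_eq_single v]
  · rw [x.pp_self]
  · intro w _ hw
    rw [x.pp_ne v w (Ne.symm hw), smul_zero]
  · intro h; exact absurd (Finset.mem_univ _) h

open Classical in
/-- Coordinate functional on `lv 0`. -/
noncomputable def ev (hs : G.NoSink) (hp : ∀ v, x.p v ≠ 0) (v : Fin G.nV) :
    (x.lvAlg K hs 0) →ₗ[K] K where
  toFun d := Classical.choose (p_mul_mem x hs d.2 v)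
  map_add' d d' := by
    have h1 := Classical.choose_spec (p_mul_mem x hs d.2 v)
    have h2 := Classical.choose_spec (p_mul_mem x hs d'.2 v)
    have h3 := Classical.choose_spec (p_mul_mem x hs (d + d').2 v)
    have h4 : x.p v * (d + d' : x.lvAlg K hs 0).1 = x.p v * d.1 + x.p v * d'.1 := mul_add _ _ _
    rw [h1, h2, h3, ← add_smul] at h4
    exact smul_left_injective K (hp v) h4
  map_smul' c d := by
    have h1 := Classical.choose_spec (p_mul_mem x hs d.2 v)
    have h3 := Classical.choose_spec (p_mul_mem x hs (c • d).2 v)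
    have h4 : x.p v * (c • d : x.lvAlg K hs 0).1 = c • (x.p v * d.1) := mul_smul_comm _ _ _
    rw [h1, h3, smul_smul] at h4
    exact smul_left_injective K (hp v) h4

theorem ev_spec (hs : G.NoSink) (hp : ∀ v, x.p v ≠ 0) (v : Fin G.nV) (d : x.lvAlg K hs 0) :
    x.p v * d.1 = (ev x hs hp v d) • x.p v := Classical.choose_spec (p_mul_mem x hs d.2 v)

theorem ev_eq (hs : G.NoSink) (hp : ∀ v, x.p v ≠ 0) (v : Fin G.nV) (d : x.lvAlg K hs 0) (c : K)
    (h : x.p v * d.1 = c • x.p v) : ev x hs hp v d = c := by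
  rw [ev_spec x hs hp] at h
  exact smul_left_injective K (hp v) h

theorem p_mem_lvAlg (hs : G.NoSink) (k : ℕ) (v : Fin G.nV) : x.p v ∈ x.lvAlg K hs k :=
  x.P0_le_lv K hs k (x.p_mem K v)

theorem ev_p (hs : G.NoSink) (hp : ∀ v, x.p v ≠ 0) (v w : Fin G.nV) :
    ev x hs hp v ⟨x.p w, p_mem_lvAlg (K := K) x hs 0 w⟩ = if v = w then 1 else 0 := by
  apply ev_eq
  simp only
  rw [x.pp]
  split_ifs <;> simp

theorem fun_ext_zero (hs : G.NoSink) {σ τ : (x.lvAlg K hs 0) →ₗ[K] K}
    (h : ∀ v, σ ⟨x.p v, p_mem_lvAlg x hs 0 v⟩ = τ ⟨x.p v, p_mem_lvAlg x hs 0 v⟩) : σ = τ := by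
  ext d
  obtain ⟨c, hc⟩ := mem_lvAlg_zero x hs d.2
  have : d = ∑ v, c v • (⟨x.p v, p_mem_lvAlg x hs 0 v⟩ : x.lvAlg K hs 0) := by
    apply Subtype.ext
    rw [hc, AddSubmonoidClass.coe_finsetSum]
    rfl
  rw [this, map_sum, map_sum]
  refine Finset.sum_congr rfl fun v _ => ?_
  rw [map_smul, map_smul, h]

theorem NB_ev [CharZero K] (hs : G.NoSink) (hp : ∀ v, x.p v ≠ 0) :
    NB K (x.lvAlg K hs 0) (ev x hs hp) := by
  refine ⟨?_, ?_, ?_⟩
  · intro v
    refine ⟨1, { toFun := fun d => Matrix.of fun _ _ => ev x hs hp v d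
                 map_add' := fun d d' => by ext i j; simp
                 map_smul' := fun c d => by ext i j; simp }, ?_, ?_⟩
    · intro d d'
      ext i j
      simp only [LinearMap.coe_mk, AddHom.coe_mk, Matrix.of_apply, Matrix.mul_apply,
        Finset.univ_unique, Finset.sum_const, Finset.card_singleton, one_smul]
      apply ev_eq
      change x.p v * (d.1 * d'.1) = _
      rw [← mul_assoc, ev_spec x hs hp, smul_mul_assoc, ev_spec x hs hp, smul_smul]
    · intro d
      simp [Matrix.trace]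
  · rw [Fintype.linearIndependent_iff]
    intro c hc v
    have h1 := congrArg (fun σ : (x.lvAlg K hs 0) →ₗ[K] K => σ ⟨x.p v, p_mem_lvAlg x hs 0 v⟩) hc
    simp only [LinearMap.sum_apply, LinearMap.smul_apply, ev_p, LinearMap.zero_apply] at h1
    simpa using h1
  · intro τ hτ
    have hn : ∀ v, ∃ m : ℕ, τ ⟨x.p v, p_mem_lvAlg x hs 0 v⟩ = m := by
      intro v
      obtain ⟨n, ρ, hρ, ht⟩ := hτ
      rw [ht]
      apply trace_idem
      rw [← hρ]
      congr 1
      exact Subtype.ext (x.pp_self v)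
    choose m hm using hn
    refine ⟨m, fun_ext_zero x hs fun v => ?_⟩
    rw [hm]
    simp only [LinearMap.sum_apply, LinearMap.smul_apply, ev_p]
    simp

/-- The canonical characters of `lv k`. -/
noncomputable def Tr (hs : G.NoSink) (hp : ∀ v, x.p v ≠ 0) :
    ∀ k : ℕ, Fin G.nV → ((x.lvAlg K hs k) →ₗ[K] K)
  | 0 => ev x hs hp
  | k + 1 => fun v => (sh_tower x hs k).om (Tr hs hp k v)

theorem NB_Tr [CharZero K] (hs : G.NoSink) (hr : G.NoSource) (hp : ∀ v, x.p v ≠ 0) (k : ℕ) :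
    NB K (x.lvAlg K hs k) (Tr x hs hp k) := by
  induction k with
  | zero => exact NB_ev x hs hp
  | succ k ih => exact NB.om (sh_tower x hs k) hs hr ih

theorem isZ_Tr (hs : G.NoSink) (hp : ∀ v, x.p v ≠ 0) (k : ℕ) :
    IsZ (sh_tower x hs k) (lvAlg_mono x hs (Nat.le_succ k)) (Tr (K := K) x hs hp k) G.adj := by
  induction k with
  | zero =>
    intro v
    refine fun_ext_zero x hs fun w => ?_
    rw [res_apply, Sh.om_apply]
    simp only [LinearMap.sum_apply, LinearMap.smul_apply, Tr, ev_p]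
    have h1 : ∀ e : Fin G.nE, ev (K := K) x hs hp v ⟨x.g e * x.p w * x.e e,
        (sh_tower x hs 0).down _ ((lvAlg_mono x hs (Nat.le_succ 0)) (p_mem_lvAlg x hs 0 w)) e e⟩ =
        if G.s e = w ∧ G.r e = v then 1 else 0 := by
      intro e
      apply ev_eq
      simp only
      rw [x.gp]
      by_cases h1 : G.s e = w
      · rw [if_pos h1, x.ge_self, x.pp]
        by_cases h2 : G.r e = v
        · simp [h1, h2]
        · simp [h1, h2, Ne.symm h2]
      · simp [h1]
    rw [Finset.sum_congr rfl (fun e _ => h1 e)]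
    rw [Finset.sum_boole]
    simp [FinGraph.adj]
  | succ k ih =>
    intro v
    have e1 : res (lvAlg_mono x hs (Nat.le_succ (k + 1)))
        ((sh_tower x hs (k + 1)).om (Tr (K := K) x hs hp (k + 1) v)) =
        (sh_tower x hs k).om (res (lvAlg_mono x hs (Nat.le_succ k))
          ((sh_tower x hs k).om (Tr x hs hp k v))) := by
      ext d
      simp only [res_apply, Sh.om_apply, Tr]
    rw [e1, ih v, Sh.om_sum]
    simp only [Sh.om_smul]
    rfl

theorem Tr_one (hs : G.NoSink) (hp : ∀ v, x.p v ≠ 0) (k : ℕ) (v : Fin G.nV) :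
    Tr (K := K) x hs hp k v 1 = ((∑ w, (G.adj ^ k) w v : ℤ) : K) := by
  induction k generalizing v with
  | zero =>
    have h1 : (1 : x.lvAlg K hs 0) = ∑ w, ⟨x.p w, p_mem_lvAlg x hs 0 w⟩ := by
      apply Subtype.ext
      rw [AddSubmonoidClass.coe_finsetSum]
      exact x.sum_p.symm
    rw [h1, map_sum]
    simp only [Tr, ev_p]
    simp [Matrix.one_apply]
  | succ k ih =>
    have h1 : Tr (K := K) x hs hp (k + 1) v 1 =
        res (lvAlg_mono x hs (Nat.le_succ k)) ((sh_tower x hs k).om (Tr x hs hp k v)) 1 := rfl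
    rw [h1, isZ_Tr]
    simp only [LinearMap.sum_apply, LinearMap.smul_apply, ih, smul_eq_mul]
    rw [pow_succ]
    simp only [Matrix.mul_apply]
    push_cast
    rw [Finset.sum_comm]
    refine Finset.sum_congr rfl fun w _ => ?_
    rw [mul_comm, Finset.sum_mul]

end tower

end Pool.Agent.GCC
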